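import Pool.Agent.W_7d29a1_h66.D7r
import Pool.Agent.W_7d29a1_G.FR0
import Pool.Agent.W_7d29a1_g.CrossRec

/-!
Track G (MP_7d29a1_pr), section A (row 618): THEOREM D7 at an octave which is not soft: the bulk does not grow. The inputs are the
inner cone (row 620), the box of witnesses with its width (EL), and (I1). (helper66)
-/

namespace Pool.Agent.W_7d29a1_h66

open MeasureTheory ProbabilityTheory Filter Topology Pool.Agent.W_7d29a1_F Pool.Agent.W_7d29a1_h4g Pool.Agent.W_7d29a1_G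

/-- A discrete convex function lies below its chord. -/
theorem chord {f : ℕ → ℝ} {N : ℕ} (hf : ∀ i, i + 2 ≤ N → 2 * f (i + 1) ≤ f i + f (i + 2)) {j : ℕ} (hj : j ≤ N) :
    (N : ℝ) * f j ≤ (N - j) * f 0 + j * f N := by
  rcases hj.eq_or_lt with rfl | hlt
  · linarith
  obtain ⟨d, hd⟩ : ∃ d : ℝ, d = f (j + 1) - f j := ⟨_, rfl⟩
  have hup : ∀ k : ℕ, j + k + 1 ≤ N → d ≤ f (j + k + 1) - f (j + k) := by
    intro k
    induction k with
    | zero =>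
      intro _
      rw [hd]
      exact le_refl _
    | succ k ih =>
      intro hk
      have h1 := ih (by omega)
      have h2 := hf (j + k) (by omega)
      have e1 : j + (k + 1) + 1 = j + k + 2 := by ring
      have e2 : j + (k + 1) = j + k + 1 := by ring
      rw [e1, e2]
      linarith
  have hdown : ∀ k : ℕ, k ≤ j → f (j - k + 1) - f (j - k) ≤ d := by
    intro k
    induction k with
    | zero =>
      intro _
      rw [hd, Nat.sub_zero]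
    | succ k ih =>
      intro hk
      have h1 := ih (by omega)
      have h2 := hf (j - (k + 1)) (by omega)
      have e1 : j - (k + 1) + 1 = j - k := by omega
      have e2 : j - (k + 1) + 2 = j - k + 1 := by omega
      rw [e1, e2] at h2
      rw [e1]
      linarith
  have hA : ∀ k : ℕ, j + k ≤ N → (k : ℝ) * d ≤ f (j + k) - f j := by
    intro k
    induction k with
    | zero => intro _; simp
    | succ k ih =>
      intro hk
      have h1 := ih (by omega)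
      have h2 := hup k (by omega)
      have e2 : j + (k + 1) = j + k + 1 := by ring
      rw [e2]
      push_cast
      linarith
  have hB : ∀ k : ℕ, k ≤ j → f j - f (j - k) ≤ (k : ℝ) * d := by
    intro k
    induction k with
    | zero => intro _; simp
    | succ k ih =>
      intro hk
      have h1 := ih (by omega)
      have h2 := hdown (k + 1) hk
      have e1 : j - (k + 1) + 1 = j - k := by omega
      rw [e1] at h2
      push_cast
      linarith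
  have h1 := hA (N - j) (by omega)
  have h2 := hB j le_rfl
  rw [Nat.add_sub_cancel' hj] at h1
  rw [Nat.sub_self] at h2
  rw [Nat.cast_sub hj] at h1
  have hjr : (j : ℝ) ≤ N := by exact_mod_cast hj
  have hj0 : (0 : ℝ) ≤ j := Nat.cast_nonneg j
  have h3 := mul_le_mul_of_nonneg_left h1 hj0
  have h4 := mul_le_mul_of_nonneg_left h2 (sub_nonneg.2 hjr)
  nlinarith

section

variable {μ : Measure ℝ} [IsProbabilityMeasure μ]

/-- The mean cost of the displacements of the time `r` is below its chords. -/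
theorem e_chord (hμ : Pool.Agent.W_7d29a1_h47.EM μ) {r j N : ℕ} {c : ℤ} (hc : 0 ≤ c) (hj : j ≤ N) (hr : c + N ≤ r) :
    (N : ℝ) * e μ 0 r (c + j) ≤ (N - j) * e μ 0 r c + j * e μ 0 r (c + N) := by
  have h := chord (f := fun i => e μ 0 r (c + i)) (N := N) (fun i hi => ?_) hj
  · simpa using h
  · have h1 := e_convex (μ := μ) (s := 0) hμ (n := r) (y := c + (i + 1 : ℕ)) (by push_cast; omega) (by push_cast; omega)
    have e1 : c + ((i + 1 : ℕ) : ℤ) - 1 = c + i := by push_cast; ring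
    have e2 : c + ((i + 1 : ℕ) : ℤ) + 1 = c + ((i + 2 : ℕ) : ℤ) := by push_cast; ring
    rw [e1, e2] at h1
    exact h1

omit [IsProbabilityMeasure μ] in
theorem Emax_eq (n : ℕ) : Emax μ n = 1 + Pool.Agent.W_7d29a1_g.Em μ n := rfl

theorem md_cast (n : ℕ) : md n = ((n / 2 : ℕ) : ℤ) := by
  unfold md
  norm_cast

/-- The mean cost of direction `0` is nonnegative and at most the unit. -/
theorem e0_bounds (hμ : Pool.Agent.W_7d29a1_h47.EM μ) {t n : ℕ} (h : t ≤ n) :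
    0 ≤ e μ 0 t ((t / 2 : ℕ) : ℤ) ∧ e μ 0 t ((t / 2 : ℕ) : ℤ) ≤ EE μ n - 1 := by
  refine ⟨Pool.Agent.W_7d29a1_g.e0_nonneg hμ t, ?_⟩
  have h1 := ep_le_EE (μ := μ) h
  rw [md_cast] at h1
  refine le_trans ?_ h1
  unfold e ep
  exact integral_mono (int_X hμ 0 (by positivity) (by exact_mod_cast Nat.div_le_self t 2))
    (int_Xp hμ 0 (by positivity) (by exact_mod_cast Nat.div_le_self t 2)) fun η => le_max_left _ _

/-- The straight cost is sublinear. -/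
theorem e0_div_tendsto (hμ : Pool.Agent.W_7d29a1_h47.EM μ) (hnd : Pool.Agent.W_7d29a1_h47.Nondeg μ) :
    Tendsto (fun N : ℕ => e μ 0 N ((N / 2 : ℕ) : ℤ) / N) atTop (𝓝 0) := by
  refine squeeze_zero (fun N => ?_) (fun N => ?_) (EE_div_tendsto hμ hnd)
  · exact div_nonneg (e0_bounds hμ le_rfl).1 (Nat.cast_nonneg N)
  · have h1 := (e0_bounds (μ := μ) hμ (le_refl N)).2
    exact div_le_div_of_nonneg_right (by linarith) (Nat.cast_nonneg N)

/-- Nothing fluctuates at an octave which is not soft. -/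
theorem NS_of_not_Sf {x : ℕ} {α ε : ℝ} (h : ¬ Sf μ x α) (hα5 : 5 ≤ α) (hα : (2 : ℝ) ^ (-α) ≤ ε) {t : ℕ}
    (ht : t ≤ 2 ^ (x + 1)) : NS μ 0 t (16 * EE μ (2 ^ x)) ε := by
  intro G hP hpos hV hm
  have hE := EE_pos (μ := μ) (2 ^ x)
  have h32 : (32 : ℝ) ≤ 2 ^ α := by
    have h1 : (2 : ℝ) ^ (5 : ℝ) ≤ 2 ^ α := Real.rpow_le_rpow_of_exponent_le one_le_two hα5
    have h2 : (2 : ℝ) ^ (5 : ℝ) = 32 := by norm_num
    linarith
  have hε0 : 0 < ε := lt_of_lt_of_le (Real.rpow_pos_of_pos two_pos _) hα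
  have hl : (t : ℝ) ≤ (2 : ℝ) ^ ((x : ℝ) + α) := by
    have h1 : (t : ℝ) ≤ 2 ^ (x + 1) := by exact_mod_cast ht
    have h2 : (2 : ℝ) ^ (x + 1) = (2 : ℝ) ^ ((x : ℝ) + 1) := by
      rw [Real.rpow_add two_pos, Real.rpow_natCast, Real.rpow_one, pow_succ]
    rw [h2] at h1
    exact h1.trans (Real.rpow_le_rpow_of_exponent_le one_le_two (by linarith))
  have h1 := conc_of_not_Sf h hl hP hpos hV (by nlinarith)
  refine lt_of_le_of_lt (measureReal_mono (fun η hη => ?_) (measure_ne_top _ _)) (h1.trans_le hα)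
  rw [Set.mem_ofPred_eq] at hη ⊢
  refine le_trans ?_ hη
  nlinarith

end

/-- The box of witnesses (EL): at an octave which is not soft there is a width, at most the natural width, such that the box to box
weights have exponential tails in the cell. -/
def ELout (μ : Measure ℝ) : Prop :=
  ∃ R C₁ C : ℝ, 0 ≤ C₁ ∧ 0 ≤ C ∧ ∀ A : ℝ, R ≤ A → ∀ W₀ : ℕ, ∃ (α : ℝ) (x₀ : ℕ), ∀ x : ℕ, x₀ ≤ x → ¬ Sf μ x α →
    ∃ w : ℕ, W₀ ≤ w ∧ (w : ℝ) ≤ C * (vA μ 1 (2 ^ x) * 2 ^ x) ∧ ∀ (t wc : ℕ) (k : ℤ), 1 ≤ t → t ≤ 2 ^ (x + 1) →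
      w ≤ 2 * wc → wc ≤ w →
      ∫ η, GG μ 0 t wc k η ^ (4 * (A / (16 * EE μ (2 ^ x)))) ∂(law μ) ≤ Real.exp (4 * (C₁ * A - |(k : ℝ)|))

/-- THEOREM D7 (row 618) at an octave which is not soft. -/
theorem octave {μ : Measure ℝ} [IsProbabilityMeasure μ] (hμ : Pool.Agent.W_7d29a1_h47.EM μ)
    (hnd : Pool.Agent.W_7d29a1_h47.Nondeg μ) (hEE : Tendsto (EE μ) atTop atTop)
    (hIn : ∃ c₀ : ℝ, 0 < c₀ ∧ ∀ H : ℕ, ∃ (C : ℝ) (n₀ : ℕ), ∀ n : ℕ, n₀ ≤ n → ∀ (m : ℕ) (y : ℤ), m ≤ H * n → 0 ≤ y → y ≤ m →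
      |(y : ℝ) - m / 2| ≤ c₀ * vA μ 1 n * m + 1 → ep μ m y ≤ C * EE μ n)
    (hI1 : ∃ (α : ℝ) (x₀ : ℕ), ∀ z : ℕ, x₀ ≤ z → ¬ Sf μ z α →
      EE μ (2 ^ z) ≤ 2 * (1 + Pool.Agent.W_7d29a1_g.Em μ (2 ^ z)) + 2)
    (hEL : ELout μ) :
    ∀ s₀ : ℝ, 0 < s₀ → ∃ (α : ℝ) (x₀ : ℕ), ∀ z : ℕ, x₀ ≤ z → ¬ Sf μ z α →
      1 + Pool.Agent.W_7d29a1_g.Em μ (2 ^ (z + 1)) ≤ (1 + s₀) * (1 + Pool.Agent.W_7d29a1_g.Em μ (2 ^ z)) := by
  intro σ hσ
  obtain ⟨c₁, hc₁, hIn1⟩ := hIn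
  obtain ⟨C₂, n₂, hIn2⟩ := hIn1 1
  obtain ⟨α₃, x₃, hI⟩ := hI1
  obtain ⟨R, C₁, C, hC₁, hC, hL⟩ := hEL
  -- constants
  obtain ⟨c₀, hc₀⟩ : ∃ c₀ : ℝ, c₀ = min c₁ 1 := ⟨_, rfl⟩
  have hc00 : 0 < c₀ := by rw [hc₀]; exact lt_min hc₁ one_pos
  have hc01 : c₀ ≤ 1 := by rw [hc₀]; exact min_le_right _ _
  have hc0c : c₀ ≤ c₁ := by rw [hc₀]; exact min_le_left _ _
  obtain ⟨Ci, hCi⟩ : ∃ Ci : ℝ, Ci = max C₂ 2 := ⟨_, rfl⟩
  have hCi2 : 2 ≤ Ci := by rw [hCi]; exact le_max_right _ _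
  have hCiC : C₂ ≤ Ci := by rw [hCi]; exact le_max_left _ _
  obtain ⟨s₁, hs₁⟩ : ∃ s₁ : ℝ, s₁ = min σ 1 := ⟨_, rfl⟩
  have hs10 : 0 < s₁ := by rw [hs₁]; exact lt_min hσ one_pos
  have hs11 : s₁ ≤ 1 := by rw [hs₁]; exact min_le_right _ _
  have hs1σ : s₁ ≤ σ := by rw [hs₁]; exact min_le_left _ _
  obtain ⟨s₀, hs₀⟩ : ∃ s₀ : ℝ, s₀ = s₁ / 64 := ⟨_, rfl⟩
  have hs00 : 0 < s₀ := by rw [hs₀]; positivity
  have hs01 : s₀ ≤ 1 := by rw [hs₀]; linarith
  -- the number of cells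
  obtain ⟨Q, hQ⟩ := exists_nat_ge (max 2 (8 * C * Ci / (c₀ * s₀)))
  have hQ2 : 2 ≤ Q := by exact_mod_cast (le_max_left _ _).trans hQ
  have hQC : 8 * C * Ci ≤ Q * (c₀ * s₀) := by
    have h1 := (le_max_right _ _).trans hQ
    rwa [div_le_iff₀ (by positivity)] at h1
  have hQ0 : (0 : ℝ) < Q := by exact_mod_cast (by omega : 0 < Q)
  obtain ⟨A₀, hA₀, HA⟩ := d7_false hs00 hs01 hC₁ hQ2
  obtain ⟨A, hA⟩ : ∃ A : ℝ, A = max A₀ R := ⟨_, rfl⟩
  obtain ⟨ε, E₀, hε, hε7, HH⟩ := HA A (by rw [hA]; exact le_max_left _ _)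
  -- the smallest width
  obtain ⟨W₀, hW₀⟩ := exists_nat_ge (max (2 * (Q : ℝ)) (16 * C / c₀))
  obtain ⟨α₄, x₄, hL4⟩ := hL A (by rw [hA]; exact le_max_right _ _) W₀
  obtain ⟨α₅, hα₅⟩ : ∃ α₅ : ℝ, α₅ = max 5 (-Real.logb 2 ε) := ⟨_, rfl⟩
  have hα5 : (2 : ℝ) ^ (-α₅) ≤ ε := by
    have h1 : -α₅ ≤ Real.logb 2 ε := by
      rw [hα₅]
      linarith [le_max_right 5 (-Real.logb 2 ε)]
    calc (2 : ℝ) ^ (-α₅) ≤ 2 ^ Real.logb 2 ε := Real.rpow_le_rpow_of_exponent_le one_le_two h1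
      _ = ε := Real.rpow_logb two_pos (by norm_num) hε
  have ht : Tendsto (fun x : ℕ => EE μ (2 ^ x)) atTop atTop := hEE.comp (tendsto_pow_atTop_atTop_of_one_lt one_lt_two)
  obtain ⟨x₅, hx₅⟩ := Filter.eventually_atTop.1 (ht.eventually_ge_atTop (max E₀ 1))
  refine ⟨max (max α₃ α₄) (max 5 α₅), max (max x₃ x₄) (max (max x₅ n₂) 3), fun x hx hns => ?_⟩
  have hx3 : x₃ ≤ x := ((le_max_left _ _).trans (le_max_left _ _)).trans hx
  have hx4 : x₄ ≤ x := ((le_max_right _ _).trans (le_max_left _ _)).trans hx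
  have hx5 : x₅ ≤ x := (((le_max_left _ _).trans (le_max_left _ _)).trans (le_max_right _ _)).trans hx
  have hxn : n₂ ≤ x := (((le_max_right _ _).trans (le_max_left _ _)).trans (le_max_right _ _)).trans hx
  have hx8 : 3 ≤ x := ((le_max_right _ _).trans (le_max_right _ _)).trans hx
  have hns3 : ¬ Sf μ x α₃ := fun h => hns (h.mono ((le_max_left _ _).trans (le_max_left _ _)))
  have hns4 : ¬ Sf μ x α₄ := fun h => hns (h.mono ((le_max_right _ _).trans (le_max_left _ _)))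
  have hns5 : ¬ Sf μ x α₅ := fun h => hns (h.mono ((le_max_right _ _).trans (le_max_right _ _)))
  have hα₅5 : 5 ≤ α₅ := by rw [hα₅]; exact le_max_left _ _
  obtain ⟨n, hn⟩ : ∃ n : ℕ, n = 2 ^ x := ⟨_, rfl⟩
  have hn8 : 8 ≤ n := by
    rw [hn]
    calc 8 = 2 ^ 3 := by norm_num
      _ ≤ 2 ^ x := Nat.pow_le_pow_right (by norm_num) hx8
  have h2n : 2 ^ (x + 1) = 2 * n := by rw [hn, pow_succ]; ring
  have hnx : x ≤ n := by rw [hn]; exact Nat.lt_two_pow_self.le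
  have hnr : ((2 : ℝ) ^ x) = n := by rw [hn]; push_cast; rfl
  have hI' := hI x hx3 hns3
  have hE5 := hx₅ x hx5
  obtain ⟨w, hWw, hwC, hGG⟩ := hL4 x hx4 hns4
  rw [← hn] at hI' hE5 hwC hGG ⊢
  rw [h2n]
  rw [h2n] at hGG
  rw [hnr] at hwC
  obtain ⟨U, hU⟩ : ∃ U : ℝ, U = EE μ n := ⟨_, rfl⟩
  rw [← hU] at hI' hE5 hGG
  have hU1 : 1 ≤ U := (le_max_right _ _).trans hE5
  have hUE : E₀ ≤ U := (le_max_left _ _).trans hE5
  have hEU : E₀ ≤ 16 * U := by linarith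
  have hNS : ∀ t : ℕ, t ≤ 2 * n → NS μ 0 t (16 * U) ε := by
    intro t ht
    have h1 := NS_of_not_Sf (μ := μ) hns5 hα₅5 hα5 (t := t) (by rw [h2n]; exact ht)
    rwa [← hn, ← hU] at h1
  by_contra hcon
  rw [not_le] at hcon
  rw [← Emax_eq, ← Emax_eq] at hcon
  rw [← Emax_eq] at hI'
  have hEm1 : 1 ≤ Emax μ n := by
    have := Pool.Agent.W_7d29a1_g.Em_nonneg (μ := μ) hμ n
    rw [Emax_eq]
    linarith
  obtain ⟨m, r, hev, hrm, hnmr, hmr2, hrn, hmr8, hgr, htop⟩ := record μ (s₁ := s₁) hn8 hs10.le hEm1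
    (lt_of_le_of_lt (mul_le_mul_of_nonneg_right (by linarith) (by linarith)) hcon)
  obtain ⟨h, hh⟩ : ∃ h : ℕ, h = w / Q := ⟨_, rfl⟩
  have hW1 : 2 * (Q : ℝ) ≤ w := ((le_max_left _ _).trans hW₀).trans (by exact_mod_cast hWw)
  have hW2 : 16 * C / c₀ ≤ w := ((le_max_right _ _).trans hW₀).trans (by exact_mod_cast hWw)
  have hwQ : 2 * Q ≤ w := by exact_mod_cast hW1
  have hh1 : 1 ≤ h := by
    rw [hh]
    exact (Nat.one_le_div_iff (by omega)).2 (by omega)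
  have hQh : Q * h ≤ w := by rw [hh]; exact Nat.mul_div_le w Q
  have hQh' : w < Q * h + Q := by
    rw [hh]
    have := Nat.lt_mul_div_succ w (show 0 < Q by omega)
    rw [Nat.mul_succ] at this
    exact this
  have hQh2 : w ≤ 2 * (Q * h) := by
    have h1 : Q * 2 ≤ w := by omega
    omega
  -- the width in numbers
  obtain ⟨v, hv⟩ : ∃ v : ℝ, v = vA μ 1 n := ⟨_, rfl⟩
  have hv0 : 0 ≤ v := by rw [hv]; exact vA_nonneg hμ zero_le_one n
  have hv1 : v ≤ 1 / 2 := by rw [hv]; exact vA_le hμ zero_le_one n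
  rw [← hv] at hwC
  have hn0 : (0 : ℝ) < n := by exact_mod_cast (by omega : 0 < n)
  have hhr : (Q : ℝ) * h ≤ C * (v * n) := by
    have h1 : ((Q * h : ℕ) : ℝ) ≤ w := by exact_mod_cast hQh
    push_cast at h1
    linarith
  have hvn : 16 ≤ c₀ * (v * n) := by
    rw [div_le_iff₀ hc00] at hW2
    have hC0 : 0 < C := by
      by_contra hC0
      have h1 : C = 0 := le_antisymm (not_lt.1 hC0) hC
      rw [h1, zero_mul] at hwC
      have : (0 : ℝ) < w := by exact_mod_cast (by omega : 0 < w)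
      linarith
    have h1 : 16 * C ≤ C * (v * n) * c₀ := hW2.trans (mul_le_mul_of_nonneg_right hwC hc00.le)
    have h2 : C * 16 ≤ C * (c₀ * (v * n)) := by linarith
    exact le_of_mul_le_mul_left h2 hC0
  have hmr8r : (n : ℝ) ≤ 8 * r := by
    have h1 : n ≤ 8 * r := by omega
    exact_mod_cast h1
  -- the chord
  obtain ⟨Y, hY⟩ : ∃ Y : ℕ, Y = ⌊c₀ * (v * n) / 8⌋₊ := ⟨_, rfl⟩
  have hY1 : (Y : ℝ) ≤ c₀ * (v * n) / 8 := by rw [hY]; exact Nat.floor_le (by positivity)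
  have hY2 : c₀ * (v * n) / 16 ≤ Y := by
    have h1 : c₀ * (v * n) / 8 < Y + 1 := by rw [hY]; exact Nat.lt_floor_add_one _
    linarith
  have hY0 : (0 : ℝ) < Y := by linarith
  have hhY : (h : ℝ) * Ci ≤ 2 * s₀ * Y := by
    -- `Q h ≤ C v n` and `8 C Ci ≤ Q c₀ s₀`
    have h1 : (Q : ℝ) * (h * Ci) ≤ Q * (2 * s₀ * Y) := by
      calc (Q : ℝ) * (h * Ci) = (Q * h) * Ci := by ring
        _ ≤ (C * (v * n)) * Ci := mul_le_mul_of_nonneg_right hhr (by linarith)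
        _ = (8 * C * Ci) * ((v * n) / 8) := by ring
        _ ≤ (Q * (c₀ * s₀)) * ((v * n) / 8) := mul_le_mul_of_nonneg_right hQC (by positivity)
        _ = Q * (2 * s₀ * (c₀ * (v * n) / 16)) := by ring
        _ ≤ Q * (2 * s₀ * Y) := mul_le_mul_of_nonneg_left (mul_le_mul_of_nonneg_left hY2 (by positivity)) hQ0.le
    exact le_of_mul_le_mul_left h1 hQ0
  have hhYn : h ≤ Y := by
    have h1 : (h : ℝ) * 2 ≤ h * Ci := mul_le_mul_of_nonneg_left hCi2 (Nat.cast_nonneg h)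
    have h2 : 2 * s₀ * Y ≤ 2 * 1 * Y := mul_le_mul_of_nonneg_right (by linarith) hY0.le
    have h3 : (h : ℝ) ≤ Y := by linarith
    exact_mod_cast h3
  have hY16 : (Y : ℝ) ≤ n / 16 := by
    have h1 : c₀ * (v * n) ≤ 1 * (1 / 2 * n) :=
      mul_le_mul hc01 (mul_le_mul_of_nonneg_right hv1 hn0.le) (by positivity) zero_le_one
    linarith
  have hY2r : 2 * Y ≤ r := by
    have h1 : (2 : ℝ) * Y ≤ r := by linarith
    exact_mod_cast h1
  have hYr : ((r / 2 : ℕ) : ℤ) + Y ≤ r := by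
    have h1 : r / 2 + Y ≤ r := by omega
    exact_mod_cast h1
  have hedge : e μ 0 r (((r / 2 : ℕ) : ℤ) + Y) ≤ Ci * U := by
    have h1 := hIn2 n (hxn.trans hnx) r (((r / 2 : ℕ) : ℤ) + Y) (by omega) (by positivity) hYr (by
      have hr2 : (2 : ℝ) * ((r / 2 : ℕ) : ℝ) ≤ r := by exact_mod_cast Nat.mul_div_le r 2
      have hr3 : (r : ℝ) ≤ 2 * ((r / 2 : ℕ) : ℝ) + 1 := by
        have : r ≤ 2 * (r / 2) + 1 := by omega
        exact_mod_cast this
      have hvr : c₀ * (v * n) / 8 ≤ c₁ * v * r := by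
        have h2 : c₀ * (v * n) ≤ c₁ * (v * (8 * r)) :=
          mul_le_mul hc0c (mul_le_mul_of_nonneg_left hmr8r hv0) (by positivity) hc₁.le
        linarith
      have e1 : (((((r / 2 : ℕ) : ℤ) + (Y : ℤ)) : ℤ) : ℝ) = ((r / 2 : ℕ) : ℝ) + Y := by
        rw [Int.cast_add, Int.cast_natCast, Int.cast_natCast]
      rw [← hv, e1, abs_le]
      have hY00 : (0 : ℝ) ≤ Y := Nat.cast_nonneg Y
      constructor <;> linarith)
    rw [← hU] at h1
    have h2 : e μ 0 r (((r / 2 : ℕ) : ℤ) + Y) ≤ ep μ r (((r / 2 : ℕ) : ℤ) + Y) := by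
      unfold e ep
      exact integral_mono (int_X hμ 0 (by positivity) hYr) (int_Xp hμ 0 (by positivity) hYr) fun η => le_max_left _ _
    have h3 : C₂ * U ≤ Ci * U := mul_le_mul_of_nonneg_right hCiC (by linarith)
    linarith
  have hmesh : e μ 0 r (((r / 2 : ℕ) : ℤ) + (h : ℤ)) ≤ e μ 0 r ((r / 2 : ℕ) : ℤ) + s₀ / 8 * (16 * U) := by
    have h1 := e_chord hμ (μ := μ) (r := r) (j := h) (N := Y) (c := ((r / 2 : ℕ) : ℤ)) (by positivity) hhYn hYr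
    have h0 := (e0_bounds (μ := μ) hμ (le_refl r)).1
    have h2 : (h : ℝ) * e μ 0 r (((r / 2 : ℕ) : ℤ) + Y) ≤ Y * (2 * s₀ * U) := by
      calc (h : ℝ) * e μ 0 r (((r / 2 : ℕ) : ℤ) + Y) ≤ h * (Ci * U) := mul_le_mul_of_nonneg_left hedge (Nat.cast_nonneg h)
        _ = (h * Ci) * U := by ring
        _ ≤ (2 * s₀ * Y) * U := mul_le_mul_of_nonneg_right hhY (by linarith)
        _ = Y * (2 * s₀ * U) := by ring
    have h3 : ((Y : ℝ) - h) * e μ 0 r ((r / 2 : ℕ) : ℤ) ≤ Y * e μ 0 r ((r / 2 : ℕ) : ℤ) :=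
      mul_le_mul_of_nonneg_right (by linarith [(Nat.cast_nonneg h : (0 : ℝ) ≤ h)]) h0
    have h4 : (Y : ℝ) * e μ 0 r (((r / 2 : ℕ) : ℤ) + (h : ℤ)) ≤ Y * (e μ 0 r ((r / 2 : ℕ) : ℤ) + s₀ / 8 * (16 * U)) := by
      have e1 : (Y : ℝ) * (e μ 0 r ((r / 2 : ℕ) : ℤ) + s₀ / 8 * (16 * U)) =
          Y * e μ 0 r ((r / 2 : ℕ) : ℤ) + Y * (2 * s₀ * U) := by ring
      rw [e1]
      exact h1.trans (add_le_add h3 h2)
    exact le_of_mul_le_mul_left h4 hY0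
  -- the scale
  refine HH μ (e0_div_tendsto hμ hnd) m r h (16 * U) hEU ⟨hμ, hev, hrm, hh1, ?_, ?_, ?_, hmesh, hNS r (by omega),
    hNS (m + r) hmr2, fun k => ?_, fun k => ?_⟩
  · omega
  · have h1 : U ≤ 4 * Emax μ n := by linarith
    have h2 : s₀ * (16 * U) ≤ s₁ * Emax μ n := by
      have h3 := mul_le_mul_of_nonneg_left h1 hs10.le
      rw [hs₀]
      clear * - h3
      linarith
    exact h2.trans (by exact_mod_cast hgr)
  · have h1 := (e0_bounds (μ := μ) hμ hmr2).2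
    have h2 := EE_two (μ := μ) hμ n
    rw [← hU] at h2
    linarith
  · exact hGG m (Q * h) k (by omega) (by omega) hQh2 hQh
  · exact hGG (m + r) (Q * h) k (by omega) hmr2 hQh2 hQh

end Pool.Agent.W_7d29a1_h66
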