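import Pool.Agent.W_7d29a1_h66.Rec2

/-!
Track G (MP_7d29a1_pr), section A (row 618): the fractional moment of a long point to point weight. (helper66)
-/

namespace Pool.Agent.W_7d29a1_h66

open MeasureTheory ProbabilityTheory Pool.Agent.W_7d29a1_F

variable {μ : Measure ℝ} {s : ℝ}

theorem rpow_sum_le {ι : Type*} (I : Finset ι) {f : ι → ℝ} (hf : ∀ i ∈ I, 0 ≤ f i) {θ : ℝ} (h0 : 0 < θ)
    (h1 : θ ≤ 1) : (∑ i ∈ I, f i) ^ θ ≤ ∑ i ∈ I, f i ^ θ := by
  classical
  induction I using Finset.induction_on with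
  | empty => simp [Real.zero_rpow h0.ne']
  | @insert a I ha ih =>
    rw [Finset.sum_insert ha, Finset.sum_insert ha]
    refine (Real.rpow_add_le_add_rpow (hf a (Finset.mem_insert_self a I))
      (Finset.sum_nonneg fun i hi => hf i (Finset.mem_insert_of_mem hi)) h0.le h1).trans ?_
    exact add_le_add le_rfl (ih fun i hi => hf i (Finset.mem_insert_of_mem hi))

/-- The factors of one slab. -/
noncomputable def ff (μ : Measure ℝ) (s : ℝ) (m r h : ℕ) (cm cr : ℤ) (ρ θ : ℝ) (b b' : Bool) (δ : ℤ) (η : Env) : ℝ :=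
  if b' = true then (2 * Real.exp ρ) ^ θ * PP μ s m r h cm cr b δ η ^ θ
  else io (¬ Good μ s r h cr ρ (sh ((m : ℤ), cm + δ * h) η)) * RR μ s m h cm b δ η ^ θ

/-- The powers of the weights. -/
noncomputable def yy (μ : Measure ℝ) (s : ℝ) (m r h : ℕ) (cm cr : ℤ) (θ : ℝ) : ℕ → Bool → ℤ → Env → ℝ
  | 0, b, a, _ => if b = true ∧ a = 1 then 1 else 0
  | i + 1, b, a, η => MM μ s m r h cm cr (i + 1) b a η ^ θ

theorem ff_nonneg (m r h : ℕ) (cm cr : ℤ) (ρ θ : ℝ) (b b' : Bool) (δ : ℤ) (η : Env) :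
    0 ≤ ff μ s m r h cm cr ρ θ b b' δ η := by
  unfold ff
  split_ifs
  · exact mul_nonneg (Real.rpow_nonneg (mul_nonneg zero_le_two (Real.exp_pos _).le) _)
      (Real.rpow_nonneg (PP_nonneg _ _ _ _ _ _ _ _) _)
  · exact mul_nonneg (io_nonneg _) (Real.rpow_nonneg (RR_nonneg _ _ _ _ _ _) _)

theorem yy_nonneg (m r h : ℕ) (cm cr : ℤ) (θ : ℝ) (i : ℕ) (b : Bool) (a : ℤ) (η : Env) :
    0 ≤ yy μ s m r h cm cr θ i b a η := by
  cases i with
  | zero =>
    show (0 : ℝ) ≤ if b = true ∧ a = 1 then 1 else 0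
    split_ifs <;> norm_num
  | succ i =>
    unfold yy
    exact Real.rpow_nonneg (MM_nonneg _ _ _ _ _ _ _ _ _) _

theorem yy_rec {m r h : ℕ} {cm cr : ℤ} {ρ θ : ℝ} (hh : 1 ≤ h) (hρ : 0 ≤ ρ) (h0 : 0 < θ) (h1 : θ ≤ 1) (i : ℕ)
    (b : Bool) (a : ℤ) (η : Env) :
    yy μ s m r h cm cr θ (i + 1) b a η ≤ ∑ q ∈ (Finset.univ : Finset Bool) ×ˢ DD m r h cm cr,
      ff μ s m r h cm cr ρ θ b q.1 q.2 η *
        yy μ s m r h cm cr θ i q.1 (a - q.2) (sh ((m : ℤ), cm + q.2 * h) η) := by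
  have hterm : ∀ q : Bool × ℤ, 0 ≤ ff μ s m r h cm cr ρ θ b q.1 q.2 η *
        yy μ s m r h cm cr θ i q.1 (a - q.2) (sh ((m : ℤ), cm + q.2 * h) η) := fun q =>
    mul_nonneg (ff_nonneg _ _ _ _ _ _ _ _ _ _ _) (yy_nonneg _ _ _ _ _ _ _ _ _ _)
  cases i with
  | zero =>
    have e1 : yy μ s m r h cm cr θ (0 + 1) b a η = PP μ s m r h cm cr b (a - 1) η ^ θ := by
      show MM μ s m r h cm cr (0 + 1) b a η ^ θ = _
      unfold MM PP
      congr 2
      funext u
      rw [show (0 + 1) * m + r = m + r by ring]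
      congr 1
      push_cast
      ring
    rw [e1]
    by_cases ha : a - 1 ∈ DD m r h cm cr
    · have hmem : ((true, a - 1) : Bool × ℤ) ∈ (Finset.univ : Finset Bool) ×ˢ DD m r h cm cr :=
        Finset.mem_product.2 ⟨Finset.mem_univ true, ha⟩
      have h2 := Finset.single_le_sum (f := fun q : Bool × ℤ => ff μ s m r h cm cr ρ θ b q.1 q.2 η *
          yy μ s m r h cm cr θ 0 q.1 (a - q.2) (sh ((m : ℤ), cm + q.2 * h) η)) (fun q _ => hterm q) hmem
      refine le_trans ?_ h2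
      have e2 : yy μ s m r h cm cr θ 0 true (a - (a - 1)) (sh ((m : ℤ), cm + (a - 1) * h) η) = 1 := by
        show (if true = true ∧ a - (a - 1) = 1 then (1 : ℝ) else 0) = 1
        rw [if_pos ⟨rfl, by ring⟩]
      show _ ≤ ff μ s m r h cm cr ρ θ b true (a - 1) η *
        yy μ s m r h cm cr θ 0 true (a - (a - 1)) (sh ((m : ℤ), cm + (a - 1) * h) η)
      rw [e2, mul_one]
      unfold ff
      rw [if_pos rfl]
      have h3 : (1 : ℝ) ≤ (2 * Real.exp ρ) ^ θ := by
        refine Real.one_le_rpow ?_ h0.le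
        have := Real.one_le_exp hρ
        linarith
      have h4 : 0 ≤ PP μ s m r h cm cr b (a - 1) η ^ θ := Real.rpow_nonneg (PP_nonneg _ _ _ _ _ _ _ _) _
      nlinarith
    · have h2 : PP μ s m r h cm cr b (a - 1) η = 0 := by
        refine le_antisymm (mx_le le_rfl fun u hu => le_of_eq ?_) (PP_nonneg _ _ _ _ _ _ _ _)
        obtain ⟨hu0, hu1⟩ := St_mem hu
        refine W_eq_zero _ _ fun hcon => ha ?_
        have hh' : (1 : ℤ) ≤ h := by exact_mod_cast hh
        have hb := neg_abs_le cm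
        have hc := le_abs_self cm
        have hd := neg_abs_le cr
        have he := le_abs_self cr
        have hf := abs_nonneg cm
        have hg := abs_nonneg cr
        have hm0 := Int.natCast_nonneg m
        have hr0 := Int.natCast_nonneg r
        obtain ⟨hc1, hc2⟩ := hcon
        push_cast at hc2
        unfold DD
        rw [Finset.mem_Icc]
        constructor
        · by_contra hlt
          push Not at hlt
          have h5 : (a - 1 + 1) * (h : ℤ) ≤ -((m : ℤ) + r + h + |cm| + |cr| + 1) * 1 := by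
            have h6 : a - 1 + 1 ≤ -((m : ℤ) + r + h + |cm| + |cr| + 1) := by linarith
            have h7 : (a - 1 + 1) * (h : ℤ) ≤ (a - 1 + 1) * 1 :=
              mul_le_mul_of_nonpos_left hh' (by linarith)
            linarith
          linarith
        · by_contra hlt
          push Not at hlt
          have h7 : (a - 1) * 1 ≤ (a - 1) * (h : ℤ) := mul_le_mul_of_nonneg_left hh' (by linarith)
          have h8 : (a - 1 + 1) * (h : ℤ) = (a - 1) * h + h := by ring
          linarith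
      rw [h2, Real.zero_rpow h0.ne']
      exact Finset.sum_nonneg fun q _ => hterm q
  | succ j =>
    have h2 : MM μ s m r h cm cr (j + 2) b a η ^ θ ≤ (∑ δ ∈ DD m r h cm cr,
      (2 * Real.exp ρ * PP μ s m r h cm cr b δ η *
          MM μ s m r h cm cr (j + 1) true (a - δ) (sh ((m : ℤ), cm + δ * h) η) +
        io (¬ Good μ s r h cr ρ (sh ((m : ℤ), cm + δ * h) η)) * RR μ s m h cm b δ η *
          MM μ s m r h cm cr (j + 1) false (a - δ) (sh ((m : ℤ), cm + δ * h) η))) ^ θ :=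
      Real.rpow_le_rpow (MM_nonneg _ _ _ _ _ _ _ _ _) (MM_rec hh j b a η) h0.le
    have hA : ∀ δ : ℤ, 0 ≤ 2 * Real.exp ρ * PP μ s m r h cm cr b δ η *
          MM μ s m r h cm cr (j + 1) true (a - δ) (sh ((m : ℤ), cm + δ * h) η) := fun δ =>
      mul_nonneg (mul_nonneg (mul_nonneg zero_le_two (Real.exp_pos _).le) (PP_nonneg _ _ _ _ _ _ _ _))
        (MM_nonneg _ _ _ _ _ _ _ _ _)
    have hB : ∀ δ : ℤ, 0 ≤ io (¬ Good μ s r h cr ρ (sh ((m : ℤ), cm + δ * h) η)) * RR μ s m h cm b δ η *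
          MM μ s m r h cm cr (j + 1) false (a - δ) (sh ((m : ℤ), cm + δ * h) η) := fun δ =>
      mul_nonneg (mul_nonneg (io_nonneg _) (RR_nonneg _ _ _ _ _ _)) (MM_nonneg _ _ _ _ _ _ _ _ _)
    show MM μ s m r h cm cr (j + 2) b a η ^ θ ≤ _
    refine (h2.trans (rpow_sum_le _ (fun δ _ => add_nonneg (hA δ) (hB δ)) h0 h1)).trans ?_
    rw [Finset.sum_product, Fintype.sum_bool, ← Finset.sum_add_distrib]
    refine Finset.sum_le_sum fun δ _ => (Real.rpow_add_le_add_rpow (hA δ) (hB δ) h0.le h1).trans ?_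
    refine add_le_add (le_of_eq ?_) (le_of_eq ?_)
    · show _ = ff μ s m r h cm cr ρ θ b true δ η *
        MM μ s m r h cm cr (j + 1) true (a - δ) (sh ((m : ℤ), cm + δ * h) η) ^ θ
      unfold ff
      rw [if_pos rfl, Real.mul_rpow (mul_nonneg (mul_nonneg zero_le_two (Real.exp_pos _).le)
        (PP_nonneg _ _ _ _ _ _ _ _)) (MM_nonneg _ _ _ _ _ _ _ _ _),
        Real.mul_rpow (mul_nonneg zero_le_two (Real.exp_pos _).le) (PP_nonneg _ _ _ _ _ _ _ _)]
    · show _ = ff μ s m r h cm cr ρ θ b false δ η *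
        MM μ s m r h cm cr (j + 1) false (a - δ) (sh ((m : ℤ), cm + δ * h) η) ^ θ
      unfold ff
      rw [if_neg (by simp), Real.mul_rpow (mul_nonneg (io_nonneg _) (RR_nonneg _ _ _ _ _ _))
        (MM_nonneg _ _ _ _ _ _ _ _ _), Real.mul_rpow (io_nonneg _) (RR_nonneg _ _ _ _ _ _)]
      congr 2
      by_cases hg : ¬ Good μ s r h cr ρ (sh ((m : ℤ), cm + δ * h) η)
      · rw [io_of hg, Real.one_rpow]
      · rw [io_not hg, Real.zero_rpow h0.ne']

/-! ### Measurability and dependence -/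

theorem Good_meas (r h : ℕ) (cr : ℤ) (ρ : ℝ) : MeasurableSet {η | ¬ Good μ s r h cr ρ η} := by
  have h1 : MeasurableSet {η : Env | Good μ s r h cr ρ η} := by
    have h2 : {η : Env | Good μ s r h cr ρ η} = {η | Real.exp (-ρ) ≤ W μ s η (0, 0) r (cr + h)} ∩
        {η | Real.exp (-ρ) ≤ W μ s η (0, (h : ℤ)) r cr} := by
      ext η
      exact Iff.rfl
    rw [h2]
    exact (measurableSet_le measurable_const (measurable_W _ _ _)).inter
      (measurableSet_le measurable_const (measurable_W _ _ _))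
  exact h1.compl

theorem PP_meas (m r h : ℕ) (cm cr : ℤ) (b : Bool) (δ : ℤ) : Measurable (PP μ s m r h cm cr b δ) :=
  mx_meas fun _ _ => measurable_W _ _ _

theorem RR_meas (m h : ℕ) (cm : ℤ) (b : Bool) (δ : ℤ) : Measurable (RR μ s m h cm b δ) :=
  mx_meas fun _ _ => Finset.measurable_sum _ fun _ _ => measurable_W _ _ _

theorem ff_meas (m r h : ℕ) (cm cr : ℤ) (ρ θ : ℝ) (b b' : Bool) (δ : ℤ) :
    Measurable (ff μ s m r h cm cr ρ θ b b' δ) := by
  cases b' with
  | true =>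
    show Measurable fun η => ff μ s m r h cm cr ρ θ b true δ η
    simp only [ff, if_true]
    exact ((PP_meas m r h cm cr b δ).pow_const θ).const_mul _
  | false =>
    show Measurable fun η => ff μ s m r h cm cr ρ θ b false δ η
    simp only [ff, Bool.false_eq_true, if_false]
    refine Measurable.mul ?_ ((RR_meas m h cm b δ).pow_const θ)
    exact (measurable_io (Good_meas r h cr ρ)).comp
      (mp_sh (μ := Measure.dirac (0 : ℝ)) ((m : ℤ), cm + δ * h)).measurable

theorem Wd (t : ℤ) (u : ℤ) (n : ℕ) (y : ℤ) {a b : ℤ} (ha : a ≤ t) (hb : t + n ≤ b) :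
    DependsOn (fun η : Env => W μ s η (t, u) n y) (rows a b) := by
  intro η η' h
  exact W_dep_rows (t, u) n y fun p hp => h p ⟨lt_of_le_of_lt ha hp.1, hp.2.trans hb⟩

theorem ff_dep (m r h : ℕ) (cm cr : ℤ) (ρ θ : ℝ) (b b' : Bool) (δ : ℤ) :
    DependsOn (ff μ s m r h cm cr ρ θ b b' δ) (rows 0 ((m + r : ℕ) : ℤ)) := by
  intro η η' hh
  cases b' with
  | true =>
    unfold ff
    rw [if_pos rfl, if_pos rfl]
    congr 2
    refine mx_dep (F := fun u η => W μ s η (0, u) (m + r) (cm + cr + (δ + 1) * h - u)) (fun u _ => ?_) hh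
    exact Wd 0 u _ _ le_rfl (by simp)
  | false =>
    unfold ff
    rw [if_neg (by simp), if_neg (by simp)]
    congr 1
    · have h1 : ∀ u y : ℤ, W μ s (sh ((m : ℤ), cm + δ * h) η) (0, u) r y =
          W μ s (sh ((m : ℤ), cm + δ * h) η') (0, u) r y := by
        intro u y
        rw [W_sh, W_sh]
        have h2 : ((0, u) : Pt) + ((m : ℤ), cm + δ * h) = ((m : ℤ), u + (cm + δ * h)) := by
          ext
          · show (0 : ℤ) + m = m
            ring
          · rfl
        rw [h2]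
        refine Wd (m : ℤ) _ r y (Int.natCast_nonneg m) ?_ hh
        push_cast
        exact le_rfl
      have h3 : Good μ s r h cr ρ (sh ((m : ℤ), cm + δ * h) η) ↔ Good μ s r h cr ρ (sh ((m : ℤ), cm + δ * h) η') := by
        unfold Good
        rw [h1, h1]
      by_cases hg : ¬ Good μ s r h cr ρ (sh ((m : ℤ), cm + δ * h) η)
      · rw [io_of hg, io_of (fun hc => hg (h3.2 hc))]
      · rw [io_not hg, io_not (fun hc => hg fun hd => hc (h3.1 hd))]
    · congr 1
      refine mx_dep (F := fun u η => ∑ u' ∈ Finset.Ico 0 (h : ℤ), W μ s η (0, u) m (cm + δ * h + u' - u))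
        (fun u _ => ?_) hh
      intro η η' h2
      refine Finset.sum_congr rfl fun u' _ => ?_
      refine Wd 0 u _ _ le_rfl ?_ h2
      push_cast
      have := Int.natCast_nonneg r
      linarith

/-- THE MOMENT OF A LONG WEIGHT: if the factors of one slab are small in `L²` (weighted by `H`), the fractional
moment of the point to point weight after `i` slabs is at most `H true / 2 ^ i`. -/
theorem chain_moment [IsProbabilityMeasure μ] {m r h : ℕ} {cm cr : ℤ} {ρ θ : ℝ} (hh : 1 ≤ h) (hr : r ≤ m) (hρ : 0 ≤ ρ)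
    (h0 : 0 < θ) (h1 : θ ≤ 1) {T : Bool → Bool → ℤ → ℝ} {H : Bool → ℝ} (hT : ∀ b b' δ, 0 < T b b' δ)
    (hH : ∀ b, 0 ≤ H b) (hH1 : 1 ≤ H true)
    (hfi : ∀ b b' δ, Integrable (fun η => ff μ s m r h cm cr ρ θ b b' δ η ^ 2) (law μ))
    (hf2 : ∀ b b' δ, ∫ η, ff μ s m r h cm cr ρ θ b b' δ η ^ 2 ∂(law μ) ≤ T b b' δ ^ 2)
    (hTH : ∀ b, ∑ q ∈ (Finset.univ : Finset Bool) ×ˢ DD m r h cm cr, T b q.1 q.2 * H q.1 ≤ H b / 2) {i : ℕ} (hi : 1 ≤ i) :
    ∫ η, W μ s η 0 (i * m + r) (i * cm + cr) ^ θ ∂(law μ) ≤ H true / 2 ^ i := by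
  obtain ⟨j, rfl⟩ : ∃ j, i = j + 1 := ⟨i - 1, by omega⟩
  refine two_step (μ := μ) (f := ff μ s m r h cm cr ρ θ) (T := T) (H := H) (D := DD m r h cm cr)
    (v := fun δ => ((m : ℤ), cm + δ * h)) (m := m) (m' := m + r) (by omega)
    (fun b b' δ => ff_meas m r h cm cr ρ θ b b' δ) (fun b b' δ => ff_dep m r h cm cr ρ θ b b' δ) (fun _ => rfl)
    hT hH hfi hf2 hTH (y := yy μ s m r h cm cr θ) (fun i b a η => yy_nonneg _ _ _ _ _ _ _ _ _ _)
    (fun b a η => by
      show (if b = true ∧ a = 1 then (1 : ℝ) else 0) ≤ H b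
      split_ifs with hb
      · rw [hb.1]; exact hH1
      · exact hH b)
    (fun i b a η => yy_rec hh hρ h0 h1 i b a η) (j + 1) true 0
    (g := fun η => W μ s η 0 ((j + 1) * m + r) (((j + 1 : ℕ) : ℤ) * cm + cr) ^ θ)
    (fun η => Real.rpow_nonneg (W_nonneg _ _ _ _) _) (fun η => ?_)
  show _ ≤ MM μ s m r h cm cr (j + 1) true 0 η ^ θ
  refine Real.rpow_le_rpow (W_nonneg _ _ _ _) ?_ h0.le
  have h2 := le_mx (S := St h true) (F := fun u => W μ s η (0, u) ((j + 1) * m + r)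
      (((j + 1 : ℕ) : ℤ) * cm + cr + 0 * h - u)) (u := 0) (by simp [St])
  refine le_trans (le_of_eq ?_) h2
  show W μ s η (0, 0) _ _ = W μ s η (0, 0) _ _
  congr 1
  ring

end Pool.Agent.W_7d29a1_h66
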