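import Pool.Agent.W_7d29a1_h66.D7c

/-!
Track G (MP_7d29a1_pr), section A (row 618): THEOREM D7: a scale at which nothing fluctuates does not grow. (helper66)
-/

namespace Pool.Agent.W_7d29a1_h66

open MeasureTheory ProbabilityTheory Pool.Agent.W_7d29a1_F Pool.Agent.W_7d29a1_h4g

theorem geo_nat {κ : ℝ} (hκ : 0 < κ) (S : Finset ℕ) : ∑ n ∈ S, Real.exp (-(κ * n)) ≤ 1 + 1 / κ := by
  obtain ⟨q, hq⟩ : ∃ q : ℝ, q = Real.exp (-κ) := ⟨_, rfl⟩
  have hq0 : 0 < q := by rw [hq]; exact Real.exp_pos _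
  have hq1 : q < 1 := by rw [hq]; exact Real.exp_lt_one_iff.2 (by linarith)
  have h1 : ∀ n : ℕ, Real.exp (-(κ * n)) = q ^ n := fun n => by
    rw [hq, ← Real.exp_nat_mul]
    congr 1
    ring
  simp only [h1]
  have h2 : ∑ n ∈ S, q ^ n ≤ (1 - q)⁻¹ := by
    rw [← tsum_geometric_of_lt_one hq0.le hq1]
    exact (summable_geometric_of_lt_one hq0.le hq1).sum_le_tsum S fun n _ => pow_nonneg hq0.le n
  refine h2.trans ?_
  have h3 : (1 + κ) * q ≤ 1 := by
    have h4 : 1 + κ ≤ Real.exp κ := by linarith [Real.add_one_le_exp κ]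
    have h5 : Real.exp κ * q = 1 := by rw [hq, ← Real.exp_add]; simp
    nlinarith
  have h6 : 0 < 1 - q := by linarith
  rw [inv_le_comm₀ h6 (by positivity)]
  have h7 : (1 + 1 / κ)⁻¹ = κ / (1 + κ) := by
    field_simp
    ring
  rw [h7, div_le_iff₀ (by linarith)]
  nlinarith

theorem geo_int {κ : ℝ} (hκ : 0 < κ) (D : Finset ℤ) : ∑ δ ∈ D, Real.exp (-(κ * |(δ : ℝ)|)) ≤ 2 + 2 / κ := by
  classical
  have h1 : ∑ δ ∈ D, Real.exp (-(κ * |(δ : ℝ)|)) = ∑ δ ∈ D.filter (fun δ => 0 ≤ δ), Real.exp (-(κ * |(δ : ℝ)|)) +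
      ∑ δ ∈ D.filter (fun δ => ¬ 0 ≤ δ), Real.exp (-(κ * |(δ : ℝ)|)) :=
    (Finset.sum_filter_add_sum_filter_not _ _ _).symm
  have hcast : ∀ δ : ℤ, |(δ : ℝ)| = (δ.natAbs : ℝ) := fun δ => by
    rw [Nat.cast_natAbs, Int.cast_abs]
  have h2 : ∑ δ ∈ D.filter (fun δ => 0 ≤ δ), Real.exp (-(κ * |(δ : ℝ)|)) ≤ 1 + 1 / κ := by
    have e1 : ∑ δ ∈ D.filter (fun δ => 0 ≤ δ), Real.exp (-(κ * |(δ : ℝ)|)) =
        ∑ n ∈ (D.filter (fun δ => 0 ≤ δ)).image Int.natAbs, Real.exp (-(κ * (n : ℝ))) := by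
      rw [Finset.sum_image]
      · exact Finset.sum_congr rfl fun δ _ => by rw [hcast]
      · intro x hx y hy hxy
        have hx0 : 0 ≤ x := (Finset.mem_filter.1 hx).2
        have hy0 : 0 ≤ y := (Finset.mem_filter.1 hy).2
        omega
    rw [e1]
    exact geo_nat hκ _
  have h3 : ∑ δ ∈ D.filter (fun δ => ¬ 0 ≤ δ), Real.exp (-(κ * |(δ : ℝ)|)) ≤ 1 + 1 / κ := by
    have e1 : ∑ δ ∈ D.filter (fun δ => ¬ 0 ≤ δ), Real.exp (-(κ * |(δ : ℝ)|)) =
        ∑ n ∈ (D.filter (fun δ => ¬ 0 ≤ δ)).image Int.natAbs, Real.exp (-(κ * (n : ℝ))) := by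
      rw [Finset.sum_image]
      · exact Finset.sum_congr rfl fun δ _ => by rw [hcast]
      · intro x hx y hy hxy
        have hx0 : ¬ 0 ≤ x := (Finset.mem_filter.1 hx).2
        have hy0 : ¬ 0 ≤ y := (Finset.mem_filter.1 hy).2
        omega
    rw [e1]
    exact geo_nat hκ _
  rw [h1]
  have h4 : (2 : ℝ) + 2 / κ = (1 + 1 / κ) + (1 + 1 / κ) := by ring
  rw [h4]
  exact add_le_add h2 h3

/-- THEOREM D7 (row 618): growth `s₀ E` at a scale at which nothing fluctuates makes the straight cost linear for ever. -/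
theorem d7 {s₀ C₁ : ℝ} (hs : 0 < s₀) (hs1 : s₀ ≤ 1) (hC : 0 ≤ C₁) {Q : ℕ} (hQ : 2 ≤ Q) :
    ∃ A₀ : ℝ, 1 ≤ A₀ ∧ ∀ A : ℝ, A₀ ≤ A → ∃ ε E₀ : ℝ, 0 < ε ∧ ε ≤ 1 / 7 ∧
      ∀ (μ : Measure ℝ) [IsProbabilityMeasure μ] (m r h : ℕ) (E : ℝ), E₀ ≤ E →
      Scale μ m r h Q E s₀ ε A C₁ → ∀ i : ℕ, 1 ≤ i →
        (i : ℝ) * (Real.log 2 * E / A) ≤ e μ 0 (i * m + r) ((i : ℤ) * (m / 2 : ℕ) + (r / 2 : ℕ)) := by
  obtain ⟨lam, hlam⟩ : ∃ lam : ℝ, lam = s₀ / (4 * (C₁ + 2)) := ⟨_, rfl⟩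
  have hlam0 : 0 < lam := by rw [hlam]; positivity
  have hQr : (0 : ℝ) < Q := by exact_mod_cast (by omega : 0 < Q)
  obtain ⟨S1, hS1⟩ : ∃ S1 : ℝ, S1 = 2 + 2 / (lam / Q) := ⟨_, rfl⟩
  have hS1p : 0 < S1 := by rw [hS1]; positivity
  obtain ⟨S2, hS2⟩ : ∃ S2 : ℝ, S2 = 2 + 2 / (1 / (Q : ℝ)) := ⟨_, rfl⟩
  have hS2p : 2 ≤ S2 := by
    rw [hS2]
    have : 0 < 2 / (1 / (Q : ℝ)) := by positivity
    linarith
  refine ⟨max 1 (4 / s₀ * Real.log (16 * Real.exp 2 * S1)), le_max_left _ _, fun A hA => ?_⟩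
  have hA1 : 1 ≤ A := (le_max_left _ _).trans hA
  have hA0 : 0 < A := by linarith
  have hAS : Real.log (16 * Real.exp 2 * S1) ≤ A * s₀ / 4 := by
    have h1 : 4 / s₀ * Real.log (16 * Real.exp 2 * S1) ≤ A := (le_max_right _ _).trans hA
    have h2 : s₀ / 4 * (4 / s₀ * Real.log (16 * Real.exp 2 * S1)) ≤ s₀ / 4 * A :=
      mul_le_mul_of_nonneg_left h1 (by positivity)
    have h3 : s₀ / 4 * (4 / s₀ * Real.log (16 * Real.exp 2 * S1)) = Real.log (16 * Real.exp 2 * S1) := by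
      field_simp
    linarith
  obtain ⟨L, hL⟩ : ∃ L : ℝ, L = 2 * Real.exp ((C₁ + 1) * A + 2) * S2 := ⟨_, rfl⟩
  have hL1 : Real.exp ((C₁ + 1) * A) ≤ L := by
    have h1 : Real.exp ((C₁ + 1) * A) ≤ Real.exp ((C₁ + 1) * A + 2) := Real.exp_le_exp.2 (by linarith)
    have h2 := Real.exp_pos ((C₁ + 1) * A + 2)
    have h3 := mul_le_mul_of_nonneg_left hS2p (by linarith : 0 ≤ 2 * Real.exp ((C₁ + 1) * A + 2))
    rw [hL]
    clear * - h1 h2 h3
    linarith
  have hLone : 1 ≤ L := (Real.one_le_exp (by positivity)).trans hL1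
  obtain ⟨x, hx⟩ : ∃ x : ℝ, x = Real.exp (-A) * s₀ / (48 * L ^ 2) := ⟨_, rfl⟩
  have hx0 : 0 < x := by rw [hx]; positivity
  have hxL : x * (48 * L ^ 2) = Real.exp (-A) * s₀ := by rw [hx]; field_simp
  have hexpA : Real.exp (-A) ≤ 1 := Real.exp_le_one_iff.2 (by linarith)
  have hexpAp := Real.exp_pos (-A)
  have hL2 : 1 ≤ L ^ 2 := one_le_pow₀ hLone
  have hx1 : x * (48 * L ^ 2) ≤ s₀ := by
    rw [hxL]
    exact mul_le_of_le_one_left hs.le hexpA
  have hx48 : 48 * x ≤ s₀ := by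
    have h1 := mul_le_mul_of_nonneg_left hL2 (by linarith : 0 ≤ 48 * x)
    clear * - h1 hx1
    linarith
  have hxle : x ≤ 1 / 48 := by linarith
  have hx4x : x ^ 4 ≤ x := by
    have : x ^ 4 = x ^ 3 * x := by ring
    have h2 : x ^ 3 ≤ 1 := pow_le_one₀ hx0.le (by linarith)
    rw [this]
    exact mul_le_of_le_one_left hx0.le h2
  obtain ⟨ε, hε⟩ : ∃ ε : ℝ, ε = x ^ 4 / 2 := ⟨_, rfl⟩
  have hε0 : 0 < ε := by rw [hε]; positivity
  have hεx : ε ≤ x / 2 := by rw [hε]; linarith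
  refine ⟨ε, max A (2 * Real.log 2 / ε), hε0, by linarith, fun μ _ m r h E hE S i hi => ?_⟩
  have hAE : A ≤ E := (le_max_left _ _).trans hE
  have hE0 : 0 < E := by linarith
  have hεE : 2 * Real.log 2 ≤ ε * E := by
    have h1 : 2 * Real.log 2 / ε ≤ E := (le_max_right _ _).trans hE
    rw [div_le_iff₀ hε0] at h1
    linarith
  have hε8 : 8 * ε ≤ 3 / 8 * s₀ := by linarith
  obtain ⟨θ, hθ⟩ : ∃ θ : ℝ, θ = A / E := ⟨_, rfl⟩
  have hθ0 : 0 < θ := by rw [hθ]; exact div_pos hA0 hE0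
  have hθ1 : θ ≤ 1 := by rw [hθ, div_le_one hE0]; exact hAE
  have hρ0 : 0 ≤ rho μ r E s₀ ε := by
    unfold rho
    have h1 := e_nonneg S.em 0 (n := r) (y := ((r / 2 : ℕ) : ℤ)) (Int.natCast_nonneg _) (by omega)
    have h2 : 0 ≤ (s₀ / 8 + 4 * ε) * E := by positivity
    linarith
  have hρE : rho μ r E s₀ ε ≤ E := by
    unfold rho
    have h1 := S.grow
    have h2 := S.unit
    have h3 : 0 < s₀ * E := mul_pos hs hE0
    have h4 : 8 * (ε * E) ≤ 3 / 8 * (s₀ * E) := by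
      have h5 := mul_le_mul_of_nonneg_right hε8 hE0.le
      clear * - h5
      linarith
    linarith
  -- the bounds of the factors
  obtain ⟨T, hT⟩ : ∃ T : Bool → Bool → ℤ → ℝ, T = fun (b b' : Bool) (δ : ℤ) =>
    if b' = true then (if b = true then 4 * Real.exp (2 - A * s₀ / 4 - lam * (|(δ : ℝ)| / Q)) else
      2 * Real.exp ((C₁ + 1) * A + 2 - |(δ : ℝ)| / Q)) else x * Real.exp (C₁ * A + 2 - |(δ : ℝ)| / Q) := ⟨_, rfl⟩
  obtain ⟨H, hH⟩ : ∃ H : Bool → ℝ, H = fun b => if b = true then 1 else 4 * L := ⟨_, rfl⟩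
  have hT0 : ∀ b b' δ, 0 < T b b' δ := by
    intro b b' δ
    rw [hT]
    show 0 < if b' = true then (if b = true then 4 * Real.exp (2 - A * s₀ / 4 - lam * (|(δ : ℝ)| / Q)) else
      2 * Real.exp ((C₁ + 1) * A + 2 - |(δ : ℝ)| / Q)) else x * Real.exp (C₁ * A + 2 - |(δ : ℝ)| / Q)
    split_ifs <;> positivity
  have hH0 : ∀ b, 0 ≤ H b := by
    intro b
    rw [hH]
    show 0 ≤ if b = true then (1 : ℝ) else 4 * L
    split_ifs
    · exact zero_le_one
    · linarith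
  have hg1 : ∀ D : Finset ℤ, ∑ δ ∈ D, Real.exp (-(lam * (|(δ : ℝ)| / Q))) ≤ S1 := by
    intro D
    have h1 := geo_int (κ := lam / Q) (by positivity) D
    rw [hS1]
    refine le_trans (le_of_eq (Finset.sum_congr rfl fun δ _ => ?_)) h1
    congr 2
    ring
  have hg2 : ∀ D : Finset ℤ, ∑ δ ∈ D, Real.exp (-(|(δ : ℝ)| / Q)) ≤ S2 := by
    intro D
    have h1 := geo_int (κ := 1 / (Q : ℝ)) (by positivity) D
    rw [hS2]
    refine le_trans (le_of_eq (Finset.sum_congr rfl fun δ _ => ?_)) h1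
    congr 2
    ring
  have hTH : ∀ b, ∑ q ∈ (Finset.univ : Finset Bool) ×ˢ DD m r h (m / 2 : ℕ) (r / 2 : ℕ), T b q.1 q.2 * H q.1 ≤
      H b / 2 := by
    intro b
    rw [Finset.sum_product, Fintype.sum_bool]
    have hHt : H true = 1 := by rw [hH]; simp
    have hHf : H false = 4 * L := by rw [hH]; simp
    have hsumF : ∑ δ ∈ DD m r h (m / 2 : ℕ) (r / 2 : ℕ), T b false δ * H false ≤ x * L * (4 * L) := by
      rw [← Finset.sum_mul, hHf]
      refine mul_le_mul_of_nonneg_right ?_ (by linarith)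
      have e1 : ∀ δ : ℤ, T b false δ = x * Real.exp (C₁ * A + 2) * Real.exp (-(|(δ : ℝ)| / Q)) := by
        intro δ
        rw [hT]
        show (if false = true then (if b = true then 4 * Real.exp (2 - A * s₀ / 4 - lam * (|(δ : ℝ)| / Q)) else
          2 * Real.exp ((C₁ + 1) * A + 2 - |(δ : ℝ)| / Q)) else x * Real.exp (C₁ * A + 2 - |(δ : ℝ)| / Q)) = _
        rw [if_neg (by simp), mul_assoc, ← Real.exp_add]
        congr 2
      simp only [e1]
      rw [← Finset.mul_sum]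
      have h1 : x * Real.exp (C₁ * A + 2) * ∑ δ ∈ DD m r h (m / 2 : ℕ) (r / 2 : ℕ), Real.exp (-(|(δ : ℝ)| / Q)) ≤
          x * Real.exp (C₁ * A + 2) * S2 := mul_le_mul_of_nonneg_left (hg2 _) (by positivity)
      refine h1.trans ?_
      have h2 : Real.exp (C₁ * A + 2) * S2 ≤ L := by
        rw [hL]
        have h3 : Real.exp (C₁ * A + 2) ≤ Real.exp ((C₁ + 1) * A + 2) := Real.exp_le_exp.2 (by linarith)
        have h4 := Real.exp_pos ((C₁ + 1) * A + 2)
        have h5 := mul_le_mul_of_nonneg_right h3 (by linarith : 0 ≤ S2)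
        have h6 := mul_pos h4 (by linarith : 0 < S2)
        clear * - h5 h6
        linarith
      rw [mul_assoc]
      exact mul_le_mul_of_nonneg_left h2 hx0.le
    have hxL4 : x * L * (4 * L) ≤ 1 / 4 := by
      clear * - hx1 hs1
      linarith
    cases b with
    | true =>
      have hsumT : ∑ δ ∈ DD m r h (m / 2 : ℕ) (r / 2 : ℕ), T true true δ * H true ≤ 1 / 4 := by
        rw [hHt]
        simp only [mul_one]
        have e1 : ∀ δ : ℤ, T true true δ = 4 * Real.exp (2 - A * s₀ / 4) * Real.exp (-(lam * (|(δ : ℝ)| / Q))) := by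
          intro δ
          rw [hT]
          show (if true = true then (if true = true then 4 * Real.exp (2 - A * s₀ / 4 - lam * (|(δ : ℝ)| / Q)) else
            2 * Real.exp ((C₁ + 1) * A + 2 - |(δ : ℝ)| / Q)) else x * Real.exp (C₁ * A + 2 - |(δ : ℝ)| / Q)) = _
          rw [if_pos rfl, if_pos rfl, mul_assoc, ← Real.exp_add]
          congr 2
        simp only [e1]
        rw [← Finset.mul_sum]
        have h1 : 4 * Real.exp (2 - A * s₀ / 4) *
            ∑ δ ∈ DD m r h (m / 2 : ℕ) (r / 2 : ℕ), Real.exp (-(lam * (|(δ : ℝ)| / Q))) ≤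
            4 * Real.exp (2 - A * s₀ / 4) * S1 := mul_le_mul_of_nonneg_left (hg1 _) (by positivity)
        refine h1.trans ?_
        have h2 : 16 * Real.exp 2 * S1 ≤ Real.exp (A * s₀ / 4) := by
          rw [← Real.log_le_iff_le_exp (by positivity)]
          exact hAS
        have h3 : Real.exp (2 - A * s₀ / 4) = Real.exp 2 * Real.exp (-(A * s₀ / 4)) := by
          rw [← Real.exp_add]
          congr 1
        have h4 : Real.exp (A * s₀ / 4) * Real.exp (-(A * s₀ / 4)) = 1 := by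
          rw [← Real.exp_add]
          simp
        have h5 := Real.exp_pos (-(A * s₀ / 4))
        have h6 : 16 * Real.exp 2 * S1 * Real.exp (-(A * s₀ / 4)) ≤ 1 := by
          rw [← h4]
          exact mul_le_mul_of_nonneg_right h2 h5.le
        rw [h3]
        linarith
      rw [hHt]
      linarith
    | false =>
      have hsumT : ∑ δ ∈ DD m r h (m / 2 : ℕ) (r / 2 : ℕ), T false true δ * H true ≤ L := by
        rw [hHt]
        simp only [mul_one]
        have e1 : ∀ δ : ℤ, T false true δ = 2 * Real.exp ((C₁ + 1) * A + 2) * Real.exp (-(|(δ : ℝ)| / Q)) := by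
          intro δ
          rw [hT]
          show (if true = true then (if false = true then 4 * Real.exp (2 - A * s₀ / 4 - lam * (|(δ : ℝ)| / Q)) else
            2 * Real.exp ((C₁ + 1) * A + 2 - |(δ : ℝ)| / Q)) else x * Real.exp (C₁ * A + 2 - |(δ : ℝ)| / Q)) = _
          rw [if_pos rfl, if_neg (by simp), mul_assoc, ← Real.exp_add]
          congr 2
        simp only [e1]
        rw [← Finset.mul_sum, hL]
        exact mul_le_mul_of_nonneg_left (hg2 _) (by positivity)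
      rw [hHf]
      linarith
  have hf2 : ∀ b b' δ, ∫ η, ff μ 0 m r h (m / 2 : ℕ) (r / 2 : ℕ) (rho μ r E s₀ ε) θ b b' δ η ^ 2 ∂(law μ) ≤
      T b b' δ ^ 2 := by
    intro b b' δ
    rw [hT, hθ]
    cases b' with
    | false =>
      show _ ≤ (x * Real.exp (C₁ * A + 2 - |(δ : ℝ)| / Q)) ^ 2
      exact bound_bad S hQ hE0 hA0 hε0 hs hs1 hx0 (by rw [hε]; linarith) b δ
    | true =>
      cases b with
      | false => exact bound_bg S hQ hE0 hA0 hAE false hρE δ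
      | true =>
        have hxA : x ^ 2 * Real.exp (2 * ((C₁ + 1) * A)) ≤ Real.exp (-(A * s₀)) := by
          have h1 : Real.exp (2 * ((C₁ + 1) * A)) ≤ L ^ 2 := by
            rw [← exp_sq]
            exact pow_le_pow_left₀ (Real.exp_pos _).le hL1 2
          have h2 : x ^ 2 * Real.exp (2 * ((C₁ + 1) * A)) ≤ x ^ 2 * L ^ 2 := mul_le_mul_of_nonneg_left h1 (sq_nonneg _)
          have h30 := mul_le_of_le_one_right hexpAp.le hs1
          have h3 : x * L ^ 2 ≤ Real.exp (-A) := by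
            clear * - hxL h30 hexpAp
            linarith
          have h40 : x * (x * L ^ 2) ≤ 1 * (x * L ^ 2) := mul_le_mul_of_nonneg_right (by linarith) (by positivity)
          have h4 : x ^ 2 * L ^ 2 ≤ Real.exp (-A) := by
            clear * - h3 h40
            linarith
          refine (h2.trans h4).trans (Real.exp_le_exp.2 ?_)
          have h50 := mul_le_of_le_one_right hA0.le hs1
          clear * - h50
          linarith
        have h1 := bound_gg S hQ hE0 hA0 hAE hε0 hε8 hs hs1 hC hεE hx0 (by rw [hε]; linarith [pow_pos hx0 4]) hxA δ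
        rw [← hlam] at h1
        exact h1
  have hfi : ∀ b b' δ, Integrable (fun η => ff μ 0 m r h (m / 2 : ℕ) (r / 2 : ℕ) (rho μ r E s₀ ε) θ b b' δ η ^ 2)
      (law μ) := by
    intro b b' δ
    have hmeas := (ff_meas (μ := μ) (s := 0) m r h (m / 2 : ℕ) (r / 2 : ℕ) (rho μ r E s₀ ε) θ b b' δ).pow_const 2
    cases b' with
    | true =>
      refine ((GG_int (μ := μ) (s := 0) S.em (m + r) (Q * h) ((δ + 1) / Q) (p := 2 * θ) (by linarith)).const_mul
        (((2 * Real.exp (rho μ r E s₀ ε)) ^ θ) ^ 2)).mono' hmeas.aestronglyMeasurable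
        (Filter.Eventually.of_forall fun η => ?_)
      rw [Real.norm_eq_abs, abs_of_nonneg (sq_nonneg _)]
      unfold ff
      rw [if_pos rfl, mul_pow, sq_rpow (PP_nonneg _ _ _ _ _ _ _ _)]
      exact mul_le_mul_of_nonneg_left (Real.rpow_le_rpow (PP_nonneg _ _ _ _ _ _ _ _)
        (PP_le_GG S.one_h hQ S.even b δ η) (by linarith)) (sq_nonneg _)
    | false =>
      refine (GG_int (μ := μ) (s := 0) S.em m (Q * h) (δ / Q) (p := 2 * θ) (by linarith)).mono'
        hmeas.aestronglyMeasurable (Filter.Eventually.of_forall fun η => ?_)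
      rw [Real.norm_eq_abs, abs_of_nonneg (sq_nonneg _)]
      unfold ff
      rw [if_neg (by simp), mul_pow, sq_rpow (RR_nonneg _ _ _ _ _ _)]
      refine le_trans (mul_le_of_le_one_left (Real.rpow_nonneg (RR_nonneg _ _ _ _ _ _) _)
        (pow_le_one₀ (io_nonneg _) (io_le_one _))) ?_
      exact Real.rpow_le_rpow (RR_nonneg _ _ _ _ _ _) (RR_le_GG S.one_h hQ b δ η) (by linarith)
  have hmom := chain_moment (μ := μ) (s := 0) S.one_h S.rm hρ0 hθ0 hθ1 hT0 hH0 (by rw [hH]; simp) hfi hf2 hTH hi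
  have hHt : H true = 1 := by rw [hH]; simp
  rw [hHt] at hmom
  have hpos0 : (0 : ℤ) ≤ (i : ℤ) * (m / 2 : ℕ) + (r / 2 : ℕ) := by positivity
  have hpos1 : (i : ℤ) * (m / 2 : ℕ) + (r / 2 : ℕ) ≤ ((i * m + r : ℕ) : ℤ) := by
    have h1 : ((m / 2 : ℕ) : ℤ) ≤ m := by omega
    have h2 : ((r / 2 : ℕ) : ℤ) ≤ r := by omega
    push_cast
    have h3 : (i : ℤ) * (m / 2 : ℕ) ≤ i * m := mul_le_mul_of_nonneg_left h1 (Int.natCast_nonneg i)
    push_cast at h3 h2
    linarith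
  have hJ := exp_neg_e_le (μ := μ) (s := 0) S.em 0 hpos0 hpos1 θ
  have h1 := hJ.trans hmom
  have h2 : Real.exp (-(θ * e μ 0 (i * m + r) ((i : ℤ) * (m / 2 : ℕ) + (r / 2 : ℕ)))) ≤
      Real.exp (-((i : ℝ) * Real.log 2)) := by
    refine h1.trans (le_of_eq ?_)
    rw [Real.exp_neg, ← Real.log_pow, Real.exp_log (by positivity), one_div]
  have h3 := Real.exp_le_exp.1 h2
  have h4 : (i : ℝ) * Real.log 2 ≤ θ * e μ 0 (i * m + r) ((i : ℤ) * (m / 2 : ℕ) + (r / 2 : ℕ)) := by linarith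
  have h5 : (i : ℝ) * (Real.log 2 * E / A) = ((i : ℝ) * Real.log 2) / θ := by
    rw [hθ]
    field_simp
  rw [h5, div_le_iff₀ hθ0]
  linarith

end Pool.Agent.W_7d29a1_h66
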