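import Pool.Agent.W_7d29a1_h4g.LawLA

/-!
Track G (MP_7d29a1_pr), section A (row 618), Lemma 1: at a scale at which nothing fluctuates no end point is cheaper than
the straight one. (helper66)
-/

namespace Pool.Agent.W_7d29a1_h66

open MeasureTheory ProbabilityTheory Pool.Agent.W_7d29a1_F Pool.Agent.W_7d29a1_h4g

variable {μ : Measure ℝ} {s : ℝ}

/-- NOTHING FLUCTUATES at the duration `t`, at the unit `E` and the level `ε`: every sum of path weights `G` from the origin
of duration `t` with `E log G ≥ - 2 E` is concentrated at its mean. -/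
def NS (μ : Measure ℝ) (s : ℝ) (t : ℕ) (E ε : ℝ) : Prop :=
  ∀ G : Env → ℝ, Poly (rows 0 t) G → (∀ η, 0 < G η) → (∀ η, Real.log (G η) ≤ V μ s η 0 t) →
    -(2 * E) ≤ ∫ η, Real.log (G η) ∂(law μ) →
    (law μ).real {η | ε * E ≤ |Real.log (G η) - ∫ ξ, Real.log (G ξ) ∂(law μ)|} < ε

theorem X_mirror (η : Env) (n : ℕ) (y : ℤ) :
    X μ 0 (fun p => η (p.1, p.1 - p.2)) 0 n (n - y) = X μ 0 η 0 n y := by
  have h := Zr_mirror η n y 0 0
  unfold X W WR
  rw [sub_self] at h
  have h' : Zr Set.univ (fun p => η (p.1, p.1 - p.2)) 0 n (n - y) = Zr Set.univ η 0 n y := h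
  rw [h']
  simp

theorem real_mirror [IsProbabilityMeasure μ] (n : ℕ) (y : ℤ) (c : ℝ) :
    (law μ).real {η | X μ 0 η 0 n (n - y) ≤ c} = (law μ).real {η | X μ 0 η 0 n y ≤ c} := by
  have hm : MeasurableSet {η : Env | X μ 0 η 0 n (n - y) ≤ c} :=
    measurableSet_le (measurable_X 0 n _) measurable_const
  have h := (mp_mirror (μ := μ)).measureReal_preimage hm.nullMeasurableSet
  rw [← h]
  congr 1
  ext η
  show X μ 0 (fun p => η (p.1, p.1 - p.2)) 0 n (n - y) ≤ c ↔ X μ 0 η 0 n y ≤ c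
  rw [X_mirror]

theorem real_shift [IsProbabilityMeasure μ] (a : Pt) (n : ℕ) (y : ℤ) (c : ℝ) :
    (law μ).real {η | X μ s η a n y ≤ c} = (law μ).real {η | X μ s η 0 n y ≤ c} := by
  have hm : MeasurableSet {η : Env | X μ s η 0 n y ≤ c} :=
    measurableSet_le (measurable_X 0 n _) measurable_const
  have h := real_sh (μ := μ) a hm
  rw [← h]
  congr 1
  ext η
  show X μ s η a n y ≤ c ↔ X μ s (sh a η) 0 n y ≤ c
  rw [X_sh, zero_add]

theorem exists_of_real {P : Measure Env} [IsProbabilityMeasure P] {A B : Set Env} (h : P.real B < P.real A) :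
    ∃ η, η ∈ A ∧ η ∉ B := by
  by_contra hcon
  push Not at hcon
  exact absurd (measureReal_mono (fun η hη => hcon η hη) (measure_ne_top P B)) (not_le.2 h)

variable [IsProbabilityMeasure μ]

omit [IsProbabilityMeasure μ] in
/-- The straight cost is concentrated. -/
theorem straight {t : ℕ} {E ε : ℝ} (hN : NS μ s t E ε) {y : ℤ}
    (h0 : 0 ≤ y) (h1 : y ≤ t) (he : e μ s t y ≤ 2 * E) :
    (law μ).real {η | ε * E ≤ |X μ s η 0 t y - e μ s t y|} < ε := by
  have hlog : ∀ η : Env, Real.log (W μ s η 0 t y) = -X μ s η 0 t y := fun η => by unfold X; ring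
  have hint : ∫ η, Real.log (W μ s η 0 t y) ∂(law μ) = -e μ s t y := by
    simp only [hlog]
    rw [integral_neg]
    rfl
  have hP : Poly (rows 0 t) fun η => W μ s η 0 t y := by
    refine (poly_W (μ := μ) (s := s) 0 t y).mono ?_
    intro p hp
    exact ⟨hp.1, by simpa using hp.2.1⟩
  have h := hN _ hP (fun η => W_pos η 0 h0 h1) (fun η => by rw [hlog]; exact neg_X_le_V η 0 h0 h1)
    (by rw [hint]; linarith)
  rw [hint] at h
  refine lt_of_le_of_lt (le_of_eq ?_) h
  congr 1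
  ext η
  show ε * E ≤ |X μ s η 0 t y - e μ s t y| ↔ ε * E ≤ |Real.log (W μ s η 0 t y) - -e μ s t y|
  rw [hlog, ← abs_neg (X μ s η 0 t y - e μ s t y)]
  have : -(X μ s η 0 t y - e μ s t y) = -X μ s η 0 t y - -e μ s t y := by ring
  rw [this]

/-- The lift: an end point `D` which is sometimes cheaper than the straight one is almost always cheaper. -/
theorem lift (hEM : Pool.Agent.W_7d29a1_h47.EM μ) {t : ℕ} {E ε : ℝ} (hE : 0 ≤ E)
    (hεE : 2 * Real.log 2 ≤ ε * E) (hε1 : ε ≤ 1) (hN : NS μ s t E ε) {c D : ℤ} (hc0 : 0 ≤ c) (hc1 : c ≤ t)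
    (hD0 : 0 ≤ D) (hD1 : D ≤ t) (he : e μ s t c ≤ E)
    (hlow : ε ≤ (law μ).real {η | X μ s η 0 t D ≤ e μ s t c - 4 * (ε * E)}) :
    1 - 2 * ε ≤ (law μ).real {η | X μ s η 0 t D ≤ e μ s t c - 3 / 2 * (ε * E)} := by
  have hlog2 : 0 < Real.log 2 := Real.log_pos one_lt_two
  have hεE0 : 0 < ε * E := by linarith
  have hs := straight hN hc0 hc1 (by linarith)
  have hDc : D ≠ c := by
    rintro rfl
    refine absurd (hlow.trans (measureReal_mono (fun η hη => ?_) (measure_ne_top _ _))) (not_le.2 hs)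
    show ε * E ≤ |X μ s η 0 t D - e μ s t D|
    have h1 : X μ s η 0 t D ≤ e μ s t D - 4 * (ε * E) := hη
    have h2 := neg_abs_le (X μ s η 0 t D - e μ s t D)
    linarith
  obtain ⟨G, hG⟩ : ∃ G : Env → ℝ, G = fun η => W μ s η 0 t D + Real.exp (-E) * W μ s η 0 t c := ⟨_, rfl⟩
  have hrow : ∀ y : ℤ, Poly (rows 0 t) fun η => W μ s η 0 t y := by
    intro y
    refine (poly_W (μ := μ) (s := s) 0 t y).mono ?_
    intro p hp
    exact ⟨hp.1, by simpa using hp.2.1⟩
  have hGP : Poly (rows 0 t) G := by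
    rw [hG]
    exact (hrow D).add ((hrow c).smul (Real.exp_pos _).le)
  have hGpos : ∀ η, 0 < G η := fun η => by
    rw [hG]
    exact add_pos (W_pos η 0 hD0 hD1) (mul_pos (Real.exp_pos _) (W_pos η 0 hc0 hc1))
  have hGV : ∀ η, Real.log (G η) ≤ V μ s η 0 t := by
    intro η
    rw [Real.log_le_iff_le_exp (hGpos η)]
    refine le_trans ?_ (WS_le_exp_V η 0 t {D, c})
    unfold WS
    rw [Finset.sum_pair hDc, hG]
    refine add_le_add le_rfl ?_
    have h1 : Real.exp (-E) ≤ 1 := Real.exp_le_one_iff.2 (by linarith)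
    have h2 := (W_pos (μ := μ) (s := s) η 0 hc0 hc1).le
    exact mul_le_of_le_one_left h2 h1
  have hlogc : ∀ η : Env, Real.log (W μ s η 0 t c) = -X μ s η 0 t c := fun η => by unfold X; ring
  have hGlow : ∀ η, -E - X μ s η 0 t c ≤ Real.log (G η) := by
    intro η
    have h1 : Real.exp (-E) * W μ s η 0 t c ≤ G η := by
      rw [hG]
      exact le_add_of_nonneg_left (W_pos η 0 hD0 hD1).le
    have h2 := Real.log_le_log (mul_pos (Real.exp_pos _) (W_pos (μ := μ) (s := s) η 0 hc0 hc1)) h1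
    rw [Real.log_mul (Real.exp_pos _).ne' (W_pos η 0 hc0 hc1).ne', Real.log_exp, hlogc] at h2
    linarith
  have hGi : Integrable (fun η => Real.log (G η)) (law μ) := (hGP.sub_log hGpos).integrable hEM
  have hXi : Integrable (fun η => X μ s η 0 t c) (law μ) := (Sub_X 0 hc0 hc1).integrable hEM
  have hmean : -(2 * E) ≤ ∫ η, Real.log (G η) ∂(law μ) := by
    have h1 : ∫ η, (-E - X μ s η 0 t c) ∂(law μ) ≤ ∫ η, Real.log (G η) ∂(law μ) :=
      integral_mono ((integrable_const _).sub hXi) hGi hGlow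
    rw [integral_sub (integrable_const _) hXi, integral_const] at h1
    have h2 : ∫ η, X μ s η 0 t c ∂(law μ) = e μ s t c := rfl
    rw [h2] at h1
    simp only [probReal_univ, smul_eq_mul, one_mul] at h1
    linarith
  have hN' := hN G hGP hGpos hGV hmean
  obtain ⟨L, hL⟩ : ∃ L : ℝ, L = ∫ η, Real.log (G η) ∂(law μ) := ⟨_, rfl⟩
  rw [← hL] at hN'
  -- the mean of log G
  have hLbig : -e μ s t c + 3 * (ε * E) < L := by
    obtain ⟨η, h1, h2⟩ := exists_of_real (lt_of_lt_of_le hN' hlow)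
    have h3 : X μ s η 0 t D ≤ e μ s t c - 4 * (ε * E) := h1
    have h4 : |Real.log (G η) - L| < ε * E := not_le.1 h2
    have h5 : Real.log (W μ s η 0 t D) ≤ Real.log (G η) := by
      refine Real.log_le_log (W_pos η 0 hD0 hD1) ?_
      rw [hG]
      exact le_add_of_nonneg_right (mul_pos (Real.exp_pos _) (W_pos η 0 hc0 hc1)).le
    have h6 : Real.log (W μ s η 0 t D) = -X μ s η 0 t D := by unfold X; ring
    have h7 := le_abs_self (Real.log (G η) - L)
    linarith
  -- most environments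
  have hsub : {η | X μ s η 0 t D ≤ e μ s t c - 3 / 2 * (ε * E)}ᶜ ⊆
      {η | ε * E ≤ |Real.log (G η) - L|} ∪ {η | ε * E ≤ |X μ s η 0 t c - e μ s t c|} := by
    intro η hη
    by_contra hcon
    rw [Set.mem_union, not_or] at hcon
    have h1 : |Real.log (G η) - L| < ε * E := not_le.1 hcon.1
    have h2 : |X μ s η 0 t c - e μ s t c| < ε * E := not_le.1 hcon.2
    have h3 := neg_abs_le (Real.log (G η) - L)
    have h4 := neg_abs_le (X μ s η 0 t c - e μ s t c)
    refine hη ?_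
    show X μ s η 0 t D ≤ e μ s t c - 3 / 2 * (ε * E)
    have h5 : Real.exp (-e μ s t c + 2 * (ε * E)) ≤ G η := by
      rw [← Real.exp_log (hGpos η)]
      exact Real.exp_le_exp.2 (by linarith)
    have h6 : Real.exp (-E) * W μ s η 0 t c ≤ Real.exp (-e μ s t c) := by
      rw [← Real.exp_log (W_pos (μ := μ) (s := s) η 0 hc0 hc1), ← Real.exp_add, hlogc]
      refine Real.exp_le_exp.2 ?_
      have : ε * E ≤ 1 * E := mul_le_mul_of_nonneg_right hε1 hE
      linarith
    have h7 : Real.exp (-e μ s t c + 3 / 2 * (ε * E)) ≤ W μ s η 0 t D := by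
      have h8 : W μ s η 0 t D = G η - Real.exp (-E) * W μ s η 0 t c := by rw [hG]; ring
      have h9 : Real.exp (-e μ s t c + 2 * (ε * E)) =
          Real.exp (-e μ s t c + 3 / 2 * (ε * E)) * Real.exp (ε * E / 2) := by
        rw [← Real.exp_add]
        congr 1
        ring
      have h10 : 2 ≤ Real.exp (ε * E / 2) := by
        have h11 : Real.exp (Real.log 2) ≤ Real.exp (ε * E / 2) := Real.exp_le_exp.2 (by linarith)
        rwa [Real.exp_log two_pos] at h11
      have h12 : Real.exp (-e μ s t c) ≤ Real.exp (-e μ s t c + 3 / 2 * (ε * E)) :=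
        Real.exp_le_exp.2 (by linarith)
      have h13 := Real.exp_pos (-e μ s t c + 3 / 2 * (ε * E))
      have h14 : Real.exp (-e μ s t c + 3 / 2 * (ε * E)) * 2 ≤
          Real.exp (-e μ s t c + 3 / 2 * (ε * E)) * Real.exp (ε * E / 2) :=
        mul_le_mul_of_nonneg_left h10 h13.le
      rw [h8]
      linarith
    have h8 := Real.log_le_log (Real.exp_pos _) h7
    rw [Real.log_exp] at h8
    have h9 : Real.log (W μ s η 0 t D) = -X μ s η 0 t D := by unfold X; ring
    linarith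
  have hm : MeasurableSet {η | X μ s η 0 t D ≤ e μ s t c - 3 / 2 * (ε * E)} :=
    measurableSet_le (measurable_X 0 t _) measurable_const
  have h1 := probReal_compl_eq_one_sub (μ := law μ) hm
  have h2 := (measureReal_mono hsub (measure_ne_top (law μ) _)).trans (measureReal_union_le _ _)
  rw [h1] at h2
  linarith

/-- LEMMA 1: no end point is cheaper than the straight one by more than `4 ε E`, except with probability `ε`. -/
theorem no_luck (hEM : Pool.Agent.W_7d29a1_h47.EM μ) {t : ℕ} {E ε : ℝ} (hE : 0 ≤ E) (hε : 0 < ε)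
    (hεE : 2 * Real.log 2 ≤ ε * E) (hε1 : ε ≤ 1 / 7) (hN : NS μ 0 t E ε) {D : ℤ}
    (hD0 : 0 ≤ D) (hD1 : D ≤ t) (he : e μ 0 t (t / 2 : ℕ) ≤ E) :
    (law μ).real {η | X μ 0 η 0 t D ≤ e μ 0 t (t / 2 : ℕ) - 4 * (ε * E)} < ε := by
  by_contra hcon
  rw [not_lt] at hcon
  obtain ⟨c, hc⟩ : ∃ c : ℤ, c = ((t / 2 : ℕ) : ℤ) := ⟨_, rfl⟩
  rw [← hc] at hcon he
  have hc0 : 0 ≤ c := by rw [hc]; exact Int.natCast_nonneg _
  have hc1 : 2 * c ≤ t := by rw [hc]; omega
  have hc2 : (t : ℤ) ≤ 2 * c + 1 := by rw [hc]; omega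
  have hlog2 : 0 < Real.log 2 := Real.log_pos one_lt_two
  have hεE0 : 0 < ε * E := by linarith
  have hct : c ≤ t := by linarith
  -- both D and t - D are almost always cheap
  have hq := lift hEM hE hεE (by linarith) hN hc0 hct hD0 hD1 he hcon
  have hq' : 1 - 2 * ε ≤ (law μ).real {η | X μ 0 η 0 t (t - D) ≤ e μ 0 t c - 3 / 2 * (ε * E)} := by
    rw [real_mirror]
    exact hq
  have hs := straight hN hc0 hct (by linarith)
  -- the crossing for `D' ≥ t - D'`
  have key : ∀ D' : ℤ, 0 ≤ D' → D' ≤ t → (t : ℤ) ≤ 2 * D' →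
      1 - 2 * ε ≤ (law μ).real {η | X μ 0 η 0 t D' ≤ e μ 0 t c - 3 / 2 * (ε * E)} →
      1 - 2 * ε ≤ (law μ).real {η | X μ 0 η 0 t (t - D') ≤ e μ 0 t c - 3 / 2 * (ε * E)} → False := by
    intro D' hD0' hD1' hD2' hq1 hq2
    obtain ⟨x', hx'⟩ : ∃ x' : ℤ, x' = D' - (t - c) := ⟨_, rfl⟩
    have hx0 : 0 ≤ x' := by omega
    obtain ⟨a', ha'⟩ : ∃ a' : Pt, a' = (0, x') := ⟨_, rfl⟩
    -- the four events
    have p1 : MeasurableSet {η | X μ 0 η 0 t D' ≤ e μ 0 t c - 3 / 2 * (ε * E)} :=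
      measurableSet_le (measurable_X 0 t _) measurable_const
    have p2 : MeasurableSet {η | X μ 0 η a' t (t - D') ≤ e μ 0 t c - 3 / 2 * (ε * E)} :=
      measurableSet_le (measurable_X a' t _) measurable_const
    have hq2' : 1 - 2 * ε ≤ (law μ).real {η | X μ 0 η a' t (t - D') ≤ e μ 0 t c - 3 / 2 * (ε * E)} := by
      rw [real_shift]
      exact hq2
    have c1 := probReal_compl_eq_one_sub (μ := law μ) p1
    have c2 := probReal_compl_eq_one_sub (μ := law μ) p2
    have c3 : (law μ).real {η | X μ 0 η 0 t c ≤ e μ 0 t c - ε * E} < ε := by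
      refine lt_of_le_of_lt (measureReal_mono (fun η hη => ?_) (measure_ne_top _ _)) hs
      show ε * E ≤ |X μ 0 η 0 t c - e μ 0 t c|
      have h1 : X μ 0 η 0 t c ≤ e μ 0 t c - ε * E := hη
      have h2 := neg_abs_le (X μ 0 η 0 t c - e μ 0 t c)
      linarith
    have c4 : (law μ).real {η | X μ 0 η a' t (t - c) ≤ e μ 0 t c - ε * E} < ε := by
      rw [real_shift, real_mirror]
      exact c3
    have hU : (law μ).real ({η | X μ 0 η 0 t D' ≤ e μ 0 t c - 3 / 2 * (ε * E)}ᶜ ∪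
        {η | X μ 0 η a' t (t - D') ≤ e μ 0 t c - 3 / 2 * (ε * E)}ᶜ ∪
        {η | X μ 0 η 0 t c ≤ e μ 0 t c - ε * E} ∪ {η | X μ 0 η a' t (t - c) ≤ e μ 0 t c - ε * E}) < 1 := by
      refine lt_of_le_of_lt ((measureReal_union_le _ _).trans (add_le_add ((measureReal_union_le _ _).trans
        (add_le_add (measureReal_union_le _ _) le_rfl)) le_rfl)) ?_
      rw [c1, c2]
      linarith
    obtain ⟨η, -, hη⟩ := exists_of_real (P := law μ) (A := Set.univ)
      (lt_of_lt_of_eq hU (probReal_univ (μ := law μ)).symm)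
    rw [Set.mem_union, Set.mem_union, Set.mem_union, not_or, not_or, not_or] at hη
    obtain ⟨⟨⟨h1, h2⟩, h3⟩, h4⟩ := hη
    have k1 : X μ 0 η 0 t D' ≤ e μ 0 t c - 3 / 2 * (ε * E) := not_not.1 h1
    have k2 : X μ 0 η a' t (t - D') ≤ e μ 0 t c - 3 / 2 * (ε * E) := not_not.1 h2
    have k3 : e μ 0 t c - ε * E < X μ 0 η 0 t c := not_le.1 h3
    have k4 : e μ 0 t c - ε * E < X μ 0 η a' t (t - c) := not_le.1 h4
    -- crossing
    have hcr := W_tp2 (μ := μ) (s := 0) η 0 0 x' t c D' hx0 (by omega)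
    rw [sub_zero, sub_zero, show c - x' = t - D' by rw [hx']; ring, show D' - x' = t - c by rw [hx']; ring] at hcr
    have w1 := W_pos (μ := μ) (s := 0) η 0 hD0' hD1'
    have w2 := W_pos (μ := μ) (s := 0) η a' (n := t) (y := t - D') (by omega) (by omega)
    have w3 := W_pos (μ := μ) (s := 0) η 0 hc0 hct
    have w4 := W_pos (μ := μ) (s := 0) η a' (n := t) (y := t - c) (by omega) (by omega)
    rw [← ha'] at hcr
    have h5 : Real.log (W μ 0 η 0 t D' * W μ 0 η a' t (t - D')) ≤ Real.log (W μ 0 η 0 t c * W μ 0 η a' t (t - c)) :=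
      Real.log_le_log (mul_pos w1 w2) hcr
    rw [Real.log_mul w1.ne' w2.ne', Real.log_mul w3.ne' w4.ne'] at h5
    unfold X at k1 k2 k3 k4
    linarith
  rcases le_total (t : ℤ) (2 * D) with h | h
  · exact key D hD0 hD1 h hq hq'
  · refine key (t - D) (by omega) (by omega) (by omega) hq' ?_
    have : (t : ℤ) - (t - D) = D := by ring
    rw [this]
    exact hq

end Pool.Agent.W_7d29a1_h66
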