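import Pool.Agent.W_7d29a1_h66.Rec3
import Pool.Agent.W_7d29a1_h66.Lem1
import Pool.Agent.W_7d29a1_F.DdA

/-!
Track G (MP_7d29a1_pr), section A (row 618): the moments of the factors of one slab. (helper66)
-/

namespace Pool.Agent.W_7d29a1_h66

open MeasureTheory ProbabilityTheory Pool.Agent.W_7d29a1_F Pool.Agent.W_7d29a1_h4g

variable {μ : Measure ℝ} {s : ℝ}

theorem mx_rpow_le {S : Finset ℤ} {F : ℤ → ℝ} (hF : ∀ u ∈ S, 0 ≤ F u) {p : ℝ} (hp : 0 < p) :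
    mx S F ^ p ≤ ∑ u ∈ S, F u ^ p := by
  unfold mx
  split_ifs with hS
  · obtain ⟨u, hu, hu2⟩ := Finset.exists_mem_eq_sup' hS F
    rw [hu2]
    exact Finset.single_le_sum (f := fun u => F u ^ p) (fun v hv => Real.rpow_nonneg (hF v hv) _) hu
  · rw [Real.zero_rpow hp.ne']
    exact Finset.sum_nonneg fun v hv => Real.rpow_nonneg (hF v hv) _

theorem mx_rpow_int [IsProbabilityMeasure μ] {S : Finset ℤ} {F : ℤ → Env → ℝ} (hF : ∀ u ∈ S, ∀ η, 0 ≤ F u η)
    (hm : ∀ u ∈ S, Measurable (F u)) {p : ℝ} (hp : 0 < p)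
    (hi : ∀ u ∈ S, Integrable (fun η => F u η ^ p) (law μ)) :
    Integrable (fun η => (mx S fun u => F u η) ^ p) (law μ) := by
  refine (integrable_finsetSum S hi).mono' ((mx_meas hm).pow_const p).aestronglyMeasurable
    (Filter.Eventually.of_forall fun η => ?_)
  rw [Real.norm_eq_abs, abs_of_nonneg (Real.rpow_nonneg (mx_nonneg fun u hu => hF u hu η) _)]
  exact mx_rpow_le (fun u hu => hF u hu η) hp

/-- The slab from a coarse cell to a coarse cell: the largest total weight of the ends. -/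
noncomputable def GG (μ : Measure ℝ) (s : ℝ) (t w : ℕ) (k : ℤ) (η : Env) : ℝ :=
  mx (Finset.Ico 0 (w : ℤ)) fun a => ∑ b ∈ Finset.Ico 0 (w : ℤ),
    W μ s η (0, a) t (((t / 2 : ℕ) : ℤ) + k * w + b - a)

theorem GG_nonneg (t w : ℕ) (k : ℤ) (η : Env) : 0 ≤ GG μ s t w k η :=
  mx_nonneg fun _ _ => Finset.sum_nonneg fun _ _ => W_nonneg _ _ _ _

theorem GG_meas (t w : ℕ) (k : ℤ) : Measurable (GG μ s t w k) :=
  mx_meas fun _ _ => Finset.measurable_sum _ fun _ _ => measurable_W _ _ _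

theorem sum_W_int [IsProbabilityMeasure μ] (hEM : Pool.Agent.W_7d29a1_h47.EM μ) (a : Pt) (n : ℕ) (S : Finset ℤ) (c : ℤ)
    {p : ℝ} (hp : 0 ≤ p) : Integrable (fun η => (∑ b ∈ S, W μ s η a n (c + b)) ^ p) (law μ) := by
  classical
  have h := WS_rpow_integrable (μ := μ) (s := s) hEM a n (S.image fun b => c + b) hp
  refine h.congr (Filter.Eventually.of_forall fun η => ?_)
  show WS μ s η a n (S.image fun b => c + b) ^ p = _
  unfold WS
  rw [Finset.sum_image fun x _ y _ hxy => by simpa using hxy]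

theorem GG_int [IsProbabilityMeasure μ] (hEM : Pool.Agent.W_7d29a1_h47.EM μ) (t w : ℕ) (k : ℤ) {p : ℝ} (hp : 0 < p) :
    Integrable (fun η => GG μ s t w k η ^ p) (law μ) := by
  refine mx_rpow_int (F := fun a η => ∑ b ∈ Finset.Ico 0 (w : ℤ),
    W μ s η (0, a) t (((t / 2 : ℕ) : ℤ) + k * w + b - a)) (fun _ _ _ => Finset.sum_nonneg fun _ _ => W_nonneg _ _ _ _)
    (fun _ _ => Finset.measurable_sum _ fun _ _ => measurable_W _ _ _) hp fun a _ => ?_
  have h := sum_W_int (μ := μ) (s := s) hEM (0, a) t (Finset.Ico 0 (w : ℤ)) (((t / 2 : ℕ) : ℤ) + k * w - a) hp.le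
  refine h.congr (Filter.Eventually.of_forall fun η => ?_)
  show (∑ b ∈ Finset.Ico 0 (w : ℤ), W μ s η (0, a) t (((t / 2 : ℕ) : ℤ) + k * w - a + b)) ^ p = _
  congr 1
  refine Finset.sum_congr rfl fun b _ => ?_
  congr 1
  ring

theorem St_sub {h Q : ℕ} (hh : 1 ≤ h) (hQ : 2 ≤ Q) (b : Bool) : St h b ⊆ Finset.Ico 0 ((Q * h : ℕ) : ℤ) := by
  intro u hu
  obtain ⟨h0, h1⟩ := St_mem hu
  rw [Finset.mem_Ico]
  refine ⟨h0, lt_of_le_of_lt h1 ?_⟩
  have : h < Q * h := by nlinarith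
  exact_mod_cast this

theorem PP_le_GG {m r h Q : ℕ} (hh : 1 ≤ h) (hQ : 2 ≤ Q) (hm : Even m) (b : Bool) (δ : ℤ) (η : Env) :
    PP μ s m r h (m / 2 : ℕ) (r / 2 : ℕ) b δ η ≤ GG μ s (m + r) (Q * h) ((δ + 1) / Q) η := by
  have hQ0 : (0 : ℤ) < Q := by exact_mod_cast (by omega : 0 < Q)
  have hh0 : (0 : ℤ) < h := by exact_mod_cast (by omega : 0 < h)
  refine mx_le (GG_nonneg _ _ _ _) fun u hu => ?_
  have hu' := St_sub hh hQ b hu
  refine le_trans ?_ (le_mx (F := fun a => ∑ b ∈ Finset.Ico 0 ((Q * h : ℕ) : ℤ),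
    W μ s η (0, a) (m + r) ((((m + r) / 2 : ℕ) : ℤ) + (δ + 1) / Q * ((Q * h : ℕ) : ℤ) + b - a)) hu')
  have hmod : ((δ + 1) % Q) * h ∈ Finset.Ico 0 ((Q * h : ℕ) : ℤ) := by
    rw [Finset.mem_Ico]
    refine ⟨mul_nonneg (Int.emod_nonneg _ hQ0.ne') hh0.le, ?_⟩
    push_cast
    exact mul_lt_mul_of_pos_right (Int.emod_lt_of_pos _ hQ0) hh0
  refine le_trans (le_of_eq ?_) (Finset.single_le_sum (f := fun b : ℤ =>
    W μ s η (0, u) (m + r) ((((m + r) / 2 : ℕ) : ℤ) + (δ + 1) / Q * ((Q * h : ℕ) : ℤ) + b - u))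
    (fun _ _ => W_nonneg _ _ _ _) hmod)
  congr 1
  have h1 := Int.mul_ediv_add_emod (δ + 1) Q
  have h2 : (((m + r) / 2 : ℕ) : ℤ) = ((m / 2 : ℕ) : ℤ) + ((r / 2 : ℕ) : ℤ) := by
    obtain ⟨k, hk⟩ := hm
    have : (m + r) / 2 = m / 2 + r / 2 := by omega
    rw [this]
    push_cast
    rfl
  rw [h2]
  push_cast
  have h3 : (δ + 1) * (h : ℤ) = ((Q : ℤ) * ((δ + 1) / Q) + (δ + 1) % Q) * h := by rw [h1]
  rw [h3]
  ring

theorem RR_le_GG {m h Q : ℕ} (hh : 1 ≤ h) (hQ : 2 ≤ Q) (b : Bool) (δ : ℤ) (η : Env) :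
    RR μ s m h (m / 2 : ℕ) b δ η ≤ GG μ s m (Q * h) (δ / Q) η := by
  classical
  have hQ0 : (0 : ℤ) < Q := by exact_mod_cast (by omega : 0 < Q)
  have hh0 : (0 : ℤ) < h := by exact_mod_cast (by omega : 0 < h)
  refine mx_le (GG_nonneg _ _ _ _) fun u hu => ?_
  have hu' := St_sub hh hQ b hu
  refine le_trans ?_ (le_mx (F := fun a => ∑ b ∈ Finset.Ico 0 ((Q * h : ℕ) : ℤ),
    W μ s η (0, a) m (((m / 2 : ℕ) : ℤ) + δ / Q * ((Q * h : ℕ) : ℤ) + b - a)) hu')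
  obtain ⟨j, hj⟩ : ∃ j : ℤ, j = δ % Q := ⟨_, rfl⟩
  have hj0 : 0 ≤ j := by rw [hj]; exact Int.emod_nonneg _ hQ0.ne'
  have hj1 : j + 1 ≤ Q := by rw [hj]; exact Int.emod_lt_of_pos _ hQ0
  have hδ : δ = Q * (δ / Q) + j := by rw [hj]; exact (Int.mul_ediv_add_emod δ Q).symm
  have hsub : (Finset.Ico 0 (h : ℤ)).image (fun u' => j * h + u') ⊆ Finset.Ico 0 ((Q * h : ℕ) : ℤ) := by
    intro b hb
    obtain ⟨u', hu'', rfl⟩ := Finset.mem_image.1 hb
    have h1 := Finset.mem_Ico.1 hu''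
    rw [Finset.mem_Ico]
    refine ⟨add_nonneg (mul_nonneg hj0 hh0.le) h1.1, ?_⟩
    push_cast
    have : (j + 1) * (h : ℤ) ≤ Q * h := mul_le_mul_of_nonneg_right hj1 hh0.le
    linarith [h1.2]
  refine le_trans (le_of_eq ?_) (Finset.sum_le_sum_of_subset_of_nonneg hsub fun _ _ _ => W_nonneg _ _ _ _)
  rw [Finset.sum_image fun x _ y _ hxy => by simpa using hxy]
  refine Finset.sum_congr rfl fun u' _ => ?_
  congr 1
  push_cast
  have h3 : δ * (h : ℤ) = ((Q : ℤ) * (δ / Q) + j) * h := by rw [← hδ]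
  rw [h3]
  ring

theorem abs_div_ge {Q : ℕ} (hQ : 1 ≤ Q) (δ : ℤ) : |(δ : ℝ)| / Q - 2 ≤ |(((δ / Q : ℤ)) : ℝ)| ∧
    |(δ : ℝ)| / Q - 2 ≤ |((((δ + 1) / Q : ℤ)) : ℝ)| := by
  have hQ0 : (0 : ℤ) < Q := by exact_mod_cast (by omega : 0 < Q)
  have hQr : (0 : ℝ) < Q := by exact_mod_cast (by omega : 0 < Q)
  have hQ1 : (1 : ℝ) ≤ Q := by exact_mod_cast hQ
  have key : ∀ d k : ℤ, k = d / Q → |(d : ℝ)| ≤ Q * |(k : ℝ)| + Q := by
    intro d k hk
    have h1 := Int.mul_ediv_add_emod d Q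
    have h2 := Int.emod_nonneg d hQ0.ne'
    have h3 := Int.emod_lt_of_pos d hQ0
    rw [← hk] at h1
    have h4 : (d : ℝ) = Q * k + ((d % Q : ℤ) : ℝ) := by exact_mod_cast h1.symm
    have h5 : (0 : ℝ) ≤ ((d % Q : ℤ) : ℝ) := by exact_mod_cast h2
    have h6 : ((d % Q : ℤ) : ℝ) ≤ Q := by exact_mod_cast h3.le
    rw [h4]
    refine (abs_add_le _ _).trans ?_
    rw [abs_mul, abs_of_nonneg hQr.le, abs_of_nonneg h5]
    linarith
  constructor
  · have h1 := key δ (δ / Q) rfl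
    rw [sub_le_iff_le_add, div_le_iff₀ hQr]
    nlinarith
  · have h1 := key (δ + 1) ((δ + 1) / Q) rfl
    have h2 : |(δ : ℝ)| ≤ |((δ + 1 : ℤ) : ℝ)| + 1 := by
      push_cast
      have := abs_sub_le ((δ : ℝ) + 1) 1 0
      have h3 : |(δ : ℝ)| = |((δ : ℝ) + 1) - 1| := by congr 1; ring
      rw [h3]
      refine (abs_sub _ _).trans ?_
      simp
    rw [sub_le_iff_le_add, div_le_iff₀ hQr]
    nlinarith

/-- Cauchy-Schwarz with an event. -/
theorem cs_event [IsProbabilityMeasure μ] {f : Env → ℝ} (hf0 : ∀ η, 0 ≤ f η)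
    (hf2 : Integrable (fun η => f η ^ 2) (law μ)) {B : Env → Prop} (hB : MeasurableSet {η | B η}) {K p : ℝ} (hK : 0 < K)
    (hp : 0 < p) (h1 : ∫ η, f η ^ 2 ∂(law μ) ≤ K ^ 2) (h2 : (law μ).real {η | B η} ≤ p ^ 2) :
    ∫ η, io (B η) * f η ∂(law μ) ≤ p * K := by
  have hio : ∫ η, io (B η) ∂(law μ) = (law μ).real {η | B η} := by
    have e1 : (fun η => io (B η)) = {η | B η}.indicator fun _ => (1 : ℝ) := by
      funext η
      by_cases h : B η
      · rw [io_of h, Set.indicator_of_mem (show η ∈ {η | B η} from h)]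
      · rw [io_not h, Set.indicator_of_notMem (show η ∉ {η | B η} from h)]
    rw [e1, integral_indicator_const _ hB]
    simp
  have hioi : Integrable (fun η => io (B η)) (law μ) := by
    refine (integrable_const (1 : ℝ)).mono' (measurable_io hB).aestronglyMeasurable (Filter.Eventually.of_forall fun η => ?_)
    rw [Real.norm_eq_abs, abs_of_nonneg (io_nonneg _)]
    exact io_le_one _
  have h3 : ∫ η, io (B η) * f η ∂(law μ) ≤ ∫ η, (p / K * f η ^ 2 + K / p * io (B η)) / 2 ∂(law μ) := by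
    refine integral_mono_of_nonneg (Filter.Eventually.of_forall fun η => mul_nonneg (io_nonneg _) (hf0 η))
      (((hf2.const_mul _).add (hioi.const_mul _)).div_const 2) (Filter.Eventually.of_forall fun η => ?_)
    show io (B η) * f η ≤ (p / K * f η ^ 2 + K / p * io (B η)) / 2
    by_cases h : B η
    · rw [io_of h, one_mul, mul_one]
      have h4 : 0 ≤ (p * f η - K) ^ 2 / (p * K) := by positivity
      have h5 : (p * f η - K) ^ 2 / (p * K) = p / K * f η ^ 2 + K / p - 2 * f η := by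
        field_simp
        ring
      linarith
    · rw [io_not h, zero_mul, mul_zero, add_zero]
      exact div_nonneg (mul_nonneg (div_nonneg hp.le hK.le) (sq_nonneg _)) zero_le_two
  refine h3.trans ?_
  rw [integral_div, integral_add (hf2.const_mul _) (hioi.const_mul _), integral_const_mul, integral_const_mul, hio]
  have h4 : p / K * ∫ η, f η ^ 2 ∂(law μ) ≤ p / K * K ^ 2 := mul_le_mul_of_nonneg_left h1 (div_nonneg hp.le hK.le)
  have h5 : K / p * (law μ).real {η | B η} ≤ K / p * p ^ 2 := mul_le_mul_of_nonneg_left h2 (div_nonneg hK.le hp.le)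
  have h6 : p / K * K ^ 2 = p * K := by field_simp
  have h7 : K / p * p ^ 2 = p * K := by field_simp
  linarith

/-- Without the event. -/
theorem cs_plain [IsProbabilityMeasure μ] {f : Env → ℝ} (hf0 : ∀ η, 0 ≤ f η)
    (hf2 : Integrable (fun η => f η ^ 2) (law μ)) {K : ℝ} (hK : 0 < K)
    (h1 : ∫ η, f η ^ 2 ∂(law μ) ≤ K ^ 2) : ∫ η, f η ∂(law μ) ≤ K := by
  have h := cs_event (μ := μ) hf0 hf2 (B := fun _ => True) (by simp) hK one_pos h1
    (by simp)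
  simpa [io_of trivial] using h

end Pool.Agent.W_7d29a1_h66
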