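import Pool.Agent.W_7d29a1_h66.D7a
import Pool.Agent.W_7d29a1_F.Bridge2

/-!
Track G (MP_7d29a1_pr), section A (row 618): THEOREM D7, the bounds of the factors of one slab. (helper66)
-/

namespace Pool.Agent.W_7d29a1_h66

open MeasureTheory ProbabilityTheory Pool.Agent.W_7d29a1_F Pool.Agent.W_7d29a1_h4g

variable {μ : Measure ℝ} {s : ℝ}

/-- THE DATA OF A SCALE (row 618, section 1): `m` slab, `r` reference, `m + r` piece, `h` mesh, `Q h` coarse cell, unit `E`,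
growth `s₀`, level `ε`. -/
structure Scale (μ : Measure ℝ) (m r h Q : ℕ) (E s₀ ε A C₁ : ℝ) : Prop where
  em : Pool.Agent.W_7d29a1_h47.EM μ
  even : Even m
  rm : r ≤ m
  one_h : 1 ≤ h
  hr : r / 2 + h ≤ r
  grow : s₀ * E ≤ e μ 0 (m + r) ((m + r) / 2 : ℕ) - e μ 0 r (r / 2 : ℕ)
  unit : e μ 0 (m + r) ((m + r) / 2 : ℕ) ≤ E
  mesh : e μ 0 r ((r / 2 : ℕ) + (h : ℤ)) ≤ e μ 0 r (r / 2 : ℕ) + s₀ / 8 * E
  ns1 : NS μ 0 r E ε
  ns2 : NS μ 0 (m + r) E ε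
  el1 : ∀ k : ℤ, ∫ η, GG μ 0 m (Q * h) k η ^ (4 * (A / E)) ∂(law μ) ≤ Real.exp (4 * (C₁ * A - |(k : ℝ)|))
  el2 : ∀ k : ℤ, ∫ η, GG μ 0 (m + r) (Q * h) k η ^ (4 * (A / E)) ∂(law μ) ≤ Real.exp (4 * (C₁ * A - |(k : ℝ)|))

/-- The threshold of an unlucky reference. -/
noncomputable def rho (μ : Measure ℝ) (r : ℕ) (E s₀ ε : ℝ) : ℝ := e μ 0 r (r / 2 : ℕ) + (s₀ / 8 + 4 * ε) * E

theorem real_shift_lt [IsProbabilityMeasure μ] (a : Pt) (n : ℕ) (y : ℤ) (c : ℝ) :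
    (law μ).real {η | c < X μ s η a n y} = (law μ).real {η | c < X μ s η 0 n y} := by
  have hm : MeasurableSet {η : Env | c < X μ s η 0 n y} :=
    measurableSet_lt measurable_const (measurable_X 0 n _)
  have h := real_sh (μ := μ) a hm
  rw [← h]
  congr 1
  ext η
  show c < X μ s η a n y ↔ c < X μ s (sh a η) 0 n y
  rw [X_sh, zero_add]

section

variable [IsProbabilityMeasure μ] {m r h Q : ℕ} {E s₀ ε A C₁ : ℝ}

theorem bad_le (S : Scale μ m r h Q E s₀ ε A C₁) (hE : 0 < E) (hε : 0 < ε) (hs : 0 < s₀) (hs1 : s₀ ≤ 1) (a : Pt) :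
    (law μ).real {η | ¬ Good μ 0 r h (r / 2 : ℕ) (rho μ r E s₀ ε) (sh a η)} ≤ 2 * ε := by
  have h1 : (law μ).real {η | ¬ Good μ 0 r h (r / 2 : ℕ) (rho μ r E s₀ ε) (sh a η)} =
      (law μ).real {η | ¬ Good μ 0 r h (r / 2 : ℕ) (rho μ r E s₀ ε) η} :=
    real_sh (μ := μ) a (Good_meas (μ := μ) (s := 0) r h (r / 2 : ℕ) (rho μ r E s₀ ε))
  rw [h1]
  have hεE : 0 < ε * E := mul_pos hε hE
  have hsE : 0 < s₀ * E := mul_pos hs hE
  have hr0 : (0 : ℤ) ≤ ((r / 2 : ℕ) : ℤ) := Int.natCast_nonneg _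
  have hr1 : ((r / 2 : ℕ) : ℤ) ≤ r := by omega
  have hrh0 : (0 : ℤ) ≤ ((r / 2 : ℕ) : ℤ) + h := add_nonneg hr0 (Int.natCast_nonneg _)
  have hrh1 : ((r / 2 : ℕ) : ℤ) + h ≤ r := by exact_mod_cast S.hr
  have her : e μ 0 r (r / 2 : ℕ) ≤ E := by linarith [S.grow, S.unit]
  have hlog : ∀ (η : Env) (b : Pt) (y : ℤ), 0 ≤ y → y ≤ r →
      ¬ Real.exp (-rho μ r E s₀ ε) ≤ W μ 0 η b r y → rho μ r E s₀ ε < X μ 0 η b r y := by
    intro η b y hy0 hy1 hnot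
    have hW := W_pos (μ := μ) (s := 0) η b hy0 hy1
    rw [not_le] at hnot
    have h2 := (Real.log_lt_iff_lt_exp hW).2 hnot
    unfold X
    linarith
  have hsub : {η | ¬ Good μ 0 r h (r / 2 : ℕ) (rho μ r E s₀ ε) η} ⊆
      {η | rho μ r E s₀ ε < X μ 0 η 0 r ((r / 2 : ℕ) + (h : ℤ))} ∪
      {η | rho μ r E s₀ ε < X μ 0 η (0, (h : ℤ)) r (r / 2 : ℕ)} := by
    intro η hη
    rw [Set.mem_ofPred_eq] at hη
    unfold Good at hη
    rcases not_and_or.1 hη with h2 | h2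
    · exact Or.inl (hlog η 0 _ hrh0 hrh1 h2)
    · exact Or.inr (hlog η _ _ hr0 hr1 h2)
  have hsE1 : s₀ * E ≤ 1 * E := mul_le_mul_of_nonneg_right hs1 hE.le
  have s1 := straight S.ns1 hrh0 hrh1 (by linarith [S.mesh])
  have s2 := straight S.ns1 hr0 hr1 (by linarith)
  have p1 : (law μ).real {η | rho μ r E s₀ ε < X μ 0 η 0 r ((r / 2 : ℕ) + (h : ℤ))} ≤ ε := by
    refine (measureReal_mono (fun η hη => ?_) (measure_ne_top _ _)).trans s1.le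
    show ε * E ≤ |X μ 0 η 0 r ((r / 2 : ℕ) + (h : ℤ)) - e μ 0 r ((r / 2 : ℕ) + (h : ℤ))|
    have h2 : rho μ r E s₀ ε < X μ 0 η 0 r ((r / 2 : ℕ) + (h : ℤ)) := hη
    have h3 := le_abs_self (X μ 0 η 0 r ((r / 2 : ℕ) + (h : ℤ)) - e μ 0 r ((r / 2 : ℕ) + (h : ℤ)))
    have h4 := S.mesh
    unfold rho at h2
    linarith
  have p2 : (law μ).real {η | rho μ r E s₀ ε < X μ 0 η (0, (h : ℤ)) r (r / 2 : ℕ)} ≤ ε := by
    rw [real_shift_lt]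
    refine (measureReal_mono (fun η hη => ?_) (measure_ne_top _ _)).trans s2.le
    show ε * E ≤ |X μ 0 η 0 r (r / 2 : ℕ) - e μ 0 r (r / 2 : ℕ)|
    have h2 : rho μ r E s₀ ε < X μ 0 η 0 r (r / 2 : ℕ) := hη
    have h3 := le_abs_self (X μ 0 η 0 r (r / 2 : ℕ) - e μ 0 r (r / 2 : ℕ))
    unfold rho at h2
    linarith
  have h2 := (measureReal_mono hsub (measure_ne_top (law μ) _)).trans (measureReal_union_le _ _)
  linarith

theorem sq_rpow {x : ℝ} (hx : 0 ≤ x) (θ : ℝ) : (x ^ θ) ^ 2 = x ^ (2 * θ) := by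
  rw [← Real.rpow_natCast, ← Real.rpow_mul hx]
  congr 1
  push_cast
  ring

theorem sq_rpow' {x : ℝ} (hx : 0 ≤ x) (θ : ℝ) : (x ^ (2 * θ)) ^ 2 = x ^ (4 * θ) := by
  rw [sq_rpow hx]
  congr 1
  ring

theorem exp_sq (a : ℝ) : Real.exp a ^ 2 = Real.exp (2 * a) := by
  rw [← Real.exp_nat_mul]
  norm_num

theorem pref_le {ρ θ : ℝ} (h1 : θ ≤ 1) :
    ((2 * Real.exp ρ) ^ θ) ^ 2 ≤ 4 * Real.exp (2 * (θ * ρ)) := by
  rw [Real.mul_rpow zero_le_two (Real.exp_pos _).le, mul_pow, ← Real.exp_mul, exp_sq, mul_comm ρ θ]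
  refine mul_le_mul_of_nonneg_right ?_ (Real.exp_pos _).le
  have h2 : (2 : ℝ) ^ θ ≤ 2 ^ (1 : ℝ) := Real.rpow_le_rpow_of_exponent_le one_le_two h1
  rw [Real.rpow_one] at h2
  have h3 : (0 : ℝ) ≤ 2 ^ θ := Real.rpow_nonneg zero_le_two _
  nlinarith

/-- A slab which ends in a bad cell. -/
theorem bound_bad (S : Scale μ m r h Q E s₀ ε A C₁) (hQ : 2 ≤ Q) (hE : 0 < E) (hA : 0 < A) (hε : 0 < ε) (hs : 0 < s₀)
    (hs1 : s₀ ≤ 1) {x : ℝ} (hx : 0 < x) (hx4 : 2 * ε ≤ x ^ 4) (b : Bool) (δ : ℤ) :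
    ∫ η, ff μ 0 m r h (m / 2 : ℕ) (r / 2 : ℕ) (rho μ r E s₀ ε) (A / E) b false δ η ^ 2 ∂(law μ) ≤
      (x * Real.exp (C₁ * A + 2 - |(δ : ℝ)| / Q)) ^ 2 := by
  obtain ⟨θ, hθ⟩ : ∃ θ : ℝ, θ = A / E := ⟨_, rfl⟩
  have hθ0 : 0 < θ := by rw [hθ]; exact div_pos hA hE
  rw [← hθ]
  obtain ⟨k, hk⟩ : ∃ k : ℤ, k = δ / Q := ⟨_, rfl⟩
  obtain ⟨a, ha⟩ : ∃ a : Pt, a = ((m : ℤ), ((m / 2 : ℕ) : ℤ) + δ * h) := ⟨_, rfl⟩
  have e1 : ∀ η : Env, ff μ 0 m r h (m / 2 : ℕ) (r / 2 : ℕ) (rho μ r E s₀ ε) θ b false δ η ^ 2 =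
      io (¬ Good μ 0 r h (r / 2 : ℕ) (rho μ r E s₀ ε) (sh a η)) * RR μ 0 m h (m / 2 : ℕ) b δ η ^ (2 * θ) := by
    intro η
    unfold ff
    rw [if_neg (by simp), mul_pow, sq_rpow (RR_nonneg _ _ _ _ _ _), ← ha]
    congr 1
    by_cases hg : ¬ Good μ 0 r h (r / 2 : ℕ) (rho μ r E s₀ ε) (sh a η)
    · rw [io_of hg, one_pow]
    · rw [io_not hg]; norm_num
  simp only [e1]
  have hGi : Integrable (fun η => GG μ 0 m (Q * h) k η ^ (2 * θ)) (law μ) := GG_int S.em _ _ _ (by linarith)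
  have hGi2 : Integrable (fun η => (GG μ 0 m (Q * h) k η ^ (2 * θ)) ^ 2) (law μ) := by
    simp only [sq_rpow' (GG_nonneg _ _ _ _)]
    exact GG_int S.em _ _ _ (by linarith)
  have hB : MeasurableSet {η | ¬ Good μ 0 r h (r / 2 : ℕ) (rho μ r E s₀ ε) (sh a η)} :=
    (mp_sh (μ := μ) a).measurable (Good_meas (μ := μ) (s := 0) r h (r / 2 : ℕ) (rho μ r E s₀ ε))
  have h1 : ∫ η, io (¬ Good μ 0 r h (r / 2 : ℕ) (rho μ r E s₀ ε) (sh a η)) * RR μ 0 m h (m / 2 : ℕ) b δ η ^ (2 * θ)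
      ∂(law μ) ≤ ∫ η, io (¬ Good μ 0 r h (r / 2 : ℕ) (rho μ r E s₀ ε) (sh a η)) * GG μ 0 m (Q * h) k η ^ (2 * θ)
        ∂(law μ) := by
    refine integral_mono_of_nonneg (Filter.Eventually.of_forall fun η => mul_nonneg (io_nonneg _)
      (Real.rpow_nonneg (RR_nonneg _ _ _ _ _ _) _)) ?_ (Filter.Eventually.of_forall fun η => ?_)
    · refine hGi.mono' ((measurable_io hB).mul ((GG_meas _ _ _).pow_const _)).aestronglyMeasurable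
        (Filter.Eventually.of_forall fun η => ?_)
      rw [Real.norm_eq_abs, abs_of_nonneg (mul_nonneg (io_nonneg _) (Real.rpow_nonneg (GG_nonneg _ _ _ _) _))]
      exact mul_le_of_le_one_left (Real.rpow_nonneg (GG_nonneg _ _ _ _) _) (io_le_one _)
    · refine mul_le_mul_of_nonneg_left ?_ (io_nonneg _)
      refine Real.rpow_le_rpow (RR_nonneg _ _ _ _ _ _) ?_ (by linarith)
      rw [hk]
      exact RR_le_GG S.one_h hQ b δ η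
  have h2 := cs_event (μ := μ) (f := fun η => GG μ 0 m (Q * h) k η ^ (2 * θ))
    (fun η => Real.rpow_nonneg (GG_nonneg _ _ _ _) _) hGi2 hB (K := Real.exp (2 * (C₁ * A - |(k : ℝ)|)))
    (p := x ^ 2) (Real.exp_pos _) (by positivity) (by
      simp only [sq_rpow' (GG_nonneg _ _ _ _)]
      rw [exp_sq, hθ]
      refine (S.el1 k).trans (Real.exp_le_exp.2 (le_of_eq ?_))
      ring) (by
      refine (bad_le S hE hε hs hs1 a).trans (hx4.trans_eq ?_)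
      ring)
  refine (h1.trans h2).trans ?_
  rw [mul_pow, exp_sq]
  refine mul_le_mul_of_nonneg_left (Real.exp_le_exp.2 ?_) (sq_nonneg _)
  have h3 := (abs_div_ge (show 1 ≤ Q by omega) δ).1
  rw [← hk] at h3
  linarith

/-- A slab which starts in a bad cell and ends in a good cell. -/
theorem bound_bg (S : Scale μ m r h Q E s₀ ε A C₁) (hQ : 2 ≤ Q) (hE : 0 < E) (hA : 0 < A) (hAE : A ≤ E) (b : Bool)
    (hρ : rho μ r E s₀ ε ≤ E) (δ : ℤ) :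
    ∫ η, ff μ 0 m r h (m / 2 : ℕ) (r / 2 : ℕ) (rho μ r E s₀ ε) (A / E) b true δ η ^ 2 ∂(law μ) ≤
      (2 * Real.exp ((C₁ + 1) * A + 2 - |(δ : ℝ)| / Q)) ^ 2 := by
  obtain ⟨θ, hθ⟩ : ∃ θ : ℝ, θ = A / E := ⟨_, rfl⟩
  have hθ0 : 0 < θ := by rw [hθ]; exact div_pos hA hE
  have hθ1 : θ ≤ 1 := by rw [hθ, div_le_one hE]; exact hAE
  have hθE : θ * E = A := by rw [hθ]; field_simp
  rw [← hθ]
  obtain ⟨k, hk⟩ : ∃ k : ℤ, k = (δ + 1) / Q := ⟨_, rfl⟩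
  have e1 : ∀ η : Env, ff μ 0 m r h (m / 2 : ℕ) (r / 2 : ℕ) (rho μ r E s₀ ε) θ b true δ η ^ 2 =
      ((2 * Real.exp (rho μ r E s₀ ε)) ^ θ) ^ 2 * PP μ 0 m r h (m / 2 : ℕ) (r / 2 : ℕ) b δ η ^ (2 * θ) := by
    intro η
    unfold ff
    rw [if_pos rfl, mul_pow, sq_rpow (PP_nonneg _ _ _ _ _ _ _ _)]
  simp only [e1]
  rw [integral_const_mul]
  have hGi : Integrable (fun η => GG μ 0 (m + r) (Q * h) k η ^ (2 * θ)) (law μ) := GG_int S.em _ _ _ (by linarith)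
  have hGi2 : Integrable (fun η => (GG μ 0 (m + r) (Q * h) k η ^ (2 * θ)) ^ 2) (law μ) := by
    simp only [sq_rpow' (GG_nonneg _ _ _ _)]
    exact GG_int S.em _ _ _ (by linarith)
  have h1 : ∫ η, PP μ 0 m r h (m / 2 : ℕ) (r / 2 : ℕ) b δ η ^ (2 * θ) ∂(law μ) ≤
      ∫ η, GG μ 0 (m + r) (Q * h) k η ^ (2 * θ) ∂(law μ) := by
    refine integral_mono_of_nonneg (Filter.Eventually.of_forall fun η =>
      Real.rpow_nonneg (PP_nonneg _ _ _ _ _ _ _ _) _) hGi (Filter.Eventually.of_forall fun η => ?_)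
    refine Real.rpow_le_rpow (PP_nonneg _ _ _ _ _ _ _ _) ?_ (by linarith)
    rw [hk]
    exact PP_le_GG S.one_h hQ S.even b δ η
  have h2 := cs_plain (μ := μ) (f := fun η => GG μ 0 (m + r) (Q * h) k η ^ (2 * θ))
    (fun η => Real.rpow_nonneg (GG_nonneg _ _ _ _) _) hGi2 (K := Real.exp (2 * (C₁ * A - |(k : ℝ)|)))
    (Real.exp_pos _) (by
      simp only [sq_rpow' (GG_nonneg _ _ _ _)]
      rw [exp_sq, hθ]
      refine (S.el2 k).trans (Real.exp_le_exp.2 (le_of_eq ?_))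
      ring)
  have h3 := pref_le (ρ := rho μ r E s₀ ε) hθ1
  have h4 : Real.exp (2 * (θ * rho μ r E s₀ ε)) ≤ Real.exp (2 * A) := by
    refine Real.exp_le_exp.2 ?_
    have : θ * rho μ r E s₀ ε ≤ θ * E := mul_le_mul_of_nonneg_left hρ hθ0.le
    linarith
  have h5 : ((2 * Real.exp (rho μ r E s₀ ε)) ^ θ) ^ 2 * ∫ η, PP μ 0 m r h (m / 2 : ℕ) (r / 2 : ℕ) b δ η ^ (2 * θ) ∂(law μ) ≤
      4 * Real.exp (2 * A) * Real.exp (2 * (C₁ * A - |(k : ℝ)|)) :=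
    mul_le_mul (h3.trans (by linarith)) (h1.trans h2) (integral_nonneg fun η => Real.rpow_nonneg (PP_nonneg _ _ _ _ _ _ _ _) _)
      (by positivity)
  refine h5.trans ?_
  rw [mul_pow, exp_sq, mul_assoc, ← Real.exp_add]
  norm_num
  have h6 := (abs_div_ge (show 1 ≤ Q by omega) δ).2
  rw [← hk] at h6
  linarith

end

end Pool.Agent.W_7d29a1_h66
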