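import Pool.Agent.W_7d29a1_h66.D7b

/-!
Track G (MP_7d29a1_pr), section A (row 618): the good slabs, and THEOREM D7. (helper66)
-/

namespace Pool.Agent.W_7d29a1_h66

open MeasureTheory ProbabilityTheory Pool.Agent.W_7d29a1_F Pool.Agent.W_7d29a1_h4g

variable {μ : Measure ℝ} [IsProbabilityMeasure μ] {m r h Q : ℕ} {E s₀ ε A C₁ : ℝ}

/-- One point to point slab in the good state, second moment (with the power `2 θ`). -/
theorem W_two (S : Scale μ m r h Q E s₀ ε A C₁) (hE : 0 < E) (hA : 0 < A) (hε7 : ε ≤ 1 / 7)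
    (hε : 0 < ε) (hεE : 2 * Real.log 2 ≤ ε * E) {x : ℝ} (hx : 0 < x) (hx4 : ε ≤ x ^ 4) (u D k : ℤ)
    (hW : ∀ η, W μ 0 η (0, u) (m + r) D ≤ GG μ 0 (m + r) (Q * h) k η) :
    ∫ η, W μ 0 η (0, u) (m + r) D ^ (2 * (A / E)) ∂(law μ) ≤
        Real.exp (-(2 * (A / E) * (e μ 0 (m + r) ((m + r) / 2 : ℕ) - 4 * (ε * E)))) +
          x ^ 2 * Real.exp (2 * (C₁ * A - |(k : ℝ)|)) ∧
      ∫ η, W μ 0 η (0, u) (m + r) D ^ (2 * (A / E)) ∂(law μ) ≤ Real.exp (2 * (C₁ * A - |(k : ℝ)|)) := by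
  obtain ⟨θ, hθ⟩ : ∃ θ : ℝ, θ = A / E := ⟨_, rfl⟩
  have hθ0 : 0 < θ := by rw [hθ]; exact div_pos hA hE
  obtain ⟨e', he'⟩ : ∃ e' : ℝ, e' = e μ 0 (m + r) ((m + r) / 2 : ℕ) := ⟨_, rfl⟩
  rw [← hθ, ← he']
  have hWi : Integrable (fun η => W μ 0 η (0, u) (m + r) D ^ (2 * θ)) (law μ) :=
    W_rpow_integrable S.em _ _ _ (by linarith)
  have hWi2 : Integrable (fun η => (W μ 0 η (0, u) (m + r) D ^ (2 * θ)) ^ 2) (law μ) := by
    simp only [sq_rpow' (W_nonneg _ _ _ _)]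
    exact W_rpow_integrable S.em _ _ _ (by linarith)
  have hW4 : ∫ η, (W μ 0 η (0, u) (m + r) D ^ (2 * θ)) ^ 2 ∂(law μ) ≤ Real.exp (2 * (C₁ * A - |(k : ℝ)|)) ^ 2 := by
    simp only [sq_rpow' (W_nonneg _ _ _ _)]
    rw [exp_sq]
    have h1 : ∫ η, W μ 0 η (0, u) (m + r) D ^ (4 * θ) ∂(law μ) ≤ ∫ η, GG μ 0 (m + r) (Q * h) k η ^ (4 * θ) ∂(law μ) :=
      integral_mono (W_rpow_integrable S.em _ _ _ (by linarith)) (GG_int S.em _ _ _ (by linarith)) fun η =>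
        Real.rpow_le_rpow (W_nonneg _ _ _ _) (hW η) (by linarith)
    have h2 := S.el2 k
    rw [← hθ] at h2
    refine (h1.trans h2).trans (Real.exp_le_exp.2 (le_of_eq ?_))
    ring
  refine ⟨?_, cs_plain (μ := μ) (f := fun η => W μ 0 η (0, u) (m + r) D ^ (2 * θ))
    (fun η => Real.rpow_nonneg (W_nonneg _ _ _ _) _) hWi2 (Real.exp_pos _) hW4⟩
  by_cases hD : 0 ≤ D ∧ D ≤ ((m + r : ℕ) : ℤ)
  · have hlow := no_luck S.em hE.le hε hεE hε7 S.ns2 hD.1 hD.2 S.unit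
    rw [← he'] at hlow
    have hB : MeasurableSet {η | X μ 0 η (0, u) (m + r) D ≤ e' - 4 * (ε * E)} :=
      measurableSet_le (measurable_X _ _ _) measurable_const
    have hP : (law μ).real {η | X μ 0 η (0, u) (m + r) D ≤ e' - 4 * (ε * E)} ≤ (x ^ 2) ^ 2 := by
      rw [real_shift]
      refine hlow.le.trans (hx4.trans_eq ?_)
      ring
    have h1 := cs_event (μ := μ) (f := fun η => W μ 0 η (0, u) (m + r) D ^ (2 * θ))
      (fun η => Real.rpow_nonneg (W_nonneg _ _ _ _) _) hWi2 hB (Real.exp_pos _) (by positivity) hW4 hP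
    have hI1 : Integrable (fun η => io (X μ 0 η (0, u) (m + r) D ≤ e' - 4 * (ε * E)) *
        W μ 0 η (0, u) (m + r) D ^ (2 * θ)) (law μ) := by
      refine hWi.mono' ((measurable_io hB).mul ((measurable_W _ _ _).pow_const _)).aestronglyMeasurable
        (Filter.Eventually.of_forall fun η => ?_)
      rw [Real.norm_eq_abs, abs_of_nonneg (mul_nonneg (io_nonneg _) (Real.rpow_nonneg (W_nonneg _ _ _ _) _))]
      exact mul_le_of_le_one_left (Real.rpow_nonneg (W_nonneg _ _ _ _) _) (io_le_one _)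
    have h2 : ∫ η, W μ 0 η (0, u) (m + r) D ^ (2 * θ) ∂(law μ) ≤ ∫ η, (Real.exp (-(2 * θ * (e' - 4 * (ε * E)))) +
        io (X μ 0 η (0, u) (m + r) D ≤ e' - 4 * (ε * E)) * W μ 0 η (0, u) (m + r) D ^ (2 * θ)) ∂(law μ) := by
      refine integral_mono hWi ((integrable_const _).add hI1) fun η => ?_
      show W μ 0 η (0, u) (m + r) D ^ (2 * θ) ≤ Real.exp (-(2 * θ * (e' - 4 * (ε * E)))) +
        io (X μ 0 η (0, u) (m + r) D ≤ e' - 4 * (ε * E)) * W μ 0 η (0, u) (m + r) D ^ (2 * θ)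
      by_cases hc : X μ 0 η (0, u) (m + r) D ≤ e' - 4 * (ε * E)
      · rw [io_of hc, one_mul]
        exact le_add_of_nonneg_left (Real.exp_pos _).le
      · rw [io_not hc, zero_mul, add_zero]
        have hWp := W_pos (μ := μ) (s := 0) η (0, u) hD.1 hD.2
        rw [Real.rpow_def_of_pos hWp]
        refine Real.exp_le_exp.2 ?_
        have h3 : Real.log (W μ 0 η (0, u) (m + r) D) = -X μ 0 η (0, u) (m + r) D := by unfold X; ring
        rw [h3]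
        rw [not_le] at hc
        have h5 := mul_le_mul_of_nonneg_left hc.le (by linarith : 0 ≤ 2 * θ)
        clear * - h5
        linarith
    refine h2.trans ?_
    rw [integral_add (integrable_const _) hI1, integral_const, probReal_univ, one_smul]
    exact add_le_add le_rfl h1
  · have h0 : ∀ η : Env, W μ 0 η (0, u) (m + r) D ^ (2 * θ) = 0 := fun η => by
      rw [W_eq_zero η _ hD, Real.zero_rpow (by linarith)]
    simp only [h0, integral_zero]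
    positivity

/-- A slab which starts and ends in good cells. -/
theorem bound_gg (S : Scale μ m r h Q E s₀ ε A C₁) (hQ : 2 ≤ Q) (hE : 0 < E) (hA : 0 < A) (hAE : A ≤ E)
    (hε : 0 < ε) (hε8 : 8 * ε ≤ 3 / 8 * s₀) (hs : 0 < s₀) (hs1 : s₀ ≤ 1) (hC : 0 ≤ C₁)
    (hεE : 2 * Real.log 2 ≤ ε * E) {x : ℝ} (hx : 0 < x) (hx4 : ε ≤ x ^ 4)
    (hxA : x ^ 2 * Real.exp (2 * ((C₁ + 1) * A)) ≤ Real.exp (-(A * s₀))) (δ : ℤ) :
    ∫ η, ff μ 0 m r h (m / 2 : ℕ) (r / 2 : ℕ) (rho μ r E s₀ ε) (A / E) true true δ η ^ 2 ∂(law μ) ≤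
      (4 * Real.exp (2 - A * s₀ / 4 - s₀ / (4 * (C₁ + 2)) * (|(δ : ℝ)| / Q))) ^ 2 := by
  have hε7 : ε ≤ 1 / 7 := by linarith
  obtain ⟨θ, hθ⟩ : ∃ θ : ℝ, θ = A / E := ⟨_, rfl⟩
  have hθ0 : 0 < θ := by rw [hθ]; exact div_pos hA hE
  have hθ1 : θ ≤ 1 := by rw [hθ, div_le_one hE]; exact hAE
  have hθE : θ * E = A := by rw [hθ]; field_simp
  obtain ⟨k, hk⟩ : ∃ k : ℤ, k = (δ + 1) / Q := ⟨_, rfl⟩
  obtain ⟨e', he'⟩ : ∃ e' : ℝ, e' = e μ 0 (m + r) ((m + r) / 2 : ℕ) := ⟨_, rfl⟩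
  have hρe : rho μ r E s₀ ε ≤ e' - s₀ * E + (s₀ / 8 + 4 * ε) * E := by
    unfold rho
    linarith [S.grow]
  have hsE : 0 < s₀ * E := mul_pos hs hE
  have hεE' : 8 * (ε * E) ≤ 3 / 8 * (s₀ * E) := by
    have h5 := mul_le_mul_of_nonneg_right hε8 hE.le
    clear * - h5
    linarith
  have hρ : rho μ r E s₀ ε ≤ E := by
    have := S.unit
    linarith
  rw [← hθ]
  have e1 : ∀ η : Env, ff μ 0 m r h (m / 2 : ℕ) (r / 2 : ℕ) (rho μ r E s₀ ε) θ true true δ η ^ 2 =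
      ((2 * Real.exp (rho μ r E s₀ ε)) ^ θ) ^ 2 * PP μ 0 m r h (m / 2 : ℕ) (r / 2 : ℕ) true δ η ^ (2 * θ) := by
    intro η
    unfold ff
    rw [if_pos rfl, mul_pow, sq_rpow (PP_nonneg _ _ _ _ _ _ _ _)]
  simp only [e1]
  rw [integral_const_mul]
  -- the two starts
  have hGG : ∀ u ∈ St h true, ∀ η : Env, W μ 0 η (0, u) (m + r) (((m / 2 : ℕ) : ℤ) + (r / 2 : ℕ) + (δ + 1) * h - u) ≤
      GG μ 0 (m + r) (Q * h) k η := fun u hu η =>
    (le_mx (F := fun u => W μ 0 η (0, u) (m + r) (((m / 2 : ℕ) : ℤ) + (r / 2 : ℕ) + (δ + 1) * h - u)) hu).trans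
      (by rw [hk]; exact PP_le_GG S.one_h hQ S.even true δ η)
  have b1 := fun (u : ℤ) (hu : u ∈ St h true) => W_two S hE hA hε7 hε hεE hx hx4 u
    (((m / 2 : ℕ) : ℤ) + (r / 2 : ℕ) + (δ + 1) * h - u) k (hGG u hu)
  rw [← hθ, ← he'] at b1
  have hh0 : (0 : ℤ) ≠ (h : ℤ) := by
    have := S.one_h
    omega
  have hPP : ∫ η, PP μ 0 m r h (m / 2 : ℕ) (r / 2 : ℕ) true δ η ^ (2 * θ) ∂(law μ) ≤
      ∑ u ∈ St h true, ∫ η, W μ 0 η (0, u) (m + r) (((m / 2 : ℕ) : ℤ) + (r / 2 : ℕ) + (δ + 1) * h - u) ^ (2 * θ)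
        ∂(law μ) := by
    rw [← integral_finsetSum _ fun u _ => W_rpow_integrable S.em _ _ _ (by linarith)]
    refine integral_mono_of_nonneg (Filter.Eventually.of_forall fun η =>
      Real.rpow_nonneg (PP_nonneg _ _ _ _ _ _ _ _) _)
      (integrable_finsetSum _ fun u _ => W_rpow_integrable S.em _ _ _ (by linarith))
      (Filter.Eventually.of_forall fun η => ?_)
    exact mx_rpow_le (fun u _ => W_nonneg _ _ _ _) (by linarith)
  have hSt : ∀ c : ℝ, ∑ u ∈ St h true, c = 2 * c := by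
    intro c
    rw [Finset.sum_const, St, Finset.card_pair hh0]
    simp
  have hP1 : ∫ η, PP μ 0 m r h (m / 2 : ℕ) (r / 2 : ℕ) true δ η ^ (2 * θ) ∂(law μ) ≤
      2 * (Real.exp (-(2 * θ * (e' - 4 * (ε * E)))) + x ^ 2 * Real.exp (2 * (C₁ * A - |(k : ℝ)|))) :=
    hPP.trans ((Finset.sum_le_sum fun u hu => (b1 u hu).1).trans_eq (hSt _))
  have hP2 : ∫ η, PP μ 0 m r h (m / 2 : ℕ) (r / 2 : ℕ) true δ η ^ (2 * θ) ∂(law μ) ≤
      2 * Real.exp (2 * (C₁ * A - |(k : ℝ)|)) :=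
    hPP.trans ((Finset.sum_le_sum fun u hu => (b1 u hu).2).trans_eq (hSt _))
  have h3 := pref_le (ρ := rho μ r E s₀ ε) hθ1
  have hPn : 0 ≤ ∫ η, PP μ 0 m r h (m / 2 : ℕ) (r / 2 : ℕ) true δ η ^ (2 * θ) ∂(law μ) :=
    integral_nonneg fun η => Real.rpow_nonneg (PP_nonneg _ _ _ _ _ _ _ _) _
  obtain ⟨I, hI⟩ : ∃ I : ℝ, I = ((2 * Real.exp (rho μ r E s₀ ε)) ^ θ) ^ 2 *
    ∫ η, PP μ 0 m r h (m / 2 : ℕ) (r / 2 : ℕ) true δ η ^ (2 * θ) ∂(law μ) := ⟨_, rfl⟩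
  rw [← hI]
  have h4 : Real.exp (2 * (θ * rho μ r E s₀ ε)) ≤ Real.exp (2 * A) := by
    refine Real.exp_le_exp.2 ?_
    have : θ * rho μ r E s₀ ε ≤ θ * E := mul_le_mul_of_nonneg_left hρ hθ0.le
    linarith
  -- first bound
  have i1 : I ≤ 16 * Real.exp (-(A * s₀)) := by
    have h5 : I ≤ 4 * Real.exp (2 * (θ * rho μ r E s₀ ε)) *
        (2 * (Real.exp (-(2 * θ * (e' - 4 * (ε * E)))) + x ^ 2 * Real.exp (2 * (C₁ * A - |(k : ℝ)|)))) := by
      rw [hI]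
      exact mul_le_mul h3 hP1 hPn (by positivity)
    have h6 : Real.exp (2 * (θ * rho μ r E s₀ ε)) * Real.exp (-(2 * θ * (e' - 4 * (ε * E)))) ≤
        Real.exp (-(A * s₀)) := by
      rw [← Real.exp_add]
      refine Real.exp_le_exp.2 ?_
      have h7 : θ * (rho μ r E s₀ ε - e' + 4 * (ε * E)) ≤ θ * (-(s₀ / 2) * E) :=
        mul_le_mul_of_nonneg_left (by linarith) hθ0.le
      have h8 : θ * (-(s₀ / 2) * E) = -(A * s₀ / 2) := by
        rw [← hθE]; ring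
      clear * - h7 h8
      linarith
    have h9 : Real.exp (2 * (θ * rho μ r E s₀ ε)) * (x ^ 2 * Real.exp (2 * (C₁ * A - |(k : ℝ)|))) ≤
        Real.exp (-(A * s₀)) := by
      refine le_trans ?_ hxA
      have h10 : Real.exp (2 * (C₁ * A - |(k : ℝ)|)) ≤ Real.exp (2 * (C₁ * A)) :=
        Real.exp_le_exp.2 (by linarith [abs_nonneg (k : ℝ)])
      have h11 : Real.exp (2 * ((C₁ + 1) * A)) = Real.exp (2 * A) * Real.exp (2 * (C₁ * A)) := by
        rw [← Real.exp_add]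
        congr 1
        ring
      rw [h11]
      have h12 : Real.exp (2 * (θ * rho μ r E s₀ ε)) * Real.exp (2 * (C₁ * A - |(k : ℝ)|)) ≤
          Real.exp (2 * A) * Real.exp (2 * (C₁ * A)) :=
        mul_le_mul h4 h10 (Real.exp_pos _).le (Real.exp_pos _).le
      calc Real.exp (2 * (θ * rho μ r E s₀ ε)) * (x ^ 2 * Real.exp (2 * (C₁ * A - |(k : ℝ)|)))
          = x ^ 2 * (Real.exp (2 * (θ * rho μ r E s₀ ε)) * Real.exp (2 * (C₁ * A - |(k : ℝ)|))) := by ring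
        _ ≤ _ := mul_le_mul_of_nonneg_left h12 (sq_nonneg _)
    linarith
  -- second bound
  have i2 : I ≤ 16 * Real.exp (2 * ((C₁ + 1) * A - |(k : ℝ)|)) := by
    have h5 : I ≤ 4 * Real.exp (2 * A) * (2 * Real.exp (2 * (C₁ * A - |(k : ℝ)|))) := by
      rw [hI]
      exact mul_le_mul (h3.trans (by linarith)) hP2 hPn (by positivity)
    have h6 : Real.exp (2 * A) * Real.exp (2 * (C₁ * A - |(k : ℝ)|)) = Real.exp (2 * ((C₁ + 1) * A - |(k : ℝ)|)) := by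
      rw [← Real.exp_add]
      congr 1
      ring
    have h7 := Real.exp_pos (2 * ((C₁ + 1) * A - |(k : ℝ)|))
    linarith
  -- interpolation
  obtain ⟨lam, hlam⟩ : ∃ lam : ℝ, lam = s₀ / (4 * (C₁ + 2)) := ⟨_, rfl⟩
  have hlam0 : 0 < lam := by rw [hlam]; positivity
  have hlamC : lam * (4 * (C₁ + 2)) = s₀ := by rw [hlam]; field_simp
  have hlam1 : lam ≤ 1 := by
    have h5 := mul_nonneg hlam0.le hC
    clear * - h5 hlamC hs1 hlam0
    linarith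
  rw [← hlam]
  obtain ⟨Z, hZ⟩ : ∃ Z : ℝ, Z = (1 - lam) * (-(A * s₀)) + lam * (2 * ((C₁ + 1) * A - |(k : ℝ)|)) := ⟨_, rfl⟩
  have i3 : I ≤ 16 * Real.exp Z := by
    rcases le_total (-(A * s₀)) (2 * ((C₁ + 1) * A - |(k : ℝ)|)) with hle | hle
    · refine i1.trans (mul_le_mul_of_nonneg_left (Real.exp_le_exp.2 ?_) (by norm_num))
      have h5 := mul_le_mul_of_nonneg_left hle hlam0.le
      rw [hZ]
      clear * - h5
      linarith
    · refine i2.trans (mul_le_mul_of_nonneg_left (Real.exp_le_exp.2 ?_) (by norm_num))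
      have h5 := mul_le_mul_of_nonneg_left hle (by linarith : 0 ≤ 1 - lam)
      rw [hZ]
      clear * - h5
      linarith
  have hZ2 : Z ≤ -(A * s₀ / 2) - 2 * lam * |(k : ℝ)| := by
    have h5 : lam * (2 * C₁ + 3) ≤ s₀ / 2 := by
      clear * - hlamC hlam0
      linarith
    have h6 : A * (lam * (2 * C₁ + 3)) ≤ A * (s₀ / 2) := mul_le_mul_of_nonneg_left h5 hA.le
    have h7 : lam * (A * s₀) ≤ lam * (A * 1) :=
      mul_le_mul_of_nonneg_left (mul_le_mul_of_nonneg_left hs1 hA.le) hlam0.le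
    rw [hZ]
    clear * - h6 h7
    linarith
  have h6 := (abs_div_ge (show 1 ≤ Q by omega) δ).2
  rw [← hk] at h6
  refine i3.trans ?_
  rw [mul_pow, exp_sq]
  norm_num
  have h7 : lam * (|(δ : ℝ)| / Q - 2) ≤ lam * |(k : ℝ)| := mul_le_mul_of_nonneg_left h6 hlam0.le
  clear * - h7 hZ2 hlam1
  nlinarith

end Pool.Agent.W_7d29a1_h66
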