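import Pool.Agent.W_7d29a1_h66.D7

/-!
Track G (MP_7d29a1_pr), section A (row 618): the record trick (helper25) and the form `Tendsto` of THEOREM D7. (helper66)
-/

namespace Pool.Agent.W_7d29a1_h66

open MeasureTheory ProbabilityTheory Filter Topology Pool.Agent.W_7d29a1_F Pool.Agent.W_7d29a1_h4g

/-- The running maximum of the mean straight costs, plus `1`. -/
noncomputable def Emax (μ : Measure ℝ) (n : ℕ) : ℝ :=
  1 + (Finset.range (n + 1)).sup' ⟨0, by simp⟩ fun t => e μ 0 t ((t / 2 : ℕ) : ℤ)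

theorem e_le_Emax (μ : Measure ℝ) {t n : ℕ} (h : t ≤ n) : e μ 0 t ((t / 2 : ℕ) : ℤ) ≤ Emax μ n - 1 := by
  unfold Emax
  rw [add_sub_cancel_left]
  exact Finset.le_sup' (fun t => e μ 0 t ((t / 2 : ℕ) : ℤ)) (Finset.mem_range.2 (Nat.lt_succ_of_le h))

theorem exists_Emax (μ : Measure ℝ) (n : ℕ) : ∃ t ≤ n, Emax μ n = 1 + e μ 0 t ((t / 2 : ℕ) : ℤ) := by
  obtain ⟨t, ht, h⟩ := Finset.exists_mem_eq_sup' (s := Finset.range (n + 1)) ⟨0, by simp⟩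
    fun t => e μ 0 t ((t / 2 : ℕ) : ℤ)
  refine ⟨t, Nat.lt_succ_iff.1 (Finset.mem_range.1 ht), ?_⟩
  unfold Emax
  rw [h]

/-- THE RECORD TRICK: growth of the running maximum in one octave gives a piece `m + r` and a reference `r` with the same
growth. -/
theorem record (μ : Measure ℝ) {n : ℕ} {s₁ : ℝ} (hn : 8 ≤ n) (hs : 0 ≤ s₁) (h1 : 1 ≤ Emax μ n)
    (hgrow : (1 + s₁) * Emax μ n < Emax μ (2 * n)) :
    ∃ m r : ℕ, Even m ∧ r ≤ m ∧ n < m + r ∧ m + r ≤ 2 * n ∧ r ≤ n ∧ m + r ≤ 8 * r ∧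
      s₁ * Emax μ n ≤ e μ 0 (m + r) ((m + r) / 2 : ℕ) - e μ 0 r (r / 2 : ℕ) ∧
      e μ 0 (m + r) ((m + r) / 2 : ℕ) = Emax μ (2 * n) - 1 := by
  obtain ⟨t, ht, hE⟩ := exists_Emax μ (2 * n)
  have hnt : n < t := by
    by_contra hcon
    have h2 := e_le_Emax μ (not_lt.1 hcon)
    have h3 : 0 ≤ s₁ * Emax μ n := by positivity
    linarith
  obtain ⟨r, hr⟩ : ∃ r : ℕ, r = 2 * (t / 8) + t % 2 := ⟨_, rfl⟩
  have hrt : r ≤ t := by omega
  obtain ⟨m, hm⟩ : ∃ m : ℕ, m = t - r := ⟨_, rfl⟩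
  have hmr : m + r = t := by omega
  have hrn : r ≤ n := by omega
  refine ⟨m, r, ?_, by omega, by omega, by omega, hrn, by omega, ?_, ?_⟩
  · rw [Nat.even_iff]
    omega
  · rw [hmr]
    have h2 := e_le_Emax μ hrn
    have h3 : Emax μ n + s₁ * Emax μ n < Emax μ (2 * n) := by linarith
    push_cast at h2 hE ⊢
    linarith
  · rw [hmr]
    push_cast at hE ⊢
    linarith

/-- THEOREM D7, final form: when the straight cost is sublinear (`J(0) = 0`), there is no growth at a scale at which nothing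
fluctuates. -/
theorem d7_false {s₀ C₁ : ℝ} (hs : 0 < s₀) (hs1 : s₀ ≤ 1) (hC : 0 ≤ C₁) {Q : ℕ} (hQ : 2 ≤ Q) :
    ∃ A₀ : ℝ, 1 ≤ A₀ ∧ ∀ A : ℝ, A₀ ≤ A → ∃ ε E₀ : ℝ, 0 < ε ∧ ε ≤ 1 / 7 ∧
      ∀ (μ : Measure ℝ) [IsProbabilityMeasure μ],
      Tendsto (fun N : ℕ => e μ 0 N ((N / 2 : ℕ) : ℤ) / N) atTop (𝓝 0) →
      ∀ (m r h : ℕ) (E : ℝ), E₀ ≤ E → ¬ Scale μ m r h Q E s₀ ε A C₁ := by
  obtain ⟨A₀, hA₀, HA⟩ := d7 hs hs1 hC hQ
  refine ⟨A₀, hA₀, fun A hAA => ?_⟩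
  obtain ⟨ε, E₀, hε, hε7, H⟩ := HA A hAA
  refine ⟨ε, max E₀ 1, hε, hε7, fun μ _ hlim m r h E hE S => ?_⟩
  have hA : 1 ≤ A := hA₀.trans hAA
  have hE0 : 0 < E := by linarith [(le_max_right E₀ (1 : ℝ)).trans hE]
  have key := H μ m r h E ((le_max_left _ _).trans hE) S
  obtain ⟨c, hc⟩ : ∃ c : ℝ, c = Real.log 2 * E / A := ⟨_, rfl⟩
  have hc0 : 0 < c := by
    rw [hc]
    have := Real.log_pos one_lt_two
    positivity
  rw [← hc] at key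
  have hh := S.one_h
  have hrr := S.hr
  have hrm := S.rm
  have hm1 : 1 ≤ m := by omega
  have hmr0 : (0 : ℝ) < m + r := by
    have : (1 : ℝ) ≤ m := by exact_mod_cast hm1
    have h2 : (0 : ℝ) ≤ r := Nat.cast_nonneg r
    linarith
  -- along the multiples
  have hev : ∀ᶠ N : ℕ in atTop, e μ 0 N ((N / 2 : ℕ) : ℤ) / N < c / (m + r) :=
    hlim.eventually_lt_const (by positivity)
  obtain ⟨N₀, hN₀⟩ := eventually_atTop.1 hev
  obtain ⟨i, hi⟩ : ∃ i : ℕ, i = N₀ + 1 := ⟨_, rfl⟩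
  have hi1 : 1 ≤ i := by omega
  have hNi : N₀ ≤ i * m + r := by nlinarith
  have h1 := hN₀ _ hNi
  have h2 := key i hi1
  have h3 : (((i * m + r) / 2 : ℕ) : ℤ) = (i : ℤ) * (m / 2 : ℕ) + (r / 2 : ℕ) := by
    obtain ⟨k, hk⟩ := S.even
    have h4 : (i * m + r) / 2 = i * (m / 2) + r / 2 := by
      have h5 : m / 2 = k := by omega
      rw [h5, hk, show i * (k + k) + r = r + 2 * (i * k) by ring, Nat.add_mul_div_left _ _ (by norm_num)]
      ring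
    rw [h4]
    push_cast
    rfl
  rw [h3] at h1
  have hir : (1 : ℝ) ≤ i := by exact_mod_cast hi1
  have hr0 : (0 : ℝ) ≤ r := Nat.cast_nonneg r
  have hm0 : (1 : ℝ) ≤ m := by exact_mod_cast hm1
  have hN : (0 : ℝ) < ((i * m + r : ℕ) : ℝ) := by
    push_cast
    nlinarith
  rw [div_lt_div_iff₀ hN hmr0] at h1
  push_cast at h1
  have h6 : (i : ℝ) * c * (m + r) ≤ e μ 0 (i * m + r) ((i : ℤ) * (m / 2 : ℕ) + (r / 2 : ℕ)) * (m + r) :=
    mul_le_mul_of_nonneg_right h2 hmr0.le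
  have h7 : c * (i * m + r) ≤ c * (i * (m + r)) := by
    refine mul_le_mul_of_nonneg_left ?_ hc0.le
    nlinarith
  push_cast at h6
  nlinarith

end Pool.Agent.W_7d29a1_h66
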