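import Pool.Agent.W_7d29a1_h66.Two

/-!
Track G (MP_7d29a1_pr), section A (row 618): the pointwise recursion. A chain of slabs of duration `m`; at the junctions the
path is swapped with a reference of duration `r` (a crossing one or a vertical one) when both references of the cell are not
unlucky, and cut otherwise. (helper66)
-/

namespace Pool.Agent.W_7d29a1_h66

open MeasureTheory ProbabilityTheory Pool.Agent.W_7d29a1_F

variable {μ : Measure ℝ} {s : ℝ}

/-! ### The maximum over a finite set -/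

/-- The maximum over a finite set (`0` when the set is empty). -/
noncomputable def mx (S : Finset ℤ) (F : ℤ → ℝ) : ℝ := if h : S.Nonempty then S.sup' h F else 0

theorem le_mx {S : Finset ℤ} {F : ℤ → ℝ} {u : ℤ} (hu : u ∈ S) : F u ≤ mx S F := by
  unfold mx
  rw [dif_pos ⟨u, hu⟩]
  exact Finset.le_sup' F hu

theorem mx_le {S : Finset ℤ} {F : ℤ → ℝ} {B : ℝ} (hB : 0 ≤ B) (h : ∀ u ∈ S, F u ≤ B) : mx S F ≤ B := by
  unfold mx
  split_ifs with hS
  · exact Finset.sup'_le hS F h
  · exact hB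

theorem mx_nonneg {S : Finset ℤ} {F : ℤ → ℝ} (h : ∀ u ∈ S, 0 ≤ F u) : 0 ≤ mx S F := by
  unfold mx
  split_ifs with hS
  · obtain ⟨u, hu⟩ := hS
    exact (h u hu).trans (Finset.le_sup' F hu)
  · exact le_rfl

theorem mx_mono {S : Finset ℤ} {F G : ℤ → ℝ} (hG : ∀ u ∈ S, 0 ≤ G u) (h : ∀ u ∈ S, F u ≤ G u) : mx S F ≤ mx S G :=
  mx_le (mx_nonneg hG) fun u hu => (h u hu).trans (le_mx hu)

theorem mx_sub {S S' : Finset ℤ} {F : ℤ → ℝ} (hF : ∀ u ∈ S', 0 ≤ F u) (h : S ⊆ S') : mx S F ≤ mx S' F :=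
  mx_le (mx_nonneg hF) fun u hu => le_mx (h hu)

theorem mx_meas {S : Finset ℤ} {F : ℤ → Env → ℝ} (h : ∀ u ∈ S, Measurable (F u)) :
    Measurable fun η => mx S fun u => F u η := by
  unfold mx
  by_cases hS : S.Nonempty
  · simp only [dif_pos hS]
    have h1 : (fun η => S.sup' hS fun u => F u η) = S.sup' hS F := by
      funext η
      rw [Finset.sup'_apply]
    rw [h1]
    exact Finset.measurable_sup' hS h
  · simp only [dif_neg hS]
    exact measurable_const

theorem mx_dep {S : Finset ℤ} {F : ℤ → Env → ℝ} {A : Set Pt} (h : ∀ u ∈ S, DependsOn (F u) A) :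
    DependsOn (fun η => mx S fun u => F u η) A := by
  intro η η' hh
  show mx S (fun u => F u η) = mx S fun u => F u η'
  unfold mx
  split_ifs with hS
  · exact Finset.sup'_congr hS rfl fun u hu => h u hu hh
  · rfl

/-! ### Chapman-Kolmogorov -/

theorem ck_le (η : Env) (t x : ℤ) (p n : ℕ) (y : ℤ) (S : Finset ℤ) :
    ∑ v ∈ S, W μ s η (t, x) p (v - x) * W μ s η (t + p, v) n (y - v) ≤ W μ s η (t, x) (p + n) (y - x) := by
  classical
  rw [W_add η (t, x) p n (y - x)]
  have h0 : ∀ v : ℤ, 0 ≤ W μ s η (t, x) p (v - x) * W μ s η (t + p, v) n (y - v) := fun v =>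
    mul_nonneg (W_nonneg _ _ _ _) (W_nonneg _ _ _ _)
  have h1 : ∑ v ∈ S, W μ s η (t, x) p (v - x) * W μ s η (t + p, v) n (y - v) =
      ∑ v ∈ S.filter (fun v => v ∈ (Finset.Icc (0 : ℤ) p).image (fun k => x + k)),
        W μ s η (t, x) p (v - x) * W μ s η (t + p, v) n (y - v) := by
    rw [Finset.sum_filter_of_ne]
    intro v _ hne
    by_contra hcon
    refine hne ?_
    rw [W_eq_zero, zero_mul]
    intro hv
    exact hcon (Finset.mem_image.2 ⟨v - x, Finset.mem_Icc.2 hv, by ring⟩)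
  rw [h1]
  refine (Finset.sum_le_sum_of_subset_of_nonneg (t := (Finset.Icc (0 : ℤ) p).image (fun k => x + k))
    (fun v hv => (Finset.mem_filter.1 hv).2) fun v _ _ => h0 v).trans_eq ?_
  rw [Finset.sum_image fun a _ b _ h => by simpa using h]
  refine Finset.sum_congr rfl fun k _ => ?_
  simp only [add_sub_cancel_left]
  rw [show y - (x + k) = y - x - k by ring]

theorem ck_eq (η : Env) (t x : ℤ) (p n : ℕ) (y : ℤ) :
    W μ s η (t, x) (p + n) (y - x) =
      ∑ v ∈ Finset.Icc x (x + p), W μ s η (t, x) p (v - x) * W μ s η (t + p, v) n (y - v) := by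
  classical
  rw [W_add η (t, x) p n (y - x)]
  have h1 : Finset.Icc x (x + p) = (Finset.Icc (0 : ℤ) p).image (fun k => x + k) := by
    ext v
    rw [Finset.mem_image]
    simp only [Finset.mem_Icc]
    constructor
    · rintro ⟨h1, h2⟩
      exact ⟨v - x, ⟨by linarith, by linarith⟩, by ring⟩
    · rintro ⟨k, ⟨h1, h2⟩, rfl⟩
      exact ⟨by linarith, by linarith⟩
  rw [h1, Finset.sum_image fun a _ b _ h => by simpa using h]
  refine Finset.sum_congr rfl fun k _ => ?_
  simp only [add_sub_cancel_left]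
  rw [show y - (x + k) = y - x - k by ring]

/-! ### The junction -/

/-- Both references of the cell `[0, h)` at time `0` are not unlucky. -/
def Good (μ : Measure ℝ) (s : ℝ) (r h : ℕ) (cr : ℤ) (ρ : ℝ) (η : Env) : Prop :=
  Real.exp (-ρ) ≤ W μ s η (0, 0) r (cr + h) ∧ Real.exp (-ρ) ≤ W μ s η (0, (h : ℤ)) r cr

/-- One junction: the path from `u` in the cell `[0, h)` is swapped with one of the two references. -/
theorem junction {r h : ℕ} {cr : ℤ} {ρ : ℝ} {η : Env} (hg : Good μ s r h cr ρ η) {u : ℤ} (h0 : 0 ≤ u)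
    (h1 : u ≤ h) (n : ℕ) (y : ℤ) :
    W μ s η (0, u) (r + n) (y - u) ≤ Real.exp ρ * W μ s η (0, u) r (cr + h - u) *
      (W μ s η (0, 0) (r + n) (y - 0) + W μ s η (0, (h : ℤ)) (r + n) (y - h)) := by
  have hstep : ∀ v : ℤ, W μ s η (0, u) r (v - u) ≤ Real.exp ρ * W μ s η (0, u) r (cr + h - u) *
      (W μ s η (0, 0) r (v - 0) + W μ s η (0, (h : ℤ)) r (v - h)) := by
    intro v
    have hE : Real.exp ρ * Real.exp (-ρ) = 1 := by rw [← Real.exp_add]; simp
    have hW : 0 ≤ W μ s η (0, u) r (v - u) := W_nonneg _ _ _ _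
    have hp : 0 < Real.exp ρ := Real.exp_pos _
    rcases le_total v (cr + h) with hv | hv
    · have h2 := W_tp2 (μ := μ) (s := s) η 0 0 u r v (cr + h) h0 hv
      rw [sub_zero, sub_zero] at h2
      have h3 : Real.exp (-ρ) * W μ s η (0, u) r (v - u) ≤
          W μ s η (0, 0) r v * W μ s η (0, u) r (cr + h - u) :=
        (mul_le_mul_of_nonneg_right hg.1 hW).trans h2
      calc W μ s η (0, u) r (v - u) = Real.exp ρ * (Real.exp (-ρ) * W μ s η (0, u) r (v - u)) := by
            rw [← mul_assoc, hE, one_mul]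
        _ ≤ Real.exp ρ * (W μ s η (0, 0) r v * W μ s η (0, u) r (cr + h - u)) :=
            mul_le_mul_of_nonneg_left h3 hp.le
        _ = Real.exp ρ * W μ s η (0, u) r (cr + h - u) * W μ s η (0, 0) r (v - 0) := by
            rw [sub_zero]; ring
        _ ≤ _ := mul_le_mul_of_nonneg_left (le_add_of_nonneg_right (W_nonneg _ _ _ _))
            (mul_nonneg hp.le (W_nonneg _ _ _ _))
    · have h2 := W_tp2 (μ := μ) (s := s) η 0 u h r (cr + h) v h1 hv
      rw [add_sub_cancel_right] at h2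
      have h3 : Real.exp (-ρ) * W μ s η (0, u) r (v - u) ≤
          W μ s η (0, u) r (cr + h - u) * W μ s η (0, (h : ℤ)) r (v - h) := by
        refine le_trans ?_ h2
        rw [mul_comm]
        exact mul_le_mul_of_nonneg_left hg.2 hW
      calc W μ s η (0, u) r (v - u) = Real.exp ρ * (Real.exp (-ρ) * W μ s η (0, u) r (v - u)) := by
            rw [← mul_assoc, hE, one_mul]
        _ ≤ Real.exp ρ * (W μ s η (0, u) r (cr + h - u) * W μ s η (0, (h : ℤ)) r (v - h)) :=
            mul_le_mul_of_nonneg_left h3 hp.le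
        _ = Real.exp ρ * W μ s η (0, u) r (cr + h - u) * W μ s η (0, (h : ℤ)) r (v - h) := by ring
        _ ≤ _ := mul_le_mul_of_nonneg_left (le_add_of_nonneg_left (W_nonneg _ _ _ _))
            (mul_nonneg hp.le (W_nonneg _ _ _ _))
  rw [ck_eq η 0 u r n y]
  refine (Finset.sum_le_sum fun v _ => mul_le_mul_of_nonneg_right (hstep v) (W_nonneg _ _ _ _)).trans ?_
  have e1 : ∀ v : ℤ, Real.exp ρ * W μ s η (0, u) r (cr + h - u) *
      (W μ s η (0, 0) r (v - 0) + W μ s η (0, (h : ℤ)) r (v - h)) * W μ s η (0 + r, v) n (y - v) =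
      Real.exp ρ * W μ s η (0, u) r (cr + h - u) * (W μ s η (0, 0) r (v - 0) * W μ s η (0 + r, v) n (y - v) +
        W μ s η (0, (h : ℤ)) r (v - h) * W μ s η (0 + r, v) n (y - v)) := fun v => by ring
  simp only [e1]
  rw [← Finset.mul_sum]
  refine mul_le_mul_of_nonneg_left ?_ (mul_nonneg (Real.exp_pos _).le (W_nonneg _ _ _ _))
  rw [Finset.sum_add_distrib]
  exact add_le_add (ck_le η 0 0 r n y _) (ck_le η 0 h r n y _)

end Pool.Agent.W_7d29a1_h66
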