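import Pool.Agent.W_7d29a1_h66.Rec
import Pool.Agent.W_7d29a1_F.LuckA

/-!
Track G (MP_7d29a1_pr), section A (row 618): the recursion over the slabs. (helper66)
-/

namespace Pool.Agent.W_7d29a1_h66

open MeasureTheory ProbabilityTheory Pool.Agent.W_7d29a1_F

variable {μ : Measure ℝ} {s : ℝ}

/-- The starts: `0` and `h` in the state `true` (good), the cell `[0, h)` in the state `false` (bad). -/
noncomputable def St (h : ℕ) : Bool → Finset ℤ
  | true => {0, (h : ℤ)}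
  | false => Finset.Ico 0 (h : ℤ)

theorem St_mem {h : ℕ} {b : Bool} {u : ℤ} (hu : u ∈ St h b) : 0 ≤ u ∧ u ≤ h := by
  cases b with
  | true =>
    have h1 : u = 0 ∨ u = (h : ℤ) := by simpa [St] using hu
    rcases h1 with h1 | h1
    · rw [h1]; exact ⟨le_rfl, Int.natCast_nonneg h⟩
    · rw [h1]; exact ⟨Int.natCast_nonneg h, le_rfl⟩
  | false =>
    have h1 : 0 ≤ u ∧ u < (h : ℤ) := by simpa [St] using hu
    exact ⟨h1.1, h1.2.le⟩

/-- The slab from a start to the end of the reference of the cell `δ`. -/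
noncomputable def PP (μ : Measure ℝ) (s : ℝ) (m r h : ℕ) (cm cr : ℤ) (b : Bool) (δ : ℤ) (η : Env) : ℝ :=
  mx (St h b) fun u => W μ s η (0, u) (m + r) (cm + cr + (δ + 1) * h - u)

/-- The slab from a start to the sites of the cell `δ`. -/
noncomputable def RR (μ : Measure ℝ) (s : ℝ) (m h : ℕ) (cm : ℤ) (b : Bool) (δ : ℤ) (η : Env) : ℝ :=
  mx (St h b) fun u => ∑ u' ∈ Finset.Ico 0 (h : ℤ), W μ s η (0, u) m (cm + δ * h + u' - u)

/-- The weight to the target after `i` slabs. -/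
noncomputable def MM (μ : Measure ℝ) (s : ℝ) (m r h : ℕ) (cm cr : ℤ) (i : ℕ) (b : Bool) (a : ℤ) (η : Env) : ℝ :=
  mx (St h b) fun u => W μ s η (0, u) (i * m + r) (i * cm + cr + a * h - u)

/-- The displacements (in cells). -/
noncomputable def DD (m r h : ℕ) (cm cr : ℤ) : Finset ℤ :=
  Finset.Icc (-((m : ℤ) + r + h + |cm| + |cr| + 1)) ((m : ℤ) + r + h + |cm| + |cr| + 1)

theorem PP_nonneg (m r h : ℕ) (cm cr : ℤ) (b : Bool) (δ : ℤ) (η : Env) : 0 ≤ PP μ s m r h cm cr b δ η :=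
  mx_nonneg fun _ _ => W_nonneg _ _ _ _

theorem RR_nonneg (m h : ℕ) (cm : ℤ) (b : Bool) (δ : ℤ) (η : Env) : 0 ≤ RR μ s m h cm b δ η :=
  mx_nonneg fun _ _ => Finset.sum_nonneg fun _ _ => W_nonneg _ _ _ _

theorem MM_nonneg (m r h : ℕ) (cm cr : ℤ) (i : ℕ) (b : Bool) (a : ℤ) (η : Env) :
    0 ≤ MM μ s m r h cm cr i b a η :=
  mx_nonneg fun _ _ => W_nonneg _ _ _ _

/-- The position at the time `m` in cells. -/
theorem cells {m r h : ℕ} (cm cr : ℤ) (hh : 1 ≤ h) (η : Env) {u : ℤ} (h0 : 0 ≤ u) (h1 : u ≤ h) (n : ℕ) (y : ℤ) :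
    W μ s η (0, u) (m + n) (y - u) ≤ ∑ δ ∈ DD m r h cm cr, ∑ u' ∈ Finset.Ico 0 (h : ℤ),
      W μ s η (0, u) m (cm + δ * h + u' - u) * W μ s η (0 + (m : ℤ), cm + δ * h + u') n (y - (cm + δ * h + u')) := by
  classical
  have hh' : (0 : ℤ) < h := by exact_mod_cast hh
  rw [ck_eq η 0 u m n y]
  obtain ⟨g, hg⟩ : ∃ g : ℤ → ℝ, g = fun v => W μ s η (0, u) m (v - u) * W μ s η (0 + m, v) n (y - v) := ⟨_, rfl⟩
  have hg0 : ∀ v, 0 ≤ g v := fun v => by
    rw [hg]
    exact mul_nonneg (W_nonneg _ _ _ _) (W_nonneg _ _ _ _)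
  obtain ⟨ψ, hψ⟩ : ∃ ψ : ℤ → ℤ × ℤ, ψ = fun v => ((v - cm) / h, (v - cm) % h) := ⟨_, rfl⟩
  have hφ : ∀ v : ℤ, cm + (ψ v).1 * h + (ψ v).2 = v := by
    intro v
    rw [hψ]
    have := Int.mul_ediv_add_emod (v - cm) h
    show cm + (v - cm) / h * h + (v - cm) % h = v
    linarith [mul_comm ((v - cm) / (h : ℤ)) (h : ℤ)]
  have hL : ∑ v ∈ Finset.Icc u (u + m), W μ s η (0, u) m (v - u) * W μ s η (0 + m, v) n (y - v) =
      ∑ q ∈ (Finset.Icc u (u + m)).image ψ, g (cm + q.1 * h + q.2) := by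
    rw [Finset.sum_image]
    · refine Finset.sum_congr rfl fun v _ => ?_
      rw [hφ v, hg]
    · intro v _ v' _ hv
      rw [← hφ v, ← hφ v', hv]
  rw [hL]
  have hsub : (Finset.Icc u (u + m)).image ψ ⊆ DD m r h cm cr ×ˢ Finset.Ico 0 (h : ℤ) := by
    intro q hq
    obtain ⟨v, hv, rfl⟩ := Finset.mem_image.1 hq
    have hv' := Finset.mem_Icc.1 hv
    rw [Finset.mem_product, hψ]
    refine ⟨?_, Finset.mem_Ico.2 ⟨Int.emod_nonneg _ hh'.ne', Int.emod_lt_of_pos _ hh'⟩⟩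
    show (v - cm) / (h : ℤ) ∈ DD m r h cm cr
    have ha := abs_nonneg cr
    have hb := neg_abs_le cm
    have hc := le_abs_self cm
    unfold DD
    rw [Finset.mem_Icc]
    constructor
    · rw [Int.le_ediv_iff_mul_le hh']
      have : (-((m : ℤ) + r + h + |cm| + |cr| + 1)) * h ≤ -((m : ℤ) + r + h + |cm| + |cr| + 1) := by
        nlinarith [Int.natCast_nonneg m, Int.natCast_nonneg r, abs_nonneg cm]
      have h2 := Int.natCast_nonneg m
      have h3 := Int.natCast_nonneg r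
      linarith
    · refine Int.ediv_le_of_le_mul hh' ?_
      have : ((m : ℤ) + r + h + |cm| + |cr| + 1) ≤ ((m : ℤ) + r + h + |cm| + |cr| + 1) * h := by
        nlinarith [Int.natCast_nonneg m, Int.natCast_nonneg r, abs_nonneg cm]
      have h2 := Int.natCast_nonneg m
      have h3 := Int.natCast_nonneg r
      linarith
  refine (Finset.sum_le_sum_of_subset_of_nonneg hsub fun q _ _ => hg0 _).trans_eq ?_
  rw [Finset.sum_product]
  refine Finset.sum_congr rfl fun δ _ => Finset.sum_congr rfl fun u' _ => ?_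
  rw [hg]

/-- The recursion for the weights. -/
theorem MM_rec {m r h : ℕ} {cm cr : ℤ} {ρ : ℝ} (hh : 1 ≤ h) (j : ℕ) (b : Bool) (a : ℤ) (η : Env) :
    MM μ s m r h cm cr (j + 2) b a η ≤ ∑ δ ∈ DD m r h cm cr,
      (2 * Real.exp ρ * PP μ s m r h cm cr b δ η *
          MM μ s m r h cm cr (j + 1) true (a - δ) (sh ((m : ℤ), cm + δ * h) η) +
        io (¬ Good μ s r h cr ρ (sh ((m : ℤ), cm + δ * h) η)) * RR μ s m h cm b δ η *
          MM μ s m r h cm cr (j + 1) false (a - δ) (sh ((m : ℤ), cm + δ * h) η)) := by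
  classical
  have hrhs : ∀ δ : ℤ, 0 ≤ 2 * Real.exp ρ * PP μ s m r h cm cr b δ η *
          MM μ s m r h cm cr (j + 1) true (a - δ) (sh ((m : ℤ), cm + δ * h) η) ∧
      0 ≤ io (¬ Good μ s r h cr ρ (sh ((m : ℤ), cm + δ * h) η)) * RR μ s m h cm b δ η *
          MM μ s m r h cm cr (j + 1) false (a - δ) (sh ((m : ℤ), cm + δ * h) η) := fun δ =>
    ⟨mul_nonneg (mul_nonneg (mul_nonneg zero_le_two (Real.exp_pos _).le) (PP_nonneg _ _ _ _ _ _ _ _))
      (MM_nonneg _ _ _ _ _ _ _ _ _), mul_nonneg (mul_nonneg (io_nonneg _) (RR_nonneg _ _ _ _ _ _))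
      (MM_nonneg _ _ _ _ _ _ _ _ _)⟩
  refine mx_le (Finset.sum_nonneg fun δ _ => add_nonneg (hrhs δ).1 (hrhs δ).2) fun u hu => ?_
  obtain ⟨hu0, hu1⟩ := St_mem hu
  obtain ⟨n, hn⟩ : ∃ n : ℕ, n = (j + 1) * m + r := ⟨_, rfl⟩
  obtain ⟨y, hy⟩ : ∃ y : ℤ, y = ((j + 2 : ℕ) : ℤ) * cm + cr + a * h := ⟨_, rfl⟩
  have hn2 : (j + 2) * m + r = m + n := by rw [hn]; ring
  rw [hn2, ← hy]
  refine (cells (r := r) cm cr hh η hu0 hu1 n y).trans (Finset.sum_le_sum fun δ _ => ?_)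
  obtain ⟨η', hη'⟩ : ∃ η' : Env, η' = sh ((m : ℤ), cm + δ * h) η := ⟨_, rfl⟩
  have e1 : ∀ u' : ℤ, W μ s η (0 + (m : ℤ), cm + δ * h + u') n (y - (cm + δ * h + u')) =
      W μ s η' (0, u') n (((j + 1 : ℕ) : ℤ) * cm + cr + (a - δ) * h - u') := by
    intro u'
    rw [hη', W_sh]
    have h1 : ((0, u') : Pt) + ((m : ℤ), cm + δ * h) = (0 + (m : ℤ), cm + δ * h + u') := by
      ext
      · rfl
      · show u' + (cm + δ * h) = cm + δ * h + u'
        ring
    rw [h1]
    congr 1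
    rw [hy]
    push_cast
    ring
  simp only [e1]
  rw [← hη']
  by_cases hgood : Good μ s r h cr ρ η'
  · have h1 : ∀ u' ∈ Finset.Ico 0 (h : ℤ),
        W μ s η' (0, u') n (((j + 1 : ℕ) : ℤ) * cm + cr + (a - δ) * h - u') ≤
        Real.exp ρ * W μ s η' (0, u') r (cr + h - u') * (2 * MM μ s m r h cm cr (j + 1) true (a - δ) η') := by
      intro u' hu'
      have hu'' := Finset.mem_Ico.1 hu'
      have hnr : n = r + (j + 1) * m := by rw [hn]; ring
      have h2 := junction hgood hu''.1 hu''.2.le ((j + 1) * m) (((j + 1 : ℕ) : ℤ) * cm + cr + (a - δ) * h)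
      rw [← hnr] at h2
      refine h2.trans (mul_le_mul_of_nonneg_left ?_ (mul_nonneg (Real.exp_pos _).le (W_nonneg _ _ _ _)))
      have h3 : W μ s η' (0, 0) n (((j + 1 : ℕ) : ℤ) * cm + cr + (a - δ) * h - 0) ≤
          MM μ s m r h cm cr (j + 1) true (a - δ) η' := by
        rw [hn]
        exact le_mx (F := fun u => W μ s η' (0, u) ((j + 1) * m + r)
          (((j + 1 : ℕ) : ℤ) * cm + cr + (a - δ) * h - u)) (by simp [St])
      have h4 : W μ s η' (0, (h : ℤ)) n (((j + 1 : ℕ) : ℤ) * cm + cr + (a - δ) * h - h) ≤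
          MM μ s m r h cm cr (j + 1) true (a - δ) η' := by
        rw [hn]
        exact le_mx (F := fun u => W μ s η' (0, u) ((j + 1) * m + r)
          (((j + 1 : ℕ) : ℤ) * cm + cr + (a - δ) * h - u)) (by simp [St])
      linarith
    have h5 : ∑ u' ∈ Finset.Ico 0 (h : ℤ), W μ s η (0, u) m (cm + δ * h + u' - u) *
        W μ s η' (0, u') r (cr + h - u') ≤ PP μ s m r h cm cr b δ η := by
      have h6 := ck_le (μ := μ) (s := s) η 0 u m r (cm + cr + (δ + 1) * h)
        ((Finset.Ico 0 (h : ℤ)).image fun u' => cm + δ * h + u')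
      rw [Finset.sum_image fun a _ b _ h => by simpa using h] at h6
      refine le_trans (le_trans (le_of_eq ?_) h6) (le_mx (F := fun u =>
        W μ s η (0, u) (m + r) (cm + cr + (δ + 1) * h - u)) hu)
      refine Finset.sum_congr rfl fun u' _ => ?_
      congr 1
      rw [hη', W_sh]
      have h1 : ((0, u') : Pt) + ((m : ℤ), cm + δ * h) = (0 + (m : ℤ), cm + δ * h + u') := by
        ext
        · rfl
        · show u' + (cm + δ * h) = cm + δ * h + u'
          ring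
      rw [h1]
      congr 1
      ring
    have h7 : ∑ u' ∈ Finset.Ico 0 (h : ℤ), W μ s η (0, u) m (cm + δ * h + u' - u) *
        W μ s η' (0, u') n (((j + 1 : ℕ) : ℤ) * cm + cr + (a - δ) * h - u') ≤
        2 * Real.exp ρ * PP μ s m r h cm cr b δ η * MM μ s m r h cm cr (j + 1) true (a - δ) η' := by
      refine (Finset.sum_le_sum fun u' hu' => mul_le_mul_of_nonneg_left (h1 u' hu') (W_nonneg _ _ _ _)).trans ?_
      have e2 : ∀ u' : ℤ, W μ s η (0, u) m (cm + δ * h + u' - u) * (Real.exp ρ * W μ s η' (0, u') r (cr + h - u') *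
          (2 * MM μ s m r h cm cr (j + 1) true (a - δ) η')) =
          (2 * Real.exp ρ * MM μ s m r h cm cr (j + 1) true (a - δ) η') *
            (W μ s η (0, u) m (cm + δ * h + u' - u) * W μ s η' (0, u') r (cr + h - u')) := fun u' => by ring
      simp only [e2]
      rw [← Finset.mul_sum]
      refine (mul_le_mul_of_nonneg_left h5 (mul_nonneg (mul_nonneg zero_le_two (Real.exp_pos _).le)
        (MM_nonneg _ _ _ _ _ _ _ _ _))).trans_eq ?_
      ring
    refine h7.trans (le_add_of_nonneg_right ?_)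
    have := (hrhs δ).2
    rwa [← hη'] at this
  · rw [io_of hgood, one_mul]
    have h1 : ∀ u' ∈ Finset.Ico 0 (h : ℤ),
        W μ s η' (0, u') n (((j + 1 : ℕ) : ℤ) * cm + cr + (a - δ) * h - u') ≤
        MM μ s m r h cm cr (j + 1) false (a - δ) η' := by
      intro u' hu'
      rw [hn]
      exact le_mx (F := fun u => W μ s η' (0, u) ((j + 1) * m + r)
          (((j + 1 : ℕ) : ℤ) * cm + cr + (a - δ) * h - u)) (by simpa [St] using hu')
    have h7 : ∑ u' ∈ Finset.Ico 0 (h : ℤ), W μ s η (0, u) m (cm + δ * h + u' - u) *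
        W μ s η' (0, u') n (((j + 1 : ℕ) : ℤ) * cm + cr + (a - δ) * h - u') ≤
        RR μ s m h cm b δ η * MM μ s m r h cm cr (j + 1) false (a - δ) η' := by
      refine (Finset.sum_le_sum fun u' hu' => mul_le_mul_of_nonneg_left (h1 u' hu') (W_nonneg _ _ _ _)).trans ?_
      rw [← Finset.sum_mul]
      exact mul_le_mul_of_nonneg_right (le_mx (F := fun u => ∑ u' ∈ Finset.Ico 0 (h : ℤ),
        W μ s η (0, u) m (cm + δ * h + u' - u)) hu) (MM_nonneg _ _ _ _ _ _ _ _ _)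
    refine h7.trans (le_add_of_nonneg_left ?_)
    have := (hrhs δ).1
    rwa [← hη'] at this

end Pool.Agent.W_7d29a1_h66
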