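import Pool.Agent.W_7d29a1_F.CoreD

/-!
Track G (MP_7d29a1_pr), section A (row 618): sums over chains of slabs which overlap only with their neighbours. The sum over
all patterns is bounded by two alternating majorants. (helper66)
-/

namespace Pool.Agent.W_7d29a1_h66

open MeasureTheory ProbabilityTheory Pool.Agent.W_7d29a1_F

variable {μ : Measure ℝ} [IsProbabilityMeasure μ]

/-- A product of integrable functions of disjoint sets of sites is integrable. -/
theorem integrable_mul_indep {f g : Env → ℝ} {A B : Set Pt} (hf : Integrable f (law μ))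
    (hg : Integrable g (law μ)) (hfm : Measurable f) (hgm : Measurable g) (hfA : DependsOn f A)
    (hgB : DependsOn g B) (h : Disjoint A B) : Integrable (fun η => f η * g η) (law μ) := by
  have hgA : DependsOn g Aᶜ := fun η η' hh =>
    hgB fun p hp => hh p fun hpA => (Set.disjoint_left.mp h) hpA hp
  have hmp := Pool.Agent.W_7d29a1_f21.mp_splice (μ := μ) A
  refine (hmp.integrable_comp (hfm.mul hgm).aestronglyMeasurable).1 ?_
  have h1 : Integrable (fun w : Env × Env => f w.1 * g w.2)
      ((Pool.Agent.W_7d29a1_f21.lw Pt μ).prod (Pool.Agent.W_7d29a1_f21.lw Pt μ)) :=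
    Integrable.mul_prod hf hg
  refine h1.congr (Filter.Eventually.of_forall fun w => ?_)
  show f w.1 * g w.2 = f _ * g _
  congr 1
  · exact (hfA fun p hp => Pool.Agent.W_7d29a1_f21.splice_mem _ _ hp).symm
  · exact (hgA fun p hp => Pool.Agent.W_7d29a1_f21.splice_not_mem _ _ hp).symm

/-- The two alternating majorants. -/
noncomputable def AB (f : Bool → Bool → ℤ → Env → ℝ) (T : Bool → Bool → ℤ → ℝ) (H : Bool → ℝ)
    (D : Finset ℤ) (v : ℤ → Pt) : ℕ → Bool → Bool → Env → ℝ
  | 0, _, s, _ => H s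
  | i + 1, b, s, η => ∑ q ∈ (Finset.univ : Finset Bool) ×ˢ D,
      (if b = true then f s q.1 q.2 η ^ 2 / T s q.1 q.2 else T s q.1 q.2) *
        AB f T H D v i (!b) q.1 (sh (v q.2) η)

theorem dep_sh {g : Env → ℝ} {c : ℤ} (hg : DependsOn g {p : Pt | c < p.1}) (a : Pt) :
    DependsOn (fun η => g (sh a η)) {p : Pt | c + a.1 < p.1} := by
  intro η η' h
  refine hg fun p hp => ?_
  show η (p + a) = η' (p + a)
  refine h _ ?_
  show c + a.1 < p.1 + a.1
  have : c < p.1 := hp
  linarith

section
variable {f : Bool → Bool → ℤ → Env → ℝ} {T : Bool → Bool → ℤ → ℝ} {H : Bool → ℝ} {D : Finset ℤ}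
  {v : ℤ → Pt}

theorem AB_nonneg (hT : ∀ s s' d, 0 < T s s' d) (hH : ∀ s, 0 ≤ H s) (i : ℕ) :
    ∀ (b s : Bool) (η : Env), 0 ≤ AB f T H D v i b s η := by
  induction i with
  | zero => exact fun b s η => hH s
  | succ i ih =>
    intro b s η
    rw [AB]
    refine Finset.sum_nonneg fun q _ => mul_nonneg ?_ (ih _ _ _)
    split_ifs
    · exact div_nonneg (sq_nonneg _) (hT _ _ _).le
    · exact (hT _ _ _).le

theorem AB_meas (hf : ∀ s s' d, Measurable (f s s' d)) (i : ℕ) :
    ∀ b s : Bool, Measurable (AB f T H D v i b s) := by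
  induction i with
  | zero => exact fun b s => measurable_const
  | succ i ih =>
    intro b s
    show Measurable fun η => AB f T H D v (i + 1) b s η
    simp only [AB]
    refine Finset.measurable_sum _ fun q _ => Measurable.mul ?_ ?_
    · split_ifs
      · exact ((hf _ _ _).pow_const 2).div_const _
      · exact measurable_const
    · exact (ih _ _).comp (mp_sh (μ := Measure.dirac (0 : ℝ)) (v q.2)).measurable

theorem AB_dep {m m' : ℕ} (hf : ∀ s s' d, DependsOn (f s s' d) (rows 0 m'))
    (hv : ∀ d, (v d).1 = m) (i : ℕ) :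
    ∀ b s : Bool, DependsOn (AB f T H D v i b s) {p : Pt | (if b = true then 0 else (m : ℤ)) < p.1} := by
  induction i with
  | zero => exact fun b s η η' _ => rfl
  | succ i ih =>
    intro b s η η' h
    show AB f T H D v (i + 1) b s η = AB f T H D v (i + 1) b s η'
    rw [AB, AB]
    refine Finset.sum_congr rfl fun q _ => ?_
    have h1 := dep_sh (ih (!b) q.1) (v q.2)
    rw [hv] at h1
    cases b with
    | true =>
      rw [if_pos rfl, if_pos rfl]
      congr 1
      · congr 2
        refine hf _ _ _ fun p hp => h p ?_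
        show (if true = true then 0 else (m : ℤ)) < p.1
        rw [if_pos rfl]
        exact hp.1
      · refine h1 fun p hp => h p ?_
        show (if true = true then 0 else (m : ℤ)) < p.1
        rw [if_pos rfl]
        have hp' : (if (!true) = true then 0 else (m : ℤ)) + m < p.1 := hp
        simp only [Bool.not_true, Bool.false_eq_true, if_false] at hp'
        have : (0 : ℤ) ≤ m := Int.natCast_nonneg m
        linarith
    | false =>
      rw [if_neg (by simp), if_neg (by simp)]
      congr 1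
      refine h1 fun p hp => h p ?_
      show (if false = true then 0 else (m : ℤ)) < p.1
      have hp' : (if (!false) = true then 0 else (m : ℤ)) + m < p.1 := hp
      simp only [Bool.not_false, if_true] at hp'
      rw [if_neg (by simp)]
      linarith

theorem AB_int {m m' : ℕ} (hm : m' ≤ 2 * m) (hfm : ∀ s s' d, Measurable (f s s' d))
    (hf : ∀ s s' d, DependsOn (f s s' d) (rows 0 m')) (hv : ∀ d, (v d).1 = m)
    (hT : ∀ s s' d, 0 < T s s' d) (hH : ∀ s, 0 ≤ H s)
    (hfi : ∀ s s' d, Integrable (fun η => f s s' d η ^ 2) (law μ))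
    (hf2 : ∀ s s' d, ∫ η, f s s' d η ^ 2 ∂(law μ) ≤ T s s' d ^ 2)
    (hTH : ∀ s, ∑ q ∈ (Finset.univ : Finset Bool) ×ˢ D, T s q.1 q.2 * H q.1 ≤ H s / 2) (i : ℕ) :
    ∀ b s : Bool, Integrable (AB f T H D v i b s) (law μ) ∧
      ∫ η, AB f T H D v i b s η ∂(law μ) ≤ H s / 2 ^ i := by
  induction i with
  | zero =>
    intro b s
    refine ⟨integrable_const _, ?_⟩
    show ∫ η, H s ∂(law μ) ≤ H s / 2 ^ 0
    simp
  | succ i ih =>
    intro b s
    -- the terms
    have hsh : ∀ (b' s' : Bool) (a : Pt), Integrable (fun η => AB f T H D v i b' s' (sh a η)) (law μ) ∧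
        ∫ η, AB f T H D v i b' s' (sh a η) ∂(law μ) ≤ H s' / 2 ^ i := by
      intro b' s' a
      have hmp := mp_sh (μ := μ) a
      refine ⟨hmp.integrable_comp_of_integrable (ih b' s').1, ?_⟩
      have h1 : ∫ η, AB f T H D v i b' s' (sh a η) ∂(law μ) = ∫ η, AB f T H D v i b' s' η ∂(law μ) := by
        conv_rhs => rw [← hmp.map_eq]
        rw [integral_map hmp.measurable.aemeasurable (AB_meas hfm i b' s').aestronglyMeasurable]
      rw [h1]
      exact (ih b' s').2
    have hterm : ∀ q : Bool × ℤ, Integrable (fun η =>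
        (if b = true then f s q.1 q.2 η ^ 2 / T s q.1 q.2 else T s q.1 q.2) *
          AB f T H D v i (!b) q.1 (sh (v q.2) η)) (law μ) ∧
        ∫ η, (if b = true then f s q.1 q.2 η ^ 2 / T s q.1 q.2 else T s q.1 q.2) *
          AB f T H D v i (!b) q.1 (sh (v q.2) η) ∂(law μ) ≤ T s q.1 q.2 * (H q.1 / 2 ^ i) := by
      intro q
      cases b with
      | true =>
        simp only [if_true, Bool.not_true]
        have hd1 : DependsOn (fun η => f s q.1 q.2 η ^ 2 / T s q.1 q.2) (rows 0 m') := by
          intro η η' h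
          show f s q.1 q.2 η ^ 2 / T s q.1 q.2 = f s q.1 q.2 η' ^ 2 / T s q.1 q.2
          rw [hf _ _ _ h]
        have hd2 := dep_sh (AB_dep (T := T) (H := H) (D := D) hf hv i false q.1) (v q.2)
        have hm1 : Measurable fun η => f s q.1 q.2 η ^ 2 / T s q.1 q.2 :=
          ((hfm _ _ _).pow_const 2).div_const _
        have hm2 : Measurable fun η => AB f T H D v i false q.1 (sh (v q.2) η) :=
          (AB_meas hfm i false q.1).comp (mp_sh (μ := Measure.dirac (0 : ℝ)) (v q.2)).measurable
        have hdis : Disjoint (rows 0 (m' : ℤ))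
            {p : Pt | (if false = true then 0 else (m : ℤ)) + (v q.2).1 < p.1} := by
          rw [Set.disjoint_left]
          intro p hp hp'
          have h1 : p.1 ≤ (m' : ℤ) := hp.2
          have h2 : (if false = true then 0 else (m : ℤ)) + (v q.2).1 < p.1 := hp'
          rw [hv] at h2
          simp only [Bool.false_eq_true, if_false] at h2
          have h3 : (m' : ℤ) ≤ 2 * m := by exact_mod_cast hm
          linarith
        have hi1 : Integrable (fun η => f s q.1 q.2 η ^ 2 / T s q.1 q.2) (law μ) :=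
          (hfi _ _ _).div_const _
        obtain ⟨hi2, hb2⟩ := hsh false q.1 (v q.2)
        refine ⟨integrable_mul_indep hi1 hi2 hm1 hm2 hd1 hd2 hdis, ?_⟩
        rw [integral_indep hm1 hm2 hd1 hd2 hdis]
        refine mul_le_mul ?_ hb2 (integral_nonneg fun η => AB_nonneg hT hH i _ _ _) (hT _ _ _).le
        rw [integral_div, div_le_iff₀ (hT _ _ _), ← sq]
        exact hf2 _ _ _
      | false =>
        simp only [Bool.false_eq_true, if_false, Bool.not_false]
        obtain ⟨hi2, hb2⟩ := hsh true q.1 (v q.2)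
        refine ⟨hi2.const_mul _, ?_⟩
        rw [integral_const_mul]
        exact mul_le_mul_of_nonneg_left hb2 (hT _ _ _).le
    have hAB : AB f T H D v (i + 1) b s = fun η => ∑ q ∈ (Finset.univ : Finset Bool) ×ˢ D,
        (if b = true then f s q.1 q.2 η ^ 2 / T s q.1 q.2 else T s q.1 q.2) *
          AB f T H D v i (!b) q.1 (sh (v q.2) η) := by
      funext η
      rw [AB]
    rw [hAB]
    refine ⟨integrable_finsetSum _ fun q _ => (hterm q).1, ?_⟩
    rw [integral_finsetSum _ fun q _ => (hterm q).1]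
    refine (Finset.sum_le_sum fun q _ => (hterm q).2).trans ?_
    have h1 : ∑ q ∈ (Finset.univ : Finset Bool) ×ˢ D, T s q.1 q.2 * (H q.1 / 2 ^ i) =
        (∑ q ∈ (Finset.univ : Finset Bool) ×ˢ D, T s q.1 q.2 * H q.1) / 2 ^ i := by
      rw [Finset.sum_div]
      exact Finset.sum_congr rfl fun q _ => by ring
    rw [h1, pow_succ, mul_comm ((2 : ℝ) ^ i) 2, ← div_div]
    exact div_le_div_of_nonneg_right (hTH s) (by positivity)

/-- The abstract bound: chains of slabs overlapping only with their neighbours. -/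
theorem two_step {m m' : ℕ} (hm : m' ≤ 2 * m) (hfm : ∀ s s' d, Measurable (f s s' d))
    (hf : ∀ s s' d, DependsOn (f s s' d) (rows 0 m')) (hv : ∀ d, (v d).1 = m)
    (hT : ∀ s s' d, 0 < T s s' d) (hH : ∀ s, 0 ≤ H s)
    (hfi : ∀ s s' d, Integrable (fun η => f s s' d η ^ 2) (law μ))
    (hf2 : ∀ s s' d, ∫ η, f s s' d η ^ 2 ∂(law μ) ≤ T s s' d ^ 2)
    (hTH : ∀ s, ∑ q ∈ (Finset.univ : Finset Bool) ×ˢ D, T s q.1 q.2 * H q.1 ≤ H s / 2)
    {y : ℕ → Bool → ℤ → Env → ℝ} (hy0 : ∀ i s a η, 0 ≤ y i s a η) (hyH : ∀ s a η, y 0 s a η ≤ H s)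
    (hy : ∀ i s a η, y (i + 1) s a η ≤ ∑ q ∈ (Finset.univ : Finset Bool) ×ˢ D,
      f s q.1 q.2 η * y i q.1 (a - q.2) (sh (v q.2) η)) (i : ℕ) (s : Bool) (a : ℤ) {g : Env → ℝ}
    (hg0 : ∀ η, 0 ≤ g η) (hg : ∀ η, g η ≤ y i s a η) : ∫ η, g η ∂(law μ) ≤ H s / 2 ^ i := by
  have hpt : ∀ i s a η, y i s a η ^ 2 ≤ AB f T H D v i true s η * AB f T H D v i false s η := by
    intro i
    induction i with
    | zero =>
      intro s a η
      show y 0 s a η ^ 2 ≤ H s * H s
      rw [sq]
      exact mul_le_mul (hyH s a η) (hyH s a η) (hy0 _ _ _ _) (hH s)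
    | succ i ih =>
      intro s a η
      have h1 : (∑ q ∈ (Finset.univ : Finset Bool) ×ˢ D,
          f s q.1 q.2 η * y i q.1 (a - q.2) (sh (v q.2) η)) ^ 2 ≤
          (∑ q ∈ (Finset.univ : Finset Bool) ×ˢ D, f s q.1 q.2 η ^ 2 / T s q.1 q.2 *
            AB f T H D v i false q.1 (sh (v q.2) η)) *
          ∑ q ∈ (Finset.univ : Finset Bool) ×ˢ D, T s q.1 q.2 *
            AB f T H D v i true q.1 (sh (v q.2) η) := by
        refine Finset.sum_sq_le_sum_mul_sum_of_sq_le_mul _
          (fun q _ => mul_nonneg (div_nonneg (sq_nonneg _) (hT _ _ _).le) (AB_nonneg hT hH i _ _ _))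
          (fun q _ => mul_nonneg (hT _ _ _).le (AB_nonneg hT hH i _ _ _)) fun q _ => ?_
        have h2 := ih q.1 (a - q.2) (sh (v q.2) η)
        have h3 := (hT s q.1 q.2).ne'
        have h4 : f s q.1 q.2 η ^ 2 / T s q.1 q.2 * AB f T H D v i false q.1 (sh (v q.2) η) *
            (T s q.1 q.2 * AB f T H D v i true q.1 (sh (v q.2) η)) =
            f s q.1 q.2 η ^ 2 * (AB f T H D v i true q.1 (sh (v q.2) η) *
              AB f T H D v i false q.1 (sh (v q.2) η)) := by
          field_simp
        rw [h4, mul_pow]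
        exact mul_le_mul_of_nonneg_left h2 (sq_nonneg _)
      have h5 : y (i + 1) s a η ^ 2 ≤ (∑ q ∈ (Finset.univ : Finset Bool) ×ˢ D,
          f s q.1 q.2 η * y i q.1 (a - q.2) (sh (v q.2) η)) ^ 2 :=
        pow_le_pow_left₀ (hy0 _ _ _ _) (hy i s a η) 2
      refine (h5.trans h1).trans_eq ?_
      rw [AB, AB]
      simp
  have h1 := AB_int (μ := μ) hm hfm hf hv hT hH hfi hf2 hTH i true s
  have h2 := AB_int (μ := μ) hm hfm hf hv hT hH hfi hf2 hTH i false s
  have h3 : ∫ η, g η ∂(law μ) ≤
      ∫ η, (AB f T H D v i true s η + AB f T H D v i false s η) / 2 ∂(law μ) := by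
    refine integral_mono_of_nonneg (Filter.Eventually.of_forall hg0)
      ((h1.1.add h2.1).div_const 2) (Filter.Eventually.of_forall fun η => ?_)
    have h4 := hpt i s a η
    have h5 := AB_nonneg (f := f) (D := D) (v := v) hT hH i true s η
    have h6 := AB_nonneg (f := f) (D := D) (v := v) hT hH i false s η
    have h7 := hy0 i s a η
    refine (hg η).trans ?_
    show y i s a η ≤ (AB f T H D v i true s η + AB f T H D v i false s η) / 2
    nlinarith [sq_nonneg (AB f T H D v i true s η - AB f T H D v i false s η)]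
  refine h3.trans ?_
  rw [integral_div, integral_add h1.1 h2.1]
  linarith [h1.2, h2.2]

end

end Pool.Agent.W_7d29a1_h66
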